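import Pool.Agent.TH730.Adm.Main

/-! # First-order definability in the ring -/

set_option autoImplicit false

open FirstOrder

namespace Pool.Agent.TH730.Adm

/-- The structure used in the frozen statement. -/
noncomputable local instance instCR : FirstOrder.Ring.CompatibleRing HD :=
  FirstOrder.Ring.compatibleRingOfRing HD

/-- Functions given by terms. -/
def Tm (t : (ℕ → HD) → HD) : Prop :=
  ∃ τ : FirstOrder.Language.ring.Term ℕ, ∀ v, τ.realize v = t v

/-- Definable relations. -/
def Df (R : (ℕ → HD) → Prop) : Prop :=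
  ∃ φ : FirstOrder.Language.ring.Formula ℕ, ∀ v, φ.Realize v ↔ R v

theorem Tm.var (n : ℕ) : Tm (fun v => v n) := ⟨Language.Term.var n, fun _ => rfl⟩

theorem Tm.add {s t : (ℕ → HD) → HD} (hs : Tm s) (ht : Tm t) : Tm (fun v => s v + t v) := by
  obtain ⟨σ, hσ⟩ := hs
  obtain ⟨τ, hτ⟩ := ht
  exact ⟨σ + τ, fun v => by rw [FirstOrder.Ring.realize_add, hσ, hτ]⟩

theorem Tm.mul {s t : (ℕ → HD) → HD} (hs : Tm s) (ht : Tm t) : Tm (fun v => s v * t v) := by
  obtain ⟨σ, hσ⟩ := hs
  obtain ⟨τ, hτ⟩ := ht
  exact ⟨σ * τ, fun v => by rw [FirstOrder.Ring.realize_mul, hσ, hτ]⟩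

theorem Tm.neg {t : (ℕ → HD) → HD} (ht : Tm t) : Tm (fun v => -t v) := by
  obtain ⟨τ, hτ⟩ := ht
  exact ⟨-τ, fun v => by rw [FirstOrder.Ring.realize_neg, hτ]⟩

theorem Tm.sub {s t : (ℕ → HD) → HD} (hs : Tm s) (ht : Tm t) : Tm (fun v => s v - t v) := by
  have := hs.add ht.neg
  simpa only [← sub_eq_add_neg] using this

theorem Tm.zero : Tm (fun _ => 0) := ⟨0, fun v => by rw [FirstOrder.Ring.realize_zero]⟩

theorem Tm.one : Tm (fun _ => 1) := ⟨1, fun v => by rw [FirstOrder.Ring.realize_one]⟩

theorem Tm.two : Tm (fun _ => 2) := by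
  have := Tm.one.add Tm.one
  simpa only [one_add_one_eq_two] using this

theorem Tm.four : Tm (fun _ => 4) := by
  have := Tm.two.add Tm.two
  simpa only [two_add_two_eq_four] using this

theorem Tm.five : Tm (fun _ => 5) := by
  have := Tm.four.add Tm.one
  have h : (4 : HD) + 1 = 5 := by norm_num
  simpa only [h] using this

theorem Tm.lift {t : (ℕ → HD) → HD} (ht : Tm t) (g : ℕ → ℕ) :
    Tm (fun v => t (fun n => v (g n))) := by
  obtain ⟨τ, hτ⟩ := ht
  refine ⟨τ.relabel g, fun v => ?_⟩
  rw [Language.Term.realize_relabel, hτ]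
  rfl

theorem Df.congr {R S : (ℕ → HD) → Prop} (h : Df S) (hRS : ∀ v, R v ↔ S v) : Df R := by
  obtain ⟨φ, hφ⟩ := h
  exact ⟨φ, fun v => (hφ v).trans (hRS v).symm⟩

theorem Df.eq {s t : (ℕ → HD) → HD} (hs : Tm s) (ht : Tm t) : Df (fun v => s v = t v) := by
  obtain ⟨σ, hσ⟩ := hs
  obtain ⟨τ, hτ⟩ := ht
  exact ⟨σ.equal τ, fun v => by rw [Language.Formula.realize_equal, hσ, hτ]⟩

theorem Df.not {R : (ℕ → HD) → Prop} (h : Df R) : Df (fun v => ¬ R v) := by
  obtain ⟨φ, hφ⟩ := h
  exact ⟨φ.not, fun v => by rw [Language.Formula.realize_not, hφ]⟩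

theorem Df.and {R S : (ℕ → HD) → Prop} (hR : Df R) (hS : Df S) : Df (fun v => R v ∧ S v) := by
  obtain ⟨φ, hφ⟩ := hR
  obtain ⟨χ, hχ⟩ := hS
  exact ⟨φ ⊓ χ, fun v => by rw [Language.Formula.realize_inf, hφ, hχ]⟩

theorem Df.or {R S : (ℕ → HD) → Prop} (hR : Df R) (hS : Df S) : Df (fun v => R v ∨ S v) := by
  obtain ⟨φ, hφ⟩ := hR
  obtain ⟨χ, hχ⟩ := hS
  exact ⟨φ ⊔ χ, fun v => by rw [Language.Formula.realize_sup, hφ, hχ]⟩

theorem Df.imp {R S : (ℕ → HD) → Prop} (hR : Df R) (hS : Df S) : Df (fun v => R v → S v) := by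
  obtain ⟨φ, hφ⟩ := hR
  obtain ⟨χ, hχ⟩ := hS
  exact ⟨φ.imp χ, fun v => by rw [Language.Formula.realize_imp, hφ, hχ]⟩

theorem Df.iff {R S : (ℕ → HD) → Prop} (hR : Df R) (hS : Df S) : Df (fun v => R v ↔ S v) := by
  obtain ⟨φ, hφ⟩ := hR
  obtain ⟨χ, hχ⟩ := hS
  exact ⟨φ.iff χ, fun v => by rw [Language.Formula.realize_iff, hφ, hχ]⟩

/-- Renaming of variables used for the quantifiers. -/
def nm : ℕ → ℕ ⊕ Fin 1
  | 0 => Sum.inr 0
  | n + 1 => Sum.inl n

theorem Df.ex {R : HD → (ℕ → HD) → Prop} (h : Df (fun v => R (v 0) (fun n => v (n + 1)))) :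
    Df (fun v => ∃ x, R x v) := by
  obtain ⟨φ, hφ⟩ := h
  refine ⟨Language.Formula.iExs (Fin 1) (φ.relabel nm), fun v => ?_⟩
  rw [Language.Formula.realize_iExs]
  constructor
  · rintro ⟨i, hi⟩
    rw [Language.Formula.realize_relabel, hφ] at hi
    exact ⟨i 0, hi⟩
  · rintro ⟨x, hx⟩
    refine ⟨fun _ => x, ?_⟩
    rw [Language.Formula.realize_relabel, hφ]
    exact hx

theorem Df.all {R : HD → (ℕ → HD) → Prop} (h : Df (fun v => R (v 0) (fun n => v (n + 1)))) :
    Df (fun v => ∀ x, R x v) := by
  have h1 : Df (fun v => ∃ x, ¬ R x v) := Df.ex (R := fun x v => ¬ R x v) h.not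
  exact h1.not.congr fun v => by push Not; rfl

theorem Df.isUnit {t : (ℕ → HD) → HD} (ht : Tm t) : Df (fun v => IsUnit (t v)) := by
  refine Df.congr (S := fun v => ∃ b, t v * b = 1) ?_ fun v => isUnit_iff_exists_inv
  apply Df.ex
  exact Df.eq (Tm.mul (ht.lift _) (Tm.var _)) Tm.one

theorem Df.dvd {s t : (ℕ → HD) → HD} (hs : Tm s) (ht : Tm t) : Df (fun v => s v ∣ t v) := by
  refine Df.congr (S := fun v => ∃ c, t v = s v * c) ?_ fun v => Iff.rfl
  apply Df.ex
  exact Df.eq (ht.lift _) (Tm.mul (hs.lift _) (Tm.var _))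

theorem Df.irr {t : (ℕ → HD) → HD} (ht : Tm t) : Df (fun v => Irreducible (t v)) := by
  refine Df.congr (S := fun v => ¬ IsUnit (t v) ∧
    ∀ a b, t v = a * b → IsUnit a ∨ IsUnit b) ?_ fun v => irreducible_iff
  refine Df.and (Df.isUnit ht).not ?_
  apply Df.all
  apply Df.all
  refine Df.imp ?_ ?_
  · exact Df.eq (ht.lift _) (Tm.mul (Tm.var _) (Tm.var _))
  · exact Df.or (Df.isUnit (Tm.var _)) (Df.isUnit (Tm.var _))

theorem Df.pPr {p r A G : (ℕ → HD) → HD} (hp : Tm p) (hr : Tm r) (hA : Tm A) (hG : Tm G) :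
    Df (fun v => Adm.Pr (p v) (r v) (A v) (G v)) := by
  unfold Adm.Pr
  repeat' first
    | assumption
    | exact Tm.var _
    | exact Tm.zero
    | exact Tm.one
    | apply Tm.add
    | apply Tm.sub
    | apply Tm.mul
    | (refine Tm.lift ?_ _; assumption)
    | apply Df.isUnit
    | apply Df.dvd
    | apply Df.irr
    | apply Df.eq
    | apply Df.and
    | apply Df.or
    | apply Df.iff
    | apply Df.ex
    | apply Df.all
    | apply Df.not
    | apply Df.imp

theorem Df.pSm {p r : (ℕ → HD) → HD} (hp : Tm p) (hr : Tm r) :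
    Df (fun v => Adm.Sm (p v) (r v)) := by
  unfold Adm.Sm
  repeat' first
    | assumption
    | exact Tm.var _
    | exact Tm.zero
    | exact Tm.one
    | exact Tm.two
    | exact Tm.four
    | exact Tm.five
    | apply Tm.add
    | apply Tm.sub
    | apply Tm.mul
    | (refine Tm.lift ?_ _; assumption)
    | apply Df.pPr
    | apply Df.isUnit
    | apply Df.dvd
    | apply Df.irr
    | apply Df.eq
    | apply Df.and
    | apply Df.or
    | apply Df.iff
    | apply Df.ex
    | apply Df.all
    | apply Df.not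
    | apply Df.imp

theorem Df.pEx {X p q r : (ℕ → HD) → HD} (hX : Tm X) (hp : Tm p) (hq : Tm q) (hr : Tm r) :
    Df (fun v => Adm.Ex (X v) (p v) (q v) (r v)) := by
  unfold Adm.Ex
  repeat' first
    | assumption
    | exact Tm.var _
    | exact Tm.zero
    | exact Tm.one
    | apply Tm.add
    | apply Tm.sub
    | apply Tm.mul
    | (refine Tm.lift ?_ _; assumption)
    | apply Df.pPr
    | apply Df.pSm
    | apply Df.isUnit
    | apply Df.dvd
    | apply Df.irr
    | apply Df.eq
    | apply Df.and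
    | apply Df.or
    | apply Df.iff
    | apply Df.ex
    | apply Df.all
    | apply Df.not
    | apply Df.imp

theorem Df.pCn {K : (ℕ → HD) → HD} (hK : Tm K) :
    Df (fun v => Adm.Cn (K v)) := by
  unfold Adm.Cn
  repeat' first
    | assumption
    | exact Tm.var _
    | exact Tm.zero
    | exact Tm.one
    | exact Tm.two
    | exact Tm.four
    | exact Tm.five
    | apply Tm.add
    | apply Tm.sub
    | apply Tm.mul
    | (refine Tm.lift ?_ _; assumption)
    | apply Df.pPr
    | apply Df.pSm
    | apply Df.pEx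
    | apply Df.isUnit
    | apply Df.dvd
    | apply Df.irr
    | apply Df.eq
    | apply Df.and
    | apply Df.or
    | apply Df.iff
    | apply Df.ex
    | apply Df.all
    | apply Df.not
    | apply Df.imp

theorem Df.pIn {z c : (ℕ → HD) → HD} (hz : Tm z) (hc : Tm c) :
    Df (fun v => Adm.In (z v) (c v)) := by
  unfold Adm.In
  repeat' first
    | assumption
    | exact Tm.var _
    | exact Tm.zero
    | exact Tm.one
    | apply Tm.add
    | apply Tm.sub
    | apply Tm.mul
    | (refine Tm.lift ?_ _; assumption)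
    | apply Df.pPr
    | apply Df.pSm
    | apply Df.pEx
    | apply Df.pCn
    | apply Df.isUnit
    | apply Df.dvd
    | apply Df.irr
    | apply Df.eq
    | apply Df.and
    | apply Df.or
    | apply Df.iff
    | apply Df.ex
    | apply Df.all
    | apply Df.not
    | apply Df.imp

theorem Df.pCo {z : (ℕ → HD) → HD} (hz : Tm z) :
    Df (fun v => Adm.Co (z v)) := by
  unfold Adm.Co
  repeat' first
    | assumption
    | exact Tm.var _
    | exact Tm.zero
    | exact Tm.one
    | apply Tm.add
    | apply Tm.sub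
    | apply Tm.mul
    | (refine Tm.lift ?_ _; assumption)
    | apply Df.pPr
    | apply Df.pSm
    | apply Df.pEx
    | apply Df.pCn
    | apply Df.pIn
    | apply Df.isUnit
    | apply Df.dvd
    | apply Df.irr
    | apply Df.eq
    | apply Df.and
    | apply Df.or
    | apply Df.iff
    | apply Df.ex
    | apply Df.all
    | apply Df.not
    | apply Df.imp

theorem Df.pEv {z h x y : (ℕ → HD) → HD} (hz : Tm z) (hh : Tm h) (hx : Tm x) (hy : Tm y) :
    Df (fun v => Adm.Ev (z v) (h v) (x v) (y v)) := by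
  unfold Adm.Ev
  repeat' first
    | assumption
    | exact Tm.var _
    | exact Tm.zero
    | exact Tm.one
    | apply Tm.add
    | apply Tm.sub
    | apply Tm.mul
    | (refine Tm.lift ?_ _; assumption)
    | apply Df.pPr
    | apply Df.pSm
    | apply Df.pEx
    | apply Df.pCn
    | apply Df.pIn
    | apply Df.pCo
    | apply Df.isUnit
    | apply Df.dvd
    | apply Df.irr
    | apply Df.eq
    | apply Df.and
    | apply Df.or
    | apply Df.iff
    | apply Df.ex
    | apply Df.all
    | apply Df.not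
    | apply Df.imp

theorem Df.pSq {z h k y : (ℕ → HD) → HD} (hz : Tm z) (hh : Tm h) (hk : Tm k) (hy : Tm y) :
    Df (fun v => Adm.Sq (z v) (h v) (k v) (y v)) := by
  unfold Adm.Sq
  repeat' first
    | assumption
    | exact Tm.var _
    | exact Tm.zero
    | exact Tm.one
    | apply Tm.add
    | apply Tm.sub
    | apply Tm.mul
    | (refine Tm.lift ?_ _; assumption)
    | apply Df.pPr
    | apply Df.pSm
    | apply Df.pEx
    | apply Df.pCn
    | apply Df.pIn
    | apply Df.pCo
    | apply Df.pEv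
    | apply Df.isUnit
    | apply Df.dvd
    | apply Df.irr
    | apply Df.eq
    | apply Df.and
    | apply Df.or
    | apply Df.iff
    | apply Df.ex
    | apply Df.all
    | apply Df.not
    | apply Df.imp

theorem Df.pNt {z n : (ℕ → HD) → HD} (hz : Tm z) (hn : Tm n) :
    Df (fun v => Adm.Nt (z v) (n v)) := by
  unfold Adm.Nt
  repeat' first
    | assumption
    | exact Tm.var _
    | exact Tm.zero
    | exact Tm.one
    | apply Tm.add
    | apply Tm.sub
    | apply Tm.mul
    | (refine Tm.lift ?_ _; assumption)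
    | apply Df.pPr
    | apply Df.pSm
    | apply Df.pEx
    | apply Df.pCn
    | apply Df.pIn
    | apply Df.pCo
    | apply Df.pEv
    | apply Df.pSq
    | apply Df.isUnit
    | apply Df.dvd
    | apply Df.irr
    | apply Df.eq
    | apply Df.and
    | apply Df.or
    | apply Df.iff
    | apply Df.ex
    | apply Df.all
    | apply Df.not
    | apply Df.imp

theorem Df.pPw {z x n y : (ℕ → HD) → HD} (hz : Tm z) (hx : Tm x) (hn : Tm n) (hy : Tm y) :
    Df (fun v => Adm.Pw (z v) (x v) (n v) (y v)) := by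
  unfold Adm.Pw
  repeat' first
    | assumption
    | exact Tm.var _
    | exact Tm.zero
    | exact Tm.one
    | apply Tm.add
    | apply Tm.sub
    | apply Tm.mul
    | (refine Tm.lift ?_ _; assumption)
    | apply Df.pPr
    | apply Df.pSm
    | apply Df.pEx
    | apply Df.pCn
    | apply Df.pIn
    | apply Df.pCo
    | apply Df.pEv
    | apply Df.pSq
    | apply Df.pNt
    | apply Df.isUnit
    | apply Df.dvd
    | apply Df.irr
    | apply Df.eq
    | apply Df.and
    | apply Df.or
    | apply Df.iff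
    | apply Df.ex
    | apply Df.all
    | apply Df.not
    | apply Df.imp

theorem Df.pLt {z x y : (ℕ → HD) → HD} (hz : Tm z) (hx : Tm x) (hy : Tm y) :
    Df (fun v => Adm.Lt (z v) (x v) (y v)) := by
  unfold Adm.Lt
  repeat' first
    | assumption
    | exact Tm.var _
    | exact Tm.zero
    | exact Tm.one
    | apply Tm.add
    | apply Tm.sub
    | apply Tm.mul
    | (refine Tm.lift ?_ _; assumption)
    | apply Df.pPr
    | apply Df.pSm
    | apply Df.pEx
    | apply Df.pCn
    | apply Df.pIn
    | apply Df.pCo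
    | apply Df.pEv
    | apply Df.pSq
    | apply Df.pNt
    | apply Df.pPw
    | apply Df.isUnit
    | apply Df.dvd
    | apply Df.irr
    | apply Df.eq
    | apply Df.and
    | apply Df.or
    | apply Df.iff
    | apply Df.ex
    | apply Df.all
    | apply Df.not
    | apply Df.imp

theorem Df.pPrim {z w N : (ℕ → HD) → HD} (hz : Tm z) (hw : Tm w) (hN : Tm N) :
    Df (fun v => Adm.Prim (z v) (w v) (N v)) := by
  unfold Adm.Prim
  repeat' first
    | assumption
    | exact Tm.var _
    | exact Tm.zero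
    | exact Tm.one
    | apply Tm.add
    | apply Tm.sub
    | apply Tm.mul
    | (refine Tm.lift ?_ _; assumption)
    | apply Df.pPr
    | apply Df.pSm
    | apply Df.pEx
    | apply Df.pCn
    | apply Df.pIn
    | apply Df.pCo
    | apply Df.pEv
    | apply Df.pSq
    | apply Df.pNt
    | apply Df.pPw
    | apply Df.pLt
    | apply Df.isUnit
    | apply Df.dvd
    | apply Df.irr
    | apply Df.eq
    | apply Df.and
    | apply Df.or
    | apply Df.iff
    | apply Df.ex
    | apply Df.all
    | apply Df.not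
    | apply Df.imp

theorem Df.pPd {z f x w N s : (ℕ → HD) → HD} (hz : Tm z) (hf : Tm f) (hx : Tm x) (hw : Tm w) (hN : Tm N) (hs : Tm s) :
    Df (fun v => Adm.Pd (z v) (f v) (x v) (w v) (N v) (s v)) := by
  unfold Adm.Pd
  repeat' first
    | assumption
    | exact Tm.var _
    | exact Tm.zero
    | exact Tm.one
    | apply Tm.add
    | apply Tm.sub
    | apply Tm.mul
    | (refine Tm.lift ?_ _; assumption)
    | apply Df.pPr
    | apply Df.pSm
    | apply Df.pEx
    | apply Df.pCn
    | apply Df.pIn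
    | apply Df.pCo
    | apply Df.pEv
    | apply Df.pSq
    | apply Df.pNt
    | apply Df.pPw
    | apply Df.pLt
    | apply Df.pPrim
    | apply Df.isUnit
    | apply Df.dvd
    | apply Df.irr
    | apply Df.eq
    | apply Df.and
    | apply Df.or
    | apply Df.iff
    | apply Df.ex
    | apply Df.all
    | apply Df.not
    | apply Df.imp

theorem Df.pNB {z f : (ℕ → HD) → HD} (hz : Tm z) (hf : Tm f) :
    Df (fun v => Adm.NB (z v) (f v)) := by
  unfold Adm.NB
  repeat' first
    | assumption
    | exact Tm.var _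
    | exact Tm.zero
    | exact Tm.one
    | apply Tm.add
    | apply Tm.sub
    | apply Tm.mul
    | (refine Tm.lift ?_ _; assumption)
    | apply Df.pPr
    | apply Df.pSm
    | apply Df.pEx
    | apply Df.pCn
    | apply Df.pIn
    | apply Df.pCo
    | apply Df.pEv
    | apply Df.pSq
    | apply Df.pNt
    | apply Df.pPw
    | apply Df.pLt
    | apply Df.pPrim
    | apply Df.pPd
    | apply Df.isUnit
    | apply Df.dvd
    | apply Df.irr
    | apply Df.eq
    | apply Df.and
    | apply Df.or
    | apply Df.iff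
    | apply Df.ex
    | apply Df.all
    | apply Df.not
    | apply Df.imp

theorem Df.pNA {f : (ℕ → HD) → HD} (hf : Tm f) :
    Df (fun v => Adm.NA (f v)) := by
  unfold Adm.NA
  repeat' first
    | assumption
    | exact Tm.var _
    | exact Tm.zero
    | exact Tm.one
    | apply Tm.add
    | apply Tm.sub
    | apply Tm.mul
    | (refine Tm.lift ?_ _; assumption)
    | apply Df.pPr
    | apply Df.pSm
    | apply Df.pEx
    | apply Df.pCn
    | apply Df.pIn
    | apply Df.pCo
    | apply Df.pEv
    | apply Df.pSq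
    | apply Df.pNt
    | apply Df.pPw
    | apply Df.pLt
    | apply Df.pPrim
    | apply Df.pPd
    | apply Df.pNB
    | apply Df.isUnit
    | apply Df.dvd
    | apply Df.irr
    | apply Df.eq
    | apply Df.and
    | apply Df.or
    | apply Df.iff
    | apply Df.ex
    | apply Df.all
    | apply Df.not
    | apply Df.imp

/-- Admissibility is first-order. -/
theorem exists_formula : ∃ φ : FirstOrder.Language.ring.Formula (Fin 1), ∀ f : HD,
    @FirstOrder.Language.Formula.Realize FirstOrder.Language.ring HD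
      (FirstOrder.Ring.compatibleRingOfRing HD).toStructure (Fin 1) φ (fun _ => f) ↔ ¬ NA f := by
  obtain ⟨φ, hφ⟩ := (Df.pNA (Tm.var 0)).not
  refine ⟨φ.relabel (fun _ => (0 : Fin 1)), fun f => ?_⟩
  rw [Language.Formula.realize_relabel]
  exact hφ (fun _ => f)

end Pool.Agent.TH730.Adm
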