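import Mathlib

/-! # Schottky's theorem -/

set_option autoImplicit false

open Complex Metric Set

namespace Pool.Agent.TH730.Adm

/-- The logarithm of a zero-free function on the unit disc. -/
theorem exists_log {f : ℂ → ℂ} (hf : DifferentiableOn ℂ f (ball 0 1))
    (h0 : ∀ z ∈ ball (0 : ℂ) 1, f z ≠ 0) :
    ∃ g : ℂ → ℂ, DifferentiableOn ℂ g (ball 0 1) ∧ g 0 = Complex.log (f 0) ∧
      ∀ z ∈ ball (0 : ℂ) 1, Complex.exp (g z) = f z := by
  have hd : DifferentiableOn ℂ (fun z => deriv f z / f z) (ball 0 1) :=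
    (hf.deriv isOpen_ball).div hf h0
  obtain ⟨g, hg0, hg⟩ := hd.isExactOn_ball.with_val_at 0 (Complex.log (f 0))
  refine ⟨g, fun z hz => (hg z hz).differentiableAt.differentiableWithinAt, hg0, ?_⟩
  have h00 : (0 : ℂ) ∈ ball (0 : ℂ) 1 := mem_ball_self one_pos
  have hder : ∀ z ∈ ball (0 : ℂ) 1, HasDerivAt (fun z => f z * Complex.exp (-g z)) 0 z := by
    intro z hz
    have h1 : HasDerivAt f (deriv f z) z :=
      (hf.differentiableAt (isOpen_ball.mem_nhds hz)).hasDerivAt
    have h2 : HasDerivAt (fun z => f z * Complex.exp (-g z)) (deriv f z * Complex.exp (-g z) +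
        f z * (Complex.exp (-g z) * -(deriv f z / f z))) z := h1.mul ((hg z hz).neg.cexp)
    have h3 : deriv f z * Complex.exp (-g z) +
        f z * (Complex.exp (-g z) * -(deriv f z / f z)) = 0 := by
      have h4 := h0 z hz
      field_simp
      ring
    rwa [h3] at h2
  have hconst : ∀ z ∈ ball (0 : ℂ) 1, f z * Complex.exp (-g z) = 1 := by
    intro z hz
    have h1 := (convex_ball (0 : ℂ) 1).is_const_of_fderivWithin_eq_zero (𝕜 := ℂ)
      (f := fun z => f z * Complex.exp (-g z))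
      (fun z hz => (hder z hz).differentiableAt.differentiableWithinAt)
      (fun z hz => by
        rw [fderivWithin_of_isOpen isOpen_ball hz]
        ext
        simp [(hder z hz).hasFDerivAt.fderiv]) hz h00
    rw [h1, hg0, Complex.exp_neg, Complex.exp_log (h0 0 h00), mul_inv_cancel₀ (h0 0 h00)]
  intro z hz
  have h1 := hconst z hz
  rw [Complex.exp_neg] at h1
  have h2 := Complex.exp_ne_zero (g z)
  field_simp at h1
  exact h1.symm

/-- A function on the disc omitting `1` and `-1` is `cos (π F)` with `F 0` under control. -/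
theorem exists_arccos {f : ℂ → ℂ} (hf : DifferentiableOn ℂ f (ball 0 1))
    (h1 : ∀ z ∈ ball (0 : ℂ) 1, f z ≠ 1) (h2 : ∀ z ∈ ball (0 : ℂ) 1, f z ≠ -1) :
    ∃ F : ℂ → ℂ, DifferentiableOn ℂ F (ball 0 1) ∧ ‖F 0‖ ≤ 2 * ‖f 0‖ + 2 ∧
      ∀ z ∈ ball (0 : ℂ) 1, Complex.cos (Real.pi * F z) = f z := by
  have hne : ∀ z ∈ ball (0 : ℂ) 1, 1 - f z ^ 2 ≠ 0 := by
    intro z hz h
    have : (f z - 1) * (f z + 1) = 0 := by linear_combination -h
    rcases mul_eq_zero.1 this with h3 | h3
    · exact h1 z hz (sub_eq_zero.1 h3)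
    · exact h2 z hz (eq_neg_of_add_eq_zero_left h3)
  obtain ⟨l, hl, -, hle⟩ := exists_log (f := fun z => 1 - f z ^ 2)
    ((differentiableOn_const _).sub (hf.pow 2)) hne
  let g : ℂ → ℂ := fun z => Complex.exp (l z / 2)
  have hg : DifferentiableOn ℂ g (ball 0 1) := (hl.div_const 2).cexp
  have hg2 : ∀ z ∈ ball (0 : ℂ) 1, g z ^ 2 = 1 - f z ^ 2 := by
    intro z hz
    rw [← hle z hz]
    simp only [g]
    rw [← Complex.exp_nat_mul]
    congr 1
    push_cast
    ring
  have hprod : ∀ z ∈ ball (0 : ℂ) 1, (f z + I * g z) * (f z - I * g z) = 1 := by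
    intro z hz
    have h3 := hg2 z hz
    have h4 : I ^ 2 = -1 := I_sq
    linear_combination h3 - g z ^ 2 * h4
  have hne' : ∀ z ∈ ball (0 : ℂ) 1, f z + I * g z ≠ 0 := by
    intro z hz h
    have := hprod z hz
    rw [h, zero_mul] at this
    exact zero_ne_one this
  obtain ⟨L, hL, hL0, hLe⟩ := exists_log (f := fun z => f z + I * g z)
    (hf.add ((differentiableOn_const _).mul hg)) hne'
  have hpi : (Real.pi : ℂ) ≠ 0 := by exact_mod_cast Real.pi_ne_zero
  refine ⟨fun z => L z / (I * Real.pi), hL.div_const _, ?_, ?_⟩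
  · -- the bound at `0`
    have h00 : (0 : ℂ) ∈ ball (0 : ℂ) 1 := mem_ball_self one_pos
    set a : ℂ := f 0 + I * g 0 with ha
    set b : ℂ := f 0 - I * g 0 with hb
    have hab : a * b = 1 := hprod 0 h00
    have hg0 : ‖g 0‖ ≤ 1 + ‖f 0‖ := by
      have h3 : ‖g 0‖ ^ 2 ≤ (1 + ‖f 0‖) ^ 2 := by
        rw [← norm_pow, hg2 0 h00]
        calc ‖1 - f 0 ^ 2‖ ≤ ‖(1 : ℂ)‖ + ‖f 0 ^ 2‖ := norm_sub_le _ _
          _ = 1 + ‖f 0‖ ^ 2 := by rw [norm_one, norm_pow]
          _ ≤ (1 + ‖f 0‖) ^ 2 := by nlinarith [norm_nonneg (f 0)]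
      exact le_of_sq_le_sq h3 (by positivity)
    have hna : ‖a‖ ≤ 2 * ‖f 0‖ + 1 := by
      calc ‖a‖ ≤ ‖f 0‖ + ‖I * g 0‖ := norm_add_le _ _
        _ = ‖f 0‖ + ‖g 0‖ := by rw [norm_mul, norm_I, one_mul]
        _ ≤ _ := by linarith
    have hnb : ‖b‖ ≤ 2 * ‖f 0‖ + 1 := by
      calc ‖b‖ ≤ ‖f 0‖ + ‖I * g 0‖ := norm_sub_le _ _
        _ = ‖f 0‖ + ‖g 0‖ := by rw [norm_mul, norm_I, one_mul]
        _ ≤ _ := by linarith
    have hnab : ‖a‖ * ‖b‖ = 1 := by rw [← norm_mul, hab, norm_one]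
    have ha0 : 0 < ‖a‖ := by
      rcases (norm_nonneg a).lt_or_eq with h | h
      · exact h
      · rw [← h, zero_mul] at hnab; norm_num at hnab
    have hlog : |Real.log ‖a‖| ≤ 2 * ‖f 0‖ := by
      rw [abs_le]
      constructor
      · have h3 : Real.log ‖a‖ = - Real.log ‖b‖ := by
          have h5 : ‖b‖ = ‖a‖⁻¹ := eq_inv_of_mul_eq_one_right hnab
          rw [h5, Real.log_inv, neg_neg]
        have hb0 : 0 < ‖b‖ := by
          rcases (norm_nonneg b).lt_or_eq with h | h
          · exact h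
          · rw [← h, mul_zero] at hnab; norm_num at hnab
        have h4 := Real.log_le_sub_one_of_pos hb0
        linarith
      · have h4 := Real.log_le_sub_one_of_pos ha0
        linarith
    have h3 : ‖L 0‖ ≤ 2 * ‖f 0‖ + Real.pi := by
      rw [hL0]
      calc ‖Complex.log a‖ ≤ |(Complex.log a).re| + |(Complex.log a).im| :=
            Complex.norm_le_abs_re_add_abs_im _
        _ ≤ 2 * ‖f 0‖ + Real.pi := by
            rw [Complex.log_re, Complex.log_im]
            exact add_le_add hlog (Complex.abs_arg_le_pi _)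
    rw [norm_div, norm_mul, norm_I, one_mul, Complex.norm_real, Real.norm_of_nonneg Real.pi_pos.le]
    rw [div_le_iff₀ Real.pi_pos]
    have h5 : 1 ≤ Real.pi := by linarith [Real.pi_gt_three]
    nlinarith [norm_nonneg (f 0)]
  · intro z hz
    have h3 : (Real.pi : ℂ) * (L z / (I * Real.pi)) = -(I * L z) := by
      field_simp
      rw [I_sq]
      ring
    rw [h3, Complex.cos_neg, Complex.cos]
    have h4 : I * L z * I = - L z := by
      have : I * L z * I = I ^ 2 * L z := by ring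
      rw [this, I_sq]; ring
    have h5 : -(I * L z) * I = L z := by rw [neg_mul, h4, neg_neg]
    rw [h4, h5, Complex.exp_neg, hLe z hz]
    have h6 : (f z + I * g z)⁻¹ = f z - I * g z := by
      rw [inv_eq_iff_eq_inv]
      exact eq_inv_of_mul_eq_one_left (hprod z hz)
    rw [h6]
    ring

theorem exists_cosh_nat (y : ℝ) : ∃ y' : ℝ, |y - y'| < 3 / 4 ∧ ∃ n : ℕ,
    Real.cosh (Real.pi * y') = n := by
  wlog hy : 0 ≤ y with H
  · obtain ⟨y', h1, n, h2⟩ := H (-y) (by linarith)
    refine ⟨-y', ?_, n, ?_⟩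
    · rw [← abs_neg]
      convert h1 using 2
      ring
    · rw [mul_neg, Real.cosh_neg, h2]
  · set c := Real.cosh (Real.pi * y) with hc
    have hc1 : 1 ≤ c := Real.one_le_cosh _
    have hn : ((⌊c⌋₊ : ℕ) : ℝ) ≤ c := Nat.floor_le (by linarith)
    have hn1 : (1 : ℝ) ≤ (⌊c⌋₊ : ℕ) := by
      have : 1 ≤ ⌊c⌋₊ := Nat.le_floor (by simpa using hc1)
      exact_mod_cast this
    have hlt : c < (⌊c⌋₊ : ℕ) + 1 := Nat.lt_floor_add_one c
    have hcont : ContinuousOn (fun t : ℝ => Real.cosh (Real.pi * t)) (Icc 0 y) := by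
      fun_prop
    obtain ⟨y0, ⟨hy0, hy0y⟩, hy0'⟩ := intermediate_value_Icc hy hcont
      (show ((⌊c⌋₊ : ℕ) : ℝ) ∈ Icc (Real.cosh (Real.pi * 0)) (Real.cosh (Real.pi * y)) by
        constructor
        · simpa using hn1
        · exact hn)
    refine ⟨y0, ?_, _, hy0'⟩
    rw [abs_lt]
    refine ⟨by linarith, ?_⟩
    by_contra hcon
    push Not at hcon
    have hpi := Real.pi_gt_three
    have h1 : Real.cosh (Real.pi * y0 + 2) ≤ c := by
      rw [hc, Real.cosh_le_cosh, abs_of_nonneg (by positivity), abs_of_nonneg (by positivity)]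
      nlinarith
    rw [Real.cosh_add] at h1
    have h2 : (2 : ℝ) ≤ Real.cosh 2 := by
      have h3 := Real.quadratic_le_exp_of_nonneg (x := 2) (by norm_num)
      rw [Real.cosh_eq]
      have h4 := Real.exp_pos (-2)
      linarith
    have h3 : 0 ≤ Real.sinh (Real.pi * y0) * Real.sinh 2 :=
      mul_nonneg (Real.sinh_nonneg_iff.2 (by positivity)) (Real.sinh_nonneg_iff.2 (by norm_num))
    have h4 : Real.cosh (Real.pi * y0) = (⌊c⌋₊ : ℕ) := hy0'
    rw [h4] at h1
    nlinarith

/-- Every ball of radius one contains a point `m + i y` with `m` an integer and `cosh (π y)` a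
positive integer. -/
theorem net (w : ℂ) : ∃ p ∈ ball w 1, ∃ (m : ℤ) (y : ℝ) (n : ℕ), p = m + y * I ∧
    Real.cosh (Real.pi * y) = n := by
  obtain ⟨y, hy, n, hn⟩ := exists_cosh_nat w.im
  refine ⟨(round w.re : ℤ) + y * I, ?_, round w.re, y, n, rfl, hn⟩
  rw [mem_ball, dist_eq_norm]
  have h1 := abs_sub_round w.re
  have hre : ((round w.re : ℤ) + y * I - w : ℂ).re = round w.re - w.re := by simp
  have him : ((round w.re : ℤ) + y * I - w : ℂ).im = y - w.im := by simp
  have h2 : ‖((round w.re : ℤ) + y * I - w : ℂ)‖ ^ 2 < 1 ^ 2 := by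
    rw [Complex.sq_norm, Complex.normSq_apply, hre, him]
    rw [abs_le] at h1
    rw [abs_lt] at hy
    nlinarith
  exact lt_of_pow_lt_pow_left₀ 2 (by norm_num) h2

/-- `cos (π k) = ± 1` for integers `k`. -/
theorem cos_int (k : ℤ) : Complex.cos (Real.pi * k) = 1 ∨ Complex.cos (Real.pi * k) = -1 := by
  have h := Complex.sin_int_mul_pi k
  have h1 := Complex.sin_sq_add_cos_sq ((k : ℂ) * Real.pi)
  rw [h] at h1
  have h2 : (Complex.cos ((k : ℂ) * Real.pi) - 1) * (Complex.cos ((k : ℂ) * Real.pi) + 1) = 0 := by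
    linear_combination h1
  rw [mul_comm (Real.pi : ℂ)]
  rcases mul_eq_zero.1 h2 with h3 | h3
  · left; exact sub_eq_zero.1 h3
  · right; exact eq_neg_of_add_eq_zero_left h3

/-- `cos (π p)` is an integer at the points of the net. -/
theorem cos_net (m : ℤ) (y : ℝ) (n : ℕ) (h : Real.cosh (Real.pi * y) = n) :
    ∃ k : ℤ, Complex.cos (Real.pi * (m + y * I)) = k := by
  have h1 : (Real.pi : ℂ) * (m + y * I) = m * Real.pi + (Real.pi * y : ℝ) * I := by
    push_cast; ring
  rw [h1, Complex.cos_add, Complex.sin_int_mul_pi, zero_mul, sub_zero, Complex.cos_mul_I,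
    ← Complex.ofReal_cosh, h, mul_comm (m : ℂ)]
  rcases cos_int m with h2 | h2
  · refine ⟨n, ?_⟩
    rw [h2]; push_cast; ring
  · refine ⟨-n, ?_⟩
    rw [h2]; push_cast; ring

/-- The key estimate behind Bloch's theorem: if `G` is holomorphic in the unit disc and its image
contains no ball of radius one then `‖G' z‖ (1 - ‖z‖) ≤ 64`. -/
theorem bloch {G : ℂ → ℂ} (hG : DifferentiableOn ℂ G (ball 0 1))
    (hno : ∀ w : ℂ, ∃ p ∈ ball w 1, ∀ z ∈ ball (0 : ℂ) 1, G z ≠ p) :
    ∀ z ∈ ball (0 : ℂ) 1, ‖deriv G z‖ * (1 - ‖z‖) ≤ 64 := by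
  have hG' : DifferentiableOn ℂ (deriv G) (ball 0 1) := hG.deriv isOpen_ball
  -- the estimate on smaller balls
  have key : ∀ r : ℝ, 0 < r → r < 1 → ∀ z ∈ closedBall (0 : ℂ) r,
      ‖deriv G z‖ * (r - ‖z‖) ≤ 64 := by
    intro r hr0 hr1
    have hsub : closedBall (0 : ℂ) r ⊆ ball 0 1 := closedBall_subset_ball hr1
    have hcont : ContinuousOn (fun z => ‖deriv G z‖ * (r - ‖z‖)) (closedBall (0 : ℂ) r) :=
      ((hG'.continuousOn.mono hsub).norm).mul (by fun_prop)
    obtain ⟨p, hp, hmax⟩ := (isCompact_closedBall (0 : ℂ) r).exists_isMaxOn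
      ⟨0, mem_closedBall_self hr0.le⟩ hcont
    intro z hz
    refine (hmax hz).trans ?_
    show ‖deriv G p‖ * (r - ‖p‖) ≤ 64
    by_contra hcon
    push Not at hcon
    have hp' : ‖p‖ ≤ r := by simpa using hp
    set ρ : ℝ := (r - ‖p‖) / 2 with hρ
    have hρ0 : 0 < ρ := by
      rcases hp'.lt_or_eq with h | h
      · rw [hρ]; linarith
      · rw [h] at hcon; norm_num at hcon
    set D : ℝ := ‖deriv G p‖ with hD
    have hD0 : 0 < D := by
      rcases (norm_nonneg (deriv G p)).lt_or_eq with h | h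
      · exact h
      · rw [hD, ← h] at hcon; norm_num at hcon
    have hball : ball p ρ ⊆ closedBall (0 : ℂ) r := by
      intro w hw
      rw [mem_closedBall_zero_iff]
      rw [mem_ball, dist_eq_norm] at hw
      have : ‖w‖ ≤ ‖w - p‖ + ‖p‖ := by
        calc ‖w‖ = ‖(w - p) + p‖ := by ring_nf
          _ ≤ _ := norm_add_le _ _
      linarith
    have hbd : ∀ w ∈ ball p ρ, ‖deriv G w‖ ≤ 2 * D := by
      intro w hw
      have h1 := hmax (hball hw)
      simp only [mem_ofPred_eq] at h1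
      rw [mem_ball, dist_eq_norm] at hw
      have : ‖w‖ ≤ ‖w - p‖ + ‖p‖ := by
        calc ‖w‖ = ‖(w - p) + p‖ := by ring_nf
          _ ≤ _ := norm_add_le _ _
      have h2 : ρ ≤ r - ‖w‖ := by linarith
      have h3 : ‖deriv G w‖ * ρ ≤ D * (2 * ρ) := by
        calc ‖deriv G w‖ * ρ ≤ ‖deriv G w‖ * (r - ‖w‖) := by gcongr
          _ ≤ D * (r - ‖p‖) := h1
          _ = D * (2 * ρ) := by rw [hρ]; ring
      have h4 : ‖deriv G w‖ * ρ ≤ (2 * D) * ρ := by linarith
      exact le_of_mul_le_mul_right h4 hρ0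
    have hmaps : MapsTo (deriv G) (ball p ρ) (closedBall (deriv G p) (4 * D)) := by
      intro w hw
      rw [mem_closedBall, dist_eq_norm]
      calc ‖deriv G w - deriv G p‖ ≤ ‖deriv G w‖ + ‖deriv G p‖ := norm_sub_le _ _
        _ ≤ 2 * D + D := add_le_add (hbd w hw) le_rfl
        _ ≤ 4 * D := by linarith
    have hschw : ∀ w ∈ ball p ρ, ‖deriv G w - deriv G p‖ ≤ 4 * D / ρ * ‖w - p‖ := by
      intro w hw
      have := dist_le_div_mul_dist_of_mapsTo_ball (hG'.mono (hball.trans hsub)) hmaps hw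
      rwa [dist_eq_norm, dist_eq_norm] at this
    -- linear approximation
    set s : ℝ := ρ / 8 with hs
    have hs0 : 0 < s := by positivity
    have hsρ : closedBall p s ⊆ ball p ρ := closedBall_subset_ball (by rw [hs]; linarith)
    have hlin : ∀ w ∈ closedBall p s, ‖G w - G p - deriv G p * (w - p)‖ ≤
        (D / 2) * ‖w - p‖ := by
      intro w hw
      have h1 := (convex_closedBall p s).norm_image_sub_le_of_norm_hasDerivWithin_le
        (f := fun w => G w - deriv G p * w) (f' := fun w => deriv G w - deriv G p) (C := D / 2)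
        (x := p) (y := w) (fun x hx => by
          have h2 : DifferentiableAt ℂ G x :=
            hG.differentiableAt (isOpen_ball.mem_nhds (hsub (hball (hsρ hx))))
          have h3 := h2.hasDerivAt.sub ((hasDerivAt_id x).const_mul (deriv G p))
          rw [mul_one] at h3
          exact h3.hasDerivWithinAt) (fun x hx => by
          refine (hschw x (hsρ hx)).trans ?_
          have h2 : ‖x - p‖ ≤ s := by
            rw [mem_closedBall, dist_eq_norm] at hx
            exact hx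
          calc 4 * D / ρ * ‖x - p‖ ≤ 4 * D / ρ * s := by gcongr
            _ = D / 2 := by rw [hs]; field_simp; norm_num) (mem_closedBall_self hs0.le) hw
      have e : G w - G p - deriv G p * (w - p) =
          (G w - deriv G p * w) - (G p - deriv G p * p) := by ring
      rw [e]
      exact h1
    have hsph : ∀ w ∈ sphere p s, D * s / 2 ≤ ‖G w - G p‖ := by
      intro w hw
      have h1 := hlin w (sphere_subset_closedBall hw)
      have h2 : ‖w - p‖ = s := by
        rw [mem_sphere, dist_eq_norm] at hw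
        exact hw
      rw [h2] at h1
      have h3 : ‖deriv G p * (w - p)‖ = D * s := by rw [norm_mul, h2]
      have h4 : ‖deriv G p * (w - p)‖ ≤ ‖G w - G p‖ + ‖G w - G p - deriv G p * (w - p)‖ := by
        calc ‖deriv G p * (w - p)‖ = ‖(G w - G p) - (G w - G p - deriv G p * (w - p))‖ := by
              congr 1; ring
          _ ≤ _ := norm_sub_le _ _
      linarith
    have hGd : DiffContOnCl ℂ G (ball p s) := by
      have : DifferentiableOn ℂ G (closure (ball p s)) := by
        rw [closure_ball p hs0.ne']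
        exact hG.mono ((hsρ.trans hball).trans hsub)
      exact this.diffContOnCl
    have hpb : p ∈ ball (0 : ℂ) 1 := hsub hp
    have hfreq : ∃ᶠ w in nhds p, G w ≠ G p := by
      intro hev
      have h1 : ∀ᶠ w in nhds p, G w = G p := by
        filter_upwards [hev] with w hw
        exact not_not.1 hw
      have h2 : deriv G p = 0 := by
        have h3 : deriv G p = deriv (fun _ => G p) p := Filter.EventuallyEq.deriv_eq h1
        rw [h3, deriv_const]
      rw [hD, h2, norm_zero] at hD0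
      exact lt_irrefl _ hD0
    have himg := hGd.ball_subset_image_closedBall hs0 hsph hfreq
    obtain ⟨q, hq, hq'⟩ := hno (G p)
    have hbig : 1 ≤ D * s / 2 / 2 := by
      have h1 : D * (r - ‖p‖) = 2 * (D * ρ) := by rw [hρ]; ring
      rw [h1] at hcon
      have h2 : D * s / 2 / 2 = D * ρ / 32 := by rw [hs]; ring
      rw [h2]
      linarith
    obtain ⟨z', hz', hz''⟩ := himg (ball_subset_ball hbig hq)
    exact hq' z' (hsub (hball (hsρ hz'))) hz''
  intro z hz
  rw [mem_ball_zero_iff] at hz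
  refine le_of_forall_pos_le_add fun ε hε => ?_
  set D : ℝ := ‖deriv G z‖
  have hD0 : 0 ≤ D := norm_nonneg _
  obtain ⟨r, hr1, hr2⟩ : ∃ r : ℝ, max ‖z‖ (1 - ε / (D + 1)) < r ∧ r < 1 := by
    apply exists_between
    refine max_lt hz ?_
    have : 0 < ε / (D + 1) := by positivity
    linarith
  have hr3 : ‖z‖ < r := (le_max_left _ _).trans_lt hr1
  have hr4 : 1 - ε / (D + 1) < r := (le_max_right _ _).trans_lt hr1
  have h1 := key r ((norm_nonneg z).trans_lt hr3) hr2 z (by simpa using hr3.le)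
  have h2 : D * (1 - r) ≤ ε := by
    have h3 : D * (1 - r) ≤ D * (ε / (D + 1)) := by
      apply mul_le_mul_of_nonneg_left _ hD0
      linarith
    have h4 : D * (ε / (D + 1)) ≤ ε := by
      rw [mul_div_assoc', div_le_iff₀ (by positivity)]
      nlinarith
    linarith
  have h3 : D * (1 - ‖z‖) = D * (r - ‖z‖) + D * (1 - r) := by ring
  linarith

theorem norm_cos_le (w : ℂ) : ‖Complex.cos w‖ ≤ Real.exp ‖w‖ := by
  rw [Complex.cos, norm_div]
  have h1 : ‖Complex.exp (w * I)‖ ≤ Real.exp ‖w‖ := by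
    have := Complex.norm_exp_le_exp_norm (w * I)
    rwa [norm_mul, norm_I, mul_one] at this
  have h2 : ‖Complex.exp (-w * I)‖ ≤ Real.exp ‖w‖ := by
    have := Complex.norm_exp_le_exp_norm (-w * I)
    rwa [norm_mul, norm_I, mul_one, norm_neg] at this
  have h3 := norm_add_le (Complex.exp (w * I)) (Complex.exp (-w * I))
  have h4 : ‖(2 : ℂ)‖ = 2 := by norm_num
  rw [h4, div_le_iff₀ (by norm_num)]
  linarith

/-- Schottky's theorem. -/
theorem schottky (R : ℝ) : ∃ M : ℝ, ∀ f : ℂ → ℂ, DifferentiableOn ℂ f (ball 0 1) →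
    (∀ z ∈ ball (0 : ℂ) 1, f z ≠ 0) → (∀ z ∈ ball (0 : ℂ) 1, f z ≠ 1) → ‖f 0‖ ≤ R →
    ∀ z ∈ closedBall (0 : ℂ) (1 / 2), ‖f z‖ ≤ M := by
  refine ⟨1 + Real.exp (Real.pi * Real.exp (Real.pi * (8 * R + 74))), ?_⟩
  intro f hf h0 h1 hR z hz
  obtain ⟨F, hF, hF0, hFf⟩ := exists_arccos (f := fun z => 2 * f z - 1)
    (((differentiableOn_const _).mul hf).sub (differentiableOn_const _))
    (fun z hz h => h1 z hz (by linear_combination h / 2))
    (fun z hz h => h0 z hz (by linear_combination h / 2))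
  have hFint : ∀ z ∈ ball (0 : ℂ) 1, ∀ k : ℤ, F z ≠ k := by
    intro z hz k h
    have h2 := hFf z hz
    rw [h] at h2
    rcases cos_int k with h3 | h3
    · rw [h3] at h2
      exact h1 z hz (by linear_combination -h2 / 2)
    · rw [h3] at h2
      exact h0 z hz (by linear_combination -h2 / 2)
  obtain ⟨G, hG, hG0, hGF⟩ := exists_arccos hF
    (fun z hz h => hFint z hz 1 (by rw [h]; norm_num))
    (fun z hz h => hFint z hz (-1) (by rw [h]; norm_num))
  have hno : ∀ w : ℂ, ∃ p ∈ ball w 1, ∀ z ∈ ball (0 : ℂ) 1, G z ≠ p := by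
    intro w
    obtain ⟨p, hp, m, y, n, hpe, hc⟩ := net w
    refine ⟨p, hp, ?_⟩
    intro z hz h
    obtain ⟨k, hk⟩ := cos_net m y n hc
    apply hFint z hz k
    rw [← hGF z hz, h, hpe, hk]
  have hbl := bloch hG hno
  have hz1 : z ∈ ball (0 : ℂ) 1 := closedBall_subset_ball (by norm_num) hz
  have hGz : ‖G z - G 0‖ ≤ 128 * ‖z - 0‖ := by
    refine (convex_closedBall (0 : ℂ) (1 / 2)).norm_image_sub_le_of_norm_deriv_le (C := 128)
      (fun x hx => ?_) (fun x hx => ?_) (mem_closedBall_self (by norm_num)) hz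
    · exact hG.differentiableAt (isOpen_ball.mem_nhds (closedBall_subset_ball (by norm_num) hx))
    · have h2 := hbl x (closedBall_subset_ball (by norm_num) hx)
      have h3 : ‖x‖ ≤ 1 / 2 := by simpa using hx
      have h4 := norm_nonneg (deriv G x)
      nlinarith
  have hf0 : ‖2 * f 0 - 1‖ ≤ 2 * R + 1 := by
    calc ‖2 * f 0 - 1‖ ≤ ‖2 * f 0‖ + ‖(1 : ℂ)‖ := norm_sub_le _ _
      _ = 2 * ‖f 0‖ + 1 := by rw [norm_mul, norm_one]; norm_num
      _ ≤ _ := by linarith
  have hGz' : ‖G z‖ ≤ 8 * R + 74 := by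
    have h2 : ‖z - 0‖ ≤ 1 / 2 := by
      rw [sub_zero]
      simpa using hz
    have h3 : ‖G z‖ ≤ ‖G z - G 0‖ + ‖G 0‖ := by
      calc ‖G z‖ = ‖(G z - G 0) + G 0‖ := by congr 1; ring
        _ ≤ _ := norm_add_le _ _
    linarith
  have hpi := Real.pi_pos
  have hFz : ‖F z‖ ≤ Real.exp (Real.pi * (8 * R + 74)) := by
    rw [← hGF z hz1]
    refine (norm_cos_le _).trans (Real.exp_le_exp.2 ?_)
    rw [norm_mul, Complex.norm_real, Real.norm_of_nonneg hpi.le]
    gcongr
  have hfz : ‖2 * f z - 1‖ ≤ Real.exp (Real.pi * Real.exp (Real.pi * (8 * R + 74))) := by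
    rw [← hFf z hz1]
    refine (norm_cos_le _).trans (Real.exp_le_exp.2 ?_)
    rw [norm_mul, Complex.norm_real, Real.norm_of_nonneg hpi.le]
    gcongr
  have h2 : ‖f z‖ ≤ (‖2 * f z - 1‖ + 1) / 2 := by
    have h3 : ‖2 * f z‖ ≤ ‖2 * f z - 1‖ + ‖(1 : ℂ)‖ := by
      calc ‖2 * f z‖ = ‖(2 * f z - 1) + 1‖ := by congr 1; ring
        _ ≤ _ := norm_add_le _ _
    rw [norm_mul, norm_one] at h3
    have h4 : ‖(2 : ℂ)‖ = 2 := by norm_num
    rw [h4] at h3
    linarith
  have h3 := Real.exp_pos (Real.pi * Real.exp (Real.pi * (8 * R + 74)))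
  linarith

end Pool.Agent.TH730.Adm
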