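import Pool.Agent.TH730.Adm.Mob
import Pool.Agent.TH730.Adm.Schottky

/-! # The constants are definable -/

set_option autoImplicit false

open Complex Metric Set
open scoped ComplexConjugate

namespace Pool.Agent.TH730.Adm

/-- Functions holomorphic in the disc omitting `0` and `1`. -/
def Om (f : ℂ → ℂ) : Prop := DifferentiableOn ℂ f UD ∧ ∀ z ∈ UD, f z ≠ 0 ∧ f z ≠ 1

/-- The values at distance `t` of functions omitting `0` and `1` with value `α`. -/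
def BB (t : ℝ) (α : ℂ) : Set ℂ := {γ | ∃ f, Om f ∧ f 0 = α ∧ f t = γ}

theorem Om.comp {f g : ℂ → ℂ} (hf : Om f) (hg : DifferentiableOn ℂ g UD) (hm : MapsTo g UD UD) :
    Om (f ∘ g) :=
  ⟨hf.1.comp hg hm, fun _ hz => hf.2 _ (hm hz)⟩

theorem Om.congr {f g : ℂ → ℂ} (hf : Om f) (h : ∀ z ∈ UD, g z = f z) : Om g :=
  ⟨hf.1.congr h, fun z hz => by rw [h z hz]; exact hf.2 z hz⟩

theorem mul_mapsTo {u : ℂ} (hu : ‖u‖ ≤ 1) : MapsTo (fun z => u * z) UD UD := by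
  intro z hz
  rw [mem_UD] at hz ⊢
  rw [norm_mul]
  nlinarith [norm_nonneg u, norm_nonneg z]

theorem Om.scale {f : ℂ → ℂ} (hf : Om f) {u : ℂ} (hu : ‖u‖ ≤ 1) : Om (fun z => f (u * z)) :=
  hf.comp (g := fun z => u * z) (by fun_prop) (mul_mapsTo hu)

theorem exists_unit (w : ℂ) : ∃ u : ℂ, ‖u‖ = 1 ∧ w = u * ‖w‖ := by
  by_cases h : w = 0
  · exact ⟨1, norm_one, by rw [h]; simp⟩
  · have h1 : (‖w‖ : ℂ) ≠ 0 := by exact_mod_cast norm_ne_zero_iff.2 h
    refine ⟨w / ‖w‖, ?_, by field_simp⟩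
    rw [norm_div, Complex.norm_real, norm_norm, div_self (norm_ne_zero_iff.2 h)]

/-- The relation between the values at two points depends only on their distance. -/
theorem pr_iff {a c α γ : ℂ} (ha : a ∈ UD) (hc : c ∈ UD) :
    (∃ f, Om f ∧ f a = α ∧ f c = γ) ↔ γ ∈ BB (ph a c) α := by
  obtain ⟨u, hu, huw⟩ := exists_unit (mob (-a) c)
  have hu0 : u ≠ 0 := by
    intro h; rw [h, norm_zero] at hu; exact zero_ne_one hu
  constructor
  · rintro ⟨f, hf, h1, h2⟩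
    refine ⟨fun z => (f ∘ mob a) (u * z), (hf.comp (mob_diff ha) (mob_mapsTo ha)).scale hu.le,
      ?_, ?_⟩
    · simp only [mul_zero, Function.comp_apply, mob_zero, h1]
    · have h3 : u * (ph a c : ℂ) = mob (-a) c := huw.symm
      simp only [h3, Function.comp_apply, mob_mob_neg ha hc, h2]
  · rintro ⟨f, hf, h1, h2⟩
    have hu' : ‖u⁻¹‖ ≤ 1 := by rw [norm_inv, hu, inv_one]
    refine ⟨fun z => (fun z => f (u⁻¹ * z)) (mob (-a) z),
      (hf.scale hu').comp (mob_diff (neg_mem_UD ha)) (mob_mapsTo (neg_mem_UD ha)), ?_, ?_⟩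
    · have h3 : mob (-a) a = 0 := by simp [mob]
      simp only [h3, mul_zero, h1]
    · simp only
      rw [huw, ← mul_assoc, inv_mul_cancel₀ hu0, one_mul]
      exact h2

theorem BB_mono {s t : ℝ} (hs : 0 ≤ s) (hst : s ≤ t) {α : ℂ} : BB s α ⊆ BB t α := by
  rintro γ ⟨f, hf, h1, h2⟩
  rcases hst.eq_or_lt with h | h
  · subst h; exact ⟨f, hf, h1, h2⟩
  · have ht : 0 < t := hs.trans_lt h
    refine ⟨fun z => f (((s / t : ℝ) : ℂ) * z), hf.scale ?_, by simp [h1], ?_⟩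
    · rw [Complex.norm_real, Real.norm_of_nonneg (by positivity), div_le_one ht]
      exact hst
    · have : ((s / t : ℝ) : ℂ) * t = s := by
        have ht' : (t : ℂ) ≠ 0 := by exact_mod_cast ht.ne'
        push_cast
        field_simp
      simp only [this, h2]

theorem BB_of_norm {f : ℂ → ℂ} (hf : Om f) {z : ℂ} : f z ∈ BB ‖z‖ (f 0) := by
  obtain ⟨u, hu, huz⟩ := exists_unit z
  refine ⟨fun w => f (u * w), hf.scale hu.le, by simp, ?_⟩
  simp only [← huz]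

theorem Om_affine {α r : ℝ} (hr : 0 < r) (h : r + 1 ≤ α) : Om (fun z => (α : ℂ) + r * z) := by
  refine ⟨by fun_prop, ?_⟩
  intro z hz
  rw [mem_UD] at hz
  have h2 : |(r * z : ℂ).re| ≤ ‖(r * z : ℂ)‖ := Complex.abs_re_le_norm _
  rw [norm_mul, Complex.norm_real, Real.norm_of_nonneg hr.le] at h2
  have h3 := (abs_le.1 h2).1
  have h4 : 1 < ((α : ℂ) + r * z).re := by
    rw [Complex.add_re, Complex.ofReal_re]
    nlinarith
  constructor
  · intro h5
    simp only at h5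
    rw [h5, Complex.zero_re] at h4
    linarith
  · intro h5
    simp only at h5
    rw [h5, Complex.one_re] at h4
    linarith

/-- The Schottky bound, in a convenient form. -/
theorem schottky' (R : ℝ) : ∃ M : ℝ, 0 < M ∧ ∀ f : ℂ → ℂ, Om f → ‖f 0‖ ≤ R →
    ∀ z ∈ ball (0 : ℂ) (1 / 2), ‖f z - f 0‖ ≤ M := by
  obtain ⟨M, hM⟩ := schottky R
  refine ⟨|M| + |R| + 1, by positivity, ?_⟩
  intro f hf hR z hz
  have h1 := hM f hf.1 (fun z hz => (hf.2 z hz).1) (fun z hz => (hf.2 z hz).2) hR z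
    (ball_subset_closedBall hz)
  calc ‖f z - f 0‖ ≤ ‖f z‖ + ‖f 0‖ := norm_sub_le _ _
    _ ≤ _ := by linarith [le_abs_self M, le_abs_self R]

/-- Distances are determined by the reachable values from `2`. -/
theorem BB_strict {s t : ℝ} (hs : 0 ≤ s) (hst : s < t) (ht : t < 1 / 2) : BB s 2 ≠ BB t 2 := by
  intro heq
  obtain ⟨M, hM0, hM⟩ := schottky' 2
  have ht0 : 0 < t := hs.trans_lt hst
  let S : Set ℝ := (fun γ : ℂ => ‖γ - 2‖) '' BB t 2
  have hbd : BddAbove S := by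
    refine ⟨M, ?_⟩
    rintro _ ⟨γ, ⟨f, hf, h1, h2⟩, rfl⟩
    have h3 := hM f hf (by rw [h1]; norm_num) t (by
      rw [mem_ball_zero_iff, Complex.norm_real, Real.norm_of_nonneg ht0.le]
      exact ht)
    rw [h1, h2] at h3
    exact h3
  set R : ℝ := sSup S with hR
  have hmem : ∀ γ ∈ BB t 2, ‖γ - 2‖ ≤ R := fun γ hγ => le_csSup hbd ⟨γ, hγ, rfl⟩
  have hRpos : 0 < R := by
    have h1 : ((2 : ℂ) + t) ∈ BB t 2 := by
      refine ⟨fun z => ((2 : ℝ) : ℂ) + (1 : ℝ) * z, Om_affine one_pos (by norm_num), by simp,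
        by simp⟩
    have h2 := hmem _ h1
    have h3 : ‖((2 : ℂ) + t) - 2‖ = t := by
      rw [add_sub_cancel_left, Complex.norm_real, Real.norm_of_nonneg ht0.le]
    linarith
  -- the Schwarz lemma
  have hsch : ∀ γ ∈ BB t 2, ‖γ - 2‖ ≤ R * (s / t) := by
    intro γ hγ
    rw [← heq] at hγ
    obtain ⟨f, hf, h1, h2⟩ := hγ
    have hmaps : MapsTo f (ball (0 : ℂ) t) (closedBall (f 0) R) := by
      intro z hz
      rw [mem_ball_zero_iff] at hz
      rw [mem_closedBall, dist_eq_norm, h1]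
      apply hmem
      have h3 := BB_of_norm hf (z := z)
      rw [h1] at h3
      exact BB_mono (norm_nonneg z) hz.le h3
    have hsub : ball (0 : ℂ) t ⊆ UD := ball_subset_ball (by linarith)
    have hs' : (s : ℂ) ∈ ball (0 : ℂ) t := by
      rw [mem_ball_zero_iff, Complex.norm_real, Real.norm_of_nonneg hs]
      exact hst
    have h3 := dist_le_div_mul_dist_of_mapsTo_ball (hf.1.mono hsub) hmaps hs'
    rw [dist_eq_norm, dist_eq_norm, h1, h2, sub_zero, Complex.norm_real,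
      Real.norm_of_nonneg hs] at h3
    calc ‖γ - 2‖ ≤ R / t * s := h3
      _ = R * (s / t) := by ring
  have h1 : R ≤ R * (s / t) := by
    apply csSup_le
    · exact ⟨_, _, ⟨fun z => ((2 : ℝ) : ℂ) + (1 : ℝ) * z, Om_affine one_pos (by norm_num),
        by simp, rfl⟩, rfl⟩
    · rintro _ ⟨γ, hγ, rfl⟩
      exact hsch γ hγ
  have h2 : s / t < 1 := (div_lt_one ht0).2 hst
  nlinarith

theorem BB_inj {s t : ℝ} (hs : 0 ≤ s) (ht : 0 ≤ t) (hs' : s < 1 / 2) (ht' : t < 1 / 2)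
    (h : BB s 2 = BB t 2) : s = t := by
  rcases lt_trichotomy s t with h1 | h1 | h1
  · exact (BB_strict hs h1 ht' h).elim
  · exact h1
  · exact (BB_strict ht h1 hs' h.symm).elim

/-- If `5` is not reachable from `4` the distance is less than `1/2`. -/
theorem small_of {t : ℝ} (h : (5 : ℂ) ∉ BB t 4) : t < 1 / 2 := by
  by_contra hcon
  push Not at hcon
  apply h
  have ht0 : 0 < t := by linarith
  refine ⟨fun z => ((4 : ℝ) : ℂ) + ((1 / t : ℝ) : ℂ) * z, Om_affine (by positivity) ?_, by simp, ?_⟩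
  · have : 1 / t ≤ 2 := by
      rw [div_le_iff₀ ht0]; linarith
    linarith
  · have ht' : (t : ℂ) ≠ 0 := by exact_mod_cast ht0.ne'
    push_cast
    field_simp
    norm_num

/-- For small distances `5` is not reachable from `4`. -/
theorem exists_small : ∃ t0 : ℝ, 0 < t0 ∧ ∀ t : ℝ, 0 ≤ t → t < t0 → (5 : ℂ) ∉ BB t 4 := by
  obtain ⟨M, hM0, hM⟩ := schottky' 4
  refine ⟨min (1 / 2) (1 / (2 * M)), by positivity, ?_⟩
  rintro t ht0 ht ⟨f, hf, h1, h2⟩
  have ht1 : t < 1 / 2 := ht.trans_le (min_le_left _ _)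
  have ht2 : t < 1 / (2 * M) := ht.trans_le (min_le_right _ _)
  have hmaps : MapsTo f (ball (0 : ℂ) (1 / 2)) (closedBall (f 0) M) := by
    intro z hz
    rw [mem_closedBall, dist_eq_norm]
    exact hM f hf (by rw [h1]; norm_num) z hz
  have hsub : ball (0 : ℂ) (1 / 2) ⊆ UD := ball_subset_ball (by norm_num)
  have ht' : (t : ℂ) ∈ ball (0 : ℂ) (1 / 2) := by
    rw [mem_ball_zero_iff, Complex.norm_real, Real.norm_of_nonneg ht0]
    exact ht1
  have h3 := dist_le_div_mul_dist_of_mapsTo_ball (hf.1.mono hsub) hmaps ht'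
  rw [dist_eq_norm, dist_eq_norm, h1, h2, sub_zero, Complex.norm_real,
    Real.norm_of_nonneg ht0] at h3
  have h4 : ‖(5 : ℂ) - 4‖ = 1 := by norm_num
  rw [h4] at h3
  rw [lt_div_iff₀ (by positivity)] at ht2
  have h5 : M / (1 / 2) * t = t * (2 * M) := by ring
  linarith

/-- The second order estimate. -/
theorem second_order (R : ℝ) : ∃ C : ℝ, 0 < C ∧ ∀ f : ℂ → ℂ, Om f → ‖f 0‖ ≤ R →
    ‖deriv f 0‖ ≤ C ∧ ∀ t : ℝ, 0 ≤ t → t < 1 / 2 → ‖f t - f 0 - deriv f 0 * t‖ ≤ C * t ^ 2 := by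
  obtain ⟨M, hM0, hM⟩ := schottky' R
  refine ⟨8 * M, by positivity, ?_⟩
  intro f hf hR
  have hsub : ball (0 : ℂ) (1 / 2) ⊆ UD := ball_subset_ball (by norm_num)
  have hmaps : MapsTo f (ball (0 : ℂ) (1 / 2)) (closedBall (f 0) M) := by
    intro z hz
    rw [mem_closedBall, dist_eq_norm]
    exact hM f hf hR z hz
  have hd : ‖deriv f 0‖ ≤ M / (1 / 2) :=
    norm_deriv_le_div_of_mapsTo_ball (hf.1.mono hsub) hmaps (by norm_num)
  have hd' : ‖deriv f 0‖ ≤ 2 * M := by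
    calc _ ≤ _ := hd
      _ = 2 * M := by ring
  refine ⟨by linarith, ?_⟩
  intro t ht0 ht
  let h : ℂ → ℂ := fun z => f z - deriv f 0 * z
  have hh : DifferentiableOn ℂ h (ball 0 (1 / 2)) := by
    have := hf.1.mono hsub
    fun_prop
  have hh0 : h 0 = f 0 := by simp [h]
  have hmaps2 : MapsTo h (ball (0 : ℂ) (1 / 2)) (closedBall (h 0) (2 * M)) := by
    intro z hz
    rw [mem_closedBall, dist_eq_norm, hh0]
    have h1 := hM f hf hR z hz
    rw [mem_ball_zero_iff] at hz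
    calc ‖f z - deriv f 0 * z - f 0‖ = ‖(f z - f 0) - deriv f 0 * z‖ := by congr 1; ring
      _ ≤ ‖f z - f 0‖ + ‖deriv f 0 * z‖ := norm_sub_le _ _
      _ ≤ M + 2 * M * (1 / 2) := by
          rw [norm_mul]
          gcongr
      _ = 2 * M := by ring
  have ht' : (t : ℂ) ∈ ball (0 : ℂ) (1 / 2) := by
    rw [mem_ball_zero_iff, Complex.norm_real, Real.norm_of_nonneg ht0]
    exact ht
  have hlittle : (fun z => h z - h 0) =o[nhds 0] fun z : ℂ => z - 0 := by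
    have h1 : HasDerivAt f (deriv f 0) 0 :=
      (hf.1.differentiableAt (isOpen_UD.mem_nhds zero_mem_UD)).hasDerivAt
    have h2 := h1.isLittleO
    refine (h2.congr' ?_ ?_)
    · refine Filter.Eventually.of_forall fun z => ?_
      simp only [h, smul_eq_mul]
      ring
    · refine Filter.Eventually.of_forall fun z => rfl
  have h3 := dist_le_mul_div_pow_of_mapsTo_ball_of_isLittleO (n := 1) hh hmaps2 (by
    simp only [pow_one]
    exact hlittle.norm_right) ht'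
  rw [dist_eq_norm, dist_eq_norm, hh0, sub_zero, Complex.norm_real, Real.norm_of_nonneg ht0] at h3
  calc ‖f t - f 0 - deriv f 0 * t‖ = ‖h t - f 0‖ := by simp only [h]; congr 1; ring
    _ ≤ _ := h3
    _ = 8 * M * t ^ 2 := by ring

/-- The possible sizes of the derivative. -/
def DD (α : ℂ) : Set ℝ := {x | ∃ f, Om f ∧ f 0 = α ∧ x = ‖deriv f 0‖}

theorem half {R C t : ℝ} (hC : ∀ f : ℂ → ℂ, Om f → ‖f 0‖ ≤ R →
    ‖deriv f 0‖ ≤ C ∧ ∀ t : ℝ, 0 ≤ t → t < 1 / 2 → ‖f t - f 0 - deriv f 0 * t‖ ≤ C * t ^ 2)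
    {α β : ℂ} (hα : ‖α‖ ≤ R) (hβ : ‖β‖ ≤ R) (ht0 : 0 ≤ t) (ht : t < 1 / 2)
    (h : BB t α ⊆ BB t β) {f : ℂ → ℂ} (hf : Om f) (hf0 : f 0 = α) :
    ∃ g, Om g ∧ g 0 = β ∧ ‖α - β‖ + t * ‖deriv f 0‖ ≤ t * ‖deriv g 0‖ + 2 * C * t ^ 2 := by
  obtain ⟨u, hu, hu'⟩ := exists_unit (α - β)
  obtain ⟨v, hv, hv'⟩ := exists_unit (deriv f 0)
  have hv0 : v ≠ 0 := by
    intro h; rw [h, norm_zero] at hv; exact zero_ne_one hv
  -- rotate
  let F : ℂ → ℂ := fun z => f ((u * v⁻¹) * z)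
  have huv : ‖u * v⁻¹‖ = 1 := by rw [norm_mul, norm_inv, hu, hv]; norm_num
  have hF : Om F := hf.scale huv.le
  have hF0 : F 0 = α := by simp [F, hf0]
  have hFd : deriv F 0 = u * ‖deriv f 0‖ := by
    have h1 : HasDerivAt f (deriv f 0) ((u * v⁻¹) * 0) := by
      rw [mul_zero]
      exact (hf.1.differentiableAt (isOpen_UD.mem_nhds zero_mem_UD)).hasDerivAt
    have h2 : HasDerivAt (fun z : ℂ => (u * v⁻¹) * z) (u * v⁻¹) 0 := by
      simpa using (hasDerivAt_id (0 : ℂ)).const_mul (u * v⁻¹)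
    have h3 : HasDerivAt F (deriv f 0 * (u * v⁻¹)) 0 := h1.comp 0 h2
    rw [h3.deriv]
    calc deriv f 0 * (u * v⁻¹) = (v * ‖deriv f 0‖) * (u * v⁻¹) := by rw [← hv']
      _ = u * ‖deriv f 0‖ * (v * v⁻¹) := by ring
      _ = _ := by rw [mul_inv_cancel₀ hv0, mul_one]
  obtain ⟨g, hg, hg0, hgt⟩ := h ⟨F, hF, hF0, rfl⟩
  refine ⟨g, hg, hg0, ?_⟩
  have e1 := (hC F hF (by rw [hF0]; exact hα)).2 t ht0 ht
  have e2 := (hC g hg (by rw [hg0]; exact hβ)).2 t ht0 ht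
  rw [hFd, hF0] at e1
  rw [hg0, hgt] at e2
  have e3 : ‖(α - β) + u * ‖deriv f 0‖ * t‖ = ‖α - β‖ + t * ‖deriv f 0‖ := by
    have h1 : (α - β) + u * ‖deriv f 0‖ * t = u * ((‖α - β‖ + t * ‖deriv f 0‖ : ℝ) : ℂ) := by
      conv_lhs => rw [hu']
      push_cast
      ring
    rw [h1, norm_mul, hu, one_mul, Complex.norm_real, Real.norm_of_nonneg (by positivity)]
  have e4 : ‖deriv g 0 * (t : ℂ)‖ = t * ‖deriv g 0‖ := by
    rw [norm_mul, Complex.norm_real, Real.norm_of_nonneg ht0, mul_comm]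
  have e5 : (α - β) + u * ‖deriv f 0‖ * t =
      (F t - β - deriv g 0 * t) - (F t - α - u * ‖deriv f 0‖ * t) + deriv g 0 * t := by ring
  rw [← e3, e5]
  calc ‖(F t - β - deriv g 0 * t) - (F t - α - u * ‖deriv f 0‖ * t) + deriv g 0 * t‖
      ≤ ‖(F t - β - deriv g 0 * t) - (F t - α - u * ‖deriv f 0‖ * t)‖ + ‖deriv g 0 * t‖ :=
        norm_add_le _ _
    _ ≤ (‖F t - β - deriv g 0 * t‖ + ‖F t - α - u * ‖deriv f 0‖ * t‖) + ‖deriv g 0 * t‖ := by
        gcongr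
        exact norm_sub_le _ _
    _ ≤ _ := by rw [e4]; linarith

/-- The centre of a small reachable set is almost determined. -/
theorem center (R : ℝ) : ∃ C : ℝ, 0 < C ∧ ∀ (α β : ℂ) (t : ℝ), ‖α‖ ≤ R → ‖β‖ ≤ R →
    α ≠ 0 → α ≠ 1 → β ≠ 0 → β ≠ 1 → 0 ≤ t → t < 1 / 2 → BB t α = BB t β →
    ‖α - β‖ ≤ C * t ^ 2 := by
  obtain ⟨C, hC0, hC⟩ := second_order R
  refine ⟨2 * C, by positivity, ?_⟩
  intro α β t hα hβ hα0 hα1 hβ0 hβ1 ht0 ht h
  have hbd : ∀ γ : ℂ, ‖γ‖ ≤ R → BddAbove (DD γ) := by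
    intro γ hγ
    refine ⟨C, ?_⟩
    rintro _ ⟨f, hf, h0, rfl⟩
    exact (hC f hf (by rw [h0]; exact hγ)).1
  have hne : ∀ γ : ℂ, γ ≠ 0 → γ ≠ 1 → (DD γ).Nonempty := by
    intro γ h0 h1
    exact ⟨_, fun _ => γ, ⟨differentiableOn_const _, fun _ _ => ⟨h0, h1⟩⟩, rfl, rfl⟩
  have key : ∀ α β : ℂ, ‖α‖ ≤ R → ‖β‖ ≤ R → α ≠ 0 → α ≠ 1 → BB t α ⊆ BB t β →
      ‖α - β‖ + t * sSup (DD α) ≤ t * sSup (DD β) + 2 * C * t ^ 2 := by
    intro α β hα hβ h0 h1 h
    have h2 : ∀ x ∈ DD α, ‖α - β‖ + t * x ≤ t * sSup (DD β) + 2 * C * t ^ 2 := by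
      rintro _ ⟨f, hf, hf0, rfl⟩
      obtain ⟨g, hg, hg0, hle⟩ := half hC hα hβ ht0 ht h hf hf0
      have h3 : ‖deriv g 0‖ ≤ sSup (DD β) := le_csSup (hbd β hβ) ⟨g, hg, hg0, rfl⟩
      nlinarith
    rcases ht0.eq_or_lt with h3 | h3
    · obtain ⟨x, hx⟩ := hne α h0 h1
      have := h2 x hx
      rw [← h3] at this ⊢
      linarith
    · have h4 : sSup (DD α) ≤ (t * sSup (DD β) + 2 * C * t ^ 2 - ‖α - β‖) / t := by
        apply csSup_le (hne α h0 h1)
        intro x hx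
        rw [le_div_iff₀ h3]
        have := h2 x hx
        linarith
      rw [le_div_iff₀ h3] at h4
      linarith
  have k1 := key α β hα hβ hα0 hα1 h.le
  have k2 := key β α hβ hα hβ0 hβ1 h.ge
  rw [norm_sub_rev β α] at k2
  linarith

/-! ### The formula -/

/-- The relation between two points and two values. -/
def Pr (p r A G : HD) : Prop := ∃ f : HD, IsUnit f ∧ IsUnit (f - 1) ∧ p ∣ (f - A) ∧ r ∣ (f - G)

/-- The two points are close. -/
def Sm (p r : HD) : Prop := ¬ Pr p r 4 5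

/-- The same values are reachable from `X` at the first and the second point. -/
def Ex (X p q r : HD) : Prop := ∀ G : HD, Pr p r X G ↔ Pr q r X G

/-- `K` is constant. -/
def Cn (K : HD) : Prop := ∀ p q r : HD, Irreducible p → Irreducible q → Irreducible r →
  Sm p r → Sm q r → Ex 2 p q r → Ex K p q r

theorem Pr_iff {p r : HD} {a c : ℂ} (ha : a ∈ UD) (hc : c ∈ UD)
    (hp : ∀ g : HD, p ∣ g ↔ g.1 a = 0) (hr : ∀ g : HD, r ∣ g ↔ g.1 c = 0) (A G : HD) :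
    Pr p r A G ↔ G.1 c ∈ BB (ph a c) (A.1 a) := by
  rw [← pr_iff ha hc]
  constructor
  · rintro ⟨f, h1, h2, h3, h4⟩
    rw [isUnit_iff] at h1 h2
    rw [hp] at h3
    rw [hr] at h4
    refine ⟨f.1, ⟨f.diff, fun z hz => ⟨h1 z hz, fun h => h2 z hz ?_⟩⟩, ?_, ?_⟩
    · rw [sub_apply', h]; simp
    · exact sub_eq_zero.1 h3
    · exact sub_eq_zero.1 h4
  · rintro ⟨f, hf, h3, h4⟩
    refine ⟨mk f hf.1, ?_, ?_, ?_, ?_⟩
    · rw [isUnit_iff]
      intro z hz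
      rw [mk_apply _ hz]
      exact (hf.2 z hz).1
    · rw [isUnit_iff]
      intro z hz
      rw [sub_apply', mk_apply _ hz, one_apply', sub_ne_zero]
      exact (hf.2 z hz).2
    · rw [hp, sub_apply', mk_apply _ ha, h3, sub_self]
    · rw [hr, sub_apply', mk_apply _ hc, h4, sub_self]

theorem Ex_iff {p q r : HD} {a b c : ℂ} (ha : a ∈ UD) (hb : b ∈ UD) (hc : c ∈ UD)
    (hp : ∀ g : HD, p ∣ g ↔ g.1 a = 0) (hq : ∀ g : HD, q ∣ g ↔ g.1 b = 0)
    (hr : ∀ g : HD, r ∣ g ↔ g.1 c = 0) (X : HD) :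
    Ex X p q r ↔ BB (ph a c) (X.1 a) = BB (ph b c) (X.1 b) := by
  constructor
  · intro h
    ext γ
    have := h (Cc γ)
    rwa [Pr_iff ha hc hp hr, Pr_iff hb hc hq hr, Cc_apply] at this
  · intro h G
    rw [Pr_iff ha hc hp hr, Pr_iff hb hc hq hr, h]

theorem natCast_apply' (n : ℕ) (z : ℂ) : ((n : HD)).1 z = n := by
  rw [← Cc_natCast, Cc_apply]

theorem two_apply' (z : ℂ) : (2 : HD).1 z = 2 := natCast_apply' 2 z
theorem four_apply' (z : ℂ) : (4 : HD).1 z = 4 := natCast_apply' 4 z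
theorem five_apply' (z : ℂ) : (5 : HD).1 z = 5 := natCast_apply' 5 z

theorem Cn_of_const (c : ℂ) : Cn (Cc c) := by
  intro p q r hp hq hr hpr hqr h2
  obtain ⟨a, ha, hpa, -⟩ := irreducible_point hp
  obtain ⟨b, hb, hqb, -⟩ := irreducible_point hq
  obtain ⟨d, hd, hrd, -⟩ := irreducible_point hr
  rw [Sm, Pr_iff ha hd hpa hrd, four_apply', five_apply'] at hpr
  rw [Sm, Pr_iff hb hd hqb hrd, four_apply', five_apply'] at hqr
  rw [Ex_iff ha hb hd hpa hqb hrd, two_apply', two_apply'] at h2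
  rw [Ex_iff ha hb hd hpa hqb hrd, Cc_apply, Cc_apply,
    BB_inj (ph_nonneg _ _) (ph_nonneg _ _) (small_of hpr) (small_of hqr) h2]

theorem exists_good_point {K : HD} (hK : ¬ ∃ c, K = Cc c) :
    ∃ a ∈ UD, deriv K.1 a ≠ 0 ∧ K.1 a ≠ 0 ∧ K.1 a ≠ 1 := by
  have h1 : ∃ a ∈ UD, deriv K.1 a ≠ 0 := by
    by_contra hcon
    push Not at hcon
    apply hK
    refine ⟨K.1 0, HD.ext fun z hz => ?_⟩
    rw [Cc_apply]
    exact (convex_ball (0 : ℂ) 1).is_const_of_fderivWithin_eq_zero (𝕜 := ℂ) K.diff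
      (fun z hz => by
        rw [fderivWithin_of_isOpen isOpen_ball hz]
        have h2 := (K.diff.differentiableAt (isOpen_UD.mem_nhds hz)).hasDerivAt
        rw [hcon z hz] at h2
        ext
        simp [h2.hasFDerivAt.fderiv]) hz zero_mem_UD
  obtain ⟨a, ha, hd⟩ := h1
  have h2 := (K.diff.differentiableAt (isOpen_UD.mem_nhds ha)).hasDerivAt
  have e0 := h2.eventually_ne (c := 0) hd
  have e1 := h2.eventually_ne (c := 1) hd
  have hc : ContinuousAt (deriv K.1) a :=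
    ((K.diff.deriv isOpen_UD).differentiableAt (isOpen_UD.mem_nhds ha)).continuousAt
  have e2 : ∀ᶠ z in nhdsWithin a {a}ᶜ, deriv K.1 z ≠ 0 :=
    (hc.eventually_ne hd).filter_mono nhdsWithin_le_nhds
  have e3 : ∀ᶠ z in nhdsWithin a {a}ᶜ, z ∈ UD :=
    Filter.Eventually.filter_mono nhdsWithin_le_nhds (isOpen_UD.mem_nhds ha)
  obtain ⟨b, hb⟩ := (e0.and (e1.and (e2.and e3))).exists
  exact ⟨b, hb.2.2.2, hb.2.2.1, hb.1, hb.2.1⟩

theorem const_of_Cn {K : HD} (hCn : Cn K) : ∃ c, K = Cc c := by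
  by_contra hK
  obtain ⟨a, ha, hd, h0, h1⟩ := exists_good_point hK
  let G : ℂ → ℂ := fun z => K.1 (mob a z)
  have hG0 : G 0 = K.1 a := by simp [G, mob_zero]
  set k : ℂ := deriv K.1 a * (1 - conj a * a) with hk
  have hk0 : k ≠ 0 := by
    refine mul_ne_zero hd ?_
    intro h
    have h2 : (1 : ℂ) = ((‖a‖ ^ 2 : ℝ) : ℂ) := by
      rw [← Complex.normSq_eq_norm_sq, Complex.normSq_eq_conj_mul_self]
      linear_combination h
    have h3 : (1 : ℝ) = ‖a‖ ^ 2 := by exact_mod_cast h2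
    have h4 := mem_UD.1 ha
    nlinarith [norm_nonneg a]
  have hGd : HasDerivAt G k 0 := by
    have h2 : HasDerivAt K.1 (deriv K.1 a) (mob a 0) := by
      rw [mob_zero]
      exact (K.diff.differentiableAt (isOpen_UD.mem_nhds ha)).hasDerivAt
    exact h2.comp 0 (mob_hasDerivAt_zero a)
  set R : ℝ := ‖K.1 a‖ + 1 with hR
  obtain ⟨C, hC0, hC⟩ := center R
  obtain ⟨t0, ht0, hsmall⟩ := exists_small
  have hcont : ContinuousAt G 0 := hGd.continuousAt
  -- all conditions hold near `0`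
  have e1 : ∀ᶠ z in nhds (0 : ℂ), ‖G z‖ ≤ R := by
    have : ∀ᶠ z in nhds (0 : ℂ), ‖G z‖ < R :=
      hcont.norm.eventually_lt continuousAt_const (by rw [hG0, hR]; linarith)
    exact this.mono fun z hz => hz.le
  have e2 : ∀ᶠ z in nhds (0 : ℂ), G z ≠ 0 := hcont.eventually_ne (by rw [hG0]; exact h0)
  have e3 : ∀ᶠ z in nhds (0 : ℂ), G z ≠ 1 := hcont.eventually_ne (by rw [hG0]; exact h1)
  have e4 : ∀ᶠ z in nhds (0 : ℂ), ‖G z - G 0 - z * k‖ ≤ ‖k‖ / 2 * ‖z‖ := by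
    have h2 := hGd.isLittleO.def (c := ‖k‖ / 2) (by positivity)
    filter_upwards [h2] with z hz
    simpa [smul_eq_mul] using hz
  have e : ∀ᶠ z in nhds (0 : ℂ), ‖G z‖ ≤ R ∧ G z ≠ 0 ∧ G z ≠ 1 ∧
      ‖G z - G 0 - z * k‖ ≤ ‖k‖ / 2 * ‖z‖ := e1.and (e2.and (e3.and e4))
  obtain ⟨ε, hε, hball⟩ := Metric.eventually_nhds_iff_ball.1 e
  -- choose `t`
  set t : ℝ := min (min (ε / 2) (t0 / 2)) (min (1 / 4) (‖k‖ / (2 * C))) with ht
  have hkpos : 0 < ‖k‖ := norm_pos_iff.2 hk0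
  have htpos : 0 < t := by positivity
  have htε : t < ε := by
    have : t ≤ ε / 2 := (min_le_left _ _).trans (min_le_left _ _)
    linarith
  have htt0 : t < t0 := by
    have : t ≤ t0 / 2 := (min_le_left _ _).trans (min_le_right _ _)
    linarith
  have ht4 : t ≤ 1 / 4 := (min_le_right _ _).trans (min_le_left _ _)
  have htk : t ≤ ‖k‖ / (2 * C) := (min_le_right _ _).trans (min_le_right _ _)
  have hnt : ‖(t : ℂ)‖ = t := by rw [Complex.norm_real, Real.norm_of_nonneg htpos.le]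
  have hnt' : ‖(-t : ℂ)‖ = t := by rw [norm_neg, hnt]
  obtain ⟨p1, p2, p3, p4⟩ := hball (t : ℂ) (by rw [mem_ball_zero_iff, hnt]; exact htε)
  obtain ⟨q1, q2, q3, q4⟩ := hball (-t : ℂ) (by rw [mem_ball_zero_iff, hnt']; exact htε)
  have htU : (t : ℂ) ∈ UD := by rw [mem_UD, hnt]; linarith
  have htU' : (-t : ℂ) ∈ UD := by rw [mem_UD, hnt']; linarith
  have hsU := mob_mem ha htU
  have hsU' := mob_mem ha htU'
  have hph : ph (mob a t) a = t := by rw [ph_comm, ph_mob ha htU, hnt]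
  have hph' : ph (mob a (-t)) a = t := by rw [ph_comm, ph_mob ha htU', hnt']
  have hEx := hCn (Xa (mob a t)) (Xa (mob a (-t))) (Xa a) (Xa_irreducible hsU)
    (Xa_irreducible hsU') (Xa_irreducible ha)
    (by
      rw [Sm, Pr_iff hsU ha (Xa_dvd hsU) (Xa_dvd ha), four_apply', five_apply', hph]
      exact hsmall t htpos.le htt0)
    (by
      rw [Sm, Pr_iff hsU' ha (Xa_dvd hsU') (Xa_dvd ha), four_apply', five_apply', hph']
      exact hsmall t htpos.le htt0)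
    (by
      rw [Ex_iff hsU hsU' ha (Xa_dvd hsU) (Xa_dvd hsU') (Xa_dvd ha), hph, hph', two_apply',
        two_apply'])
  rw [Ex_iff hsU hsU' ha (Xa_dvd hsU) (Xa_dvd hsU') (Xa_dvd ha), hph, hph'] at hEx
  have hle := hC (G t) (G (-t)) t p1 q1 p2 p3 q2 q3 htpos.le (by linarith) hEx
  -- contradiction
  rw [hnt] at p4
  rw [hnt'] at q4
  have h2 : (2 * t : ℂ) * k = (G t - G (-t)) - (G t - G 0 - t * k) +
      (G (-t) - G 0 - (-t) * k) := by ring
  have h3 : ‖(2 * t : ℂ) * k‖ = 2 * t * ‖k‖ := by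
    rw [norm_mul, norm_mul, hnt]; norm_num
  have h4 : ‖(2 * t : ℂ) * k‖ ≤ C * t ^ 2 + ‖k‖ / 2 * t + ‖k‖ / 2 * t := by
    rw [h2]
    calc _ ≤ ‖(G t - G (-t)) - (G t - G 0 - t * k)‖ + ‖G (-t) - G 0 - (-t) * k‖ :=
          norm_add_le _ _
      _ ≤ (‖G t - G (-t)‖ + ‖G t - G 0 - t * k‖) + ‖G (-t) - G 0 - (-t) * k‖ := by
          gcongr
          exact norm_sub_le _ _
      _ ≤ _ := by linarith
  rw [h3] at h4
  rw [le_div_iff₀ (by positivity)] at htk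
  have h5 : t * ‖k‖ ≤ C * t ^ 2 := by nlinarith
  have h6 : ‖k‖ ≤ C * t := by
    have : t * ‖k‖ ≤ t * (C * t) := by nlinarith
    exact le_of_mul_le_mul_left this htpos
  nlinarith

theorem Cn_iff (K : HD) : Cn K ↔ ∃ c, K = Cc c := by
  constructor
  · exact const_of_Cn
  · rintro ⟨c, rfl⟩
    exact Cn_of_const c

end Pool.Agent.TH730.Adm
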