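import Pool.Agent.TH730.Adm.Const

/-! # Coordinates on the disc are definable -/

set_option autoImplicit false

open Complex Metric Set

namespace Pool.Agent.TH730.Adm

/-- `c` is a constant in the image of `z`. -/
def In (z c : HD) : Prop := Cn c ∧ ¬ IsUnit (z - c)

/-- `z` is a coordinate: a bijection of the disc onto the disc. -/
def Co (z : HD) : Prop :=
  (∃ c, Cn c ∧ IsUnit (z - c)) ∧ (∀ c, In z c → Irreducible (z - c)) ∧ In z 0 ∧
  (∀ a b, In z a → In z b → In z (a * b)) ∧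
  (∀ c d, Cn c → c * d = 1 → In z c ∨ In z d ∨ ∀ b, In z b → (In z (b * c) ∧ In z (b * d)))

theorem In_Cc {z : HD} {γ : ℂ} : In z (Cc γ) ↔ γ ∈ z.1 '' UD := by
  unfold In
  rw [isUnit_iff]
  push Not
  constructor
  · rintro ⟨-, a, ha, h⟩
    refine ⟨a, ha, ?_⟩
    rw [sub_apply', Cc_apply] at h
    exact sub_eq_zero.1 h
  · rintro ⟨a, ha, h⟩
    refine ⟨(Cn_iff _).2 ⟨γ, rfl⟩, a, ha, ?_⟩
    rw [sub_apply', Cc_apply, h, sub_self]

/-- The properties of a coordinate `z` with inverse `ψ`. -/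
structure Coord (z : HD) (ψ : ℂ → ℂ) : Prop where
  maps : ∀ a ∈ UD, z.1 a ∈ UD
  psi_maps : ∀ w ∈ UD, ψ w ∈ UD
  left_inv : ∀ a ∈ UD, ψ (z.1 a) = a
  right_inv : ∀ w ∈ UD, z.1 (ψ w) = w
  psi_diff : DifferentiableOn ℂ ψ UD
  dvd : ∀ ξ ∈ UD, ∀ g : HD, (z - Cc ξ) ∣ g ↔ g.1 (ψ ξ) = 0

theorem Coord.In_iff {z : HD} {ψ : ℂ → ℂ} (h : Coord z ψ) (x : HD) :
    In z x ↔ ∃ ξ ∈ UD, x = Cc ξ := by
  constructor
  · intro hx
    obtain ⟨ξ, rfl⟩ := (Cn_iff x).1 hx.1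
    rw [In_Cc] at hx
    obtain ⟨a, ha, rfl⟩ := hx
    exact ⟨_, h.maps a ha, rfl⟩
  · rintro ⟨ξ, hξ, rfl⟩
    rw [In_Cc]
    exact ⟨ψ ξ, h.psi_maps ξ hξ, h.right_inv ξ hξ⟩

theorem Coord_id : Coord (Xa 0) id where
  maps := fun a ha => by rw [Xa_apply 0 ha, sub_zero]; exact ha
  psi_maps := fun w hw => hw
  left_inv := fun a ha => by rw [Xa_apply 0 ha, sub_zero]; rfl
  right_inv := fun w hw => by rw [id, Xa_apply 0 hw, sub_zero]
  psi_diff := differentiableOn_id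
  dvd := fun ξ hξ g => by
    have : Xa 0 - Cc ξ = Xa ξ := HD.ext fun z hz => by
      rw [sub_apply', Xa_apply 0 hz, Xa_apply ξ hz, Cc_apply, sub_zero]
    rw [this, Xa_dvd hξ]
    rfl

theorem Co_id : Co (Xa 0) := by
  have hI := Coord_id.In_iff
  have hsub : ∀ ξ : ℂ, Xa 0 - Cc ξ = Xa ξ := fun ξ => HD.ext fun z hz => by
    rw [sub_apply', Xa_apply 0 hz, Xa_apply ξ hz, Cc_apply, sub_zero]
  refine ⟨⟨Cc 2, (Cn_iff _).2 ⟨2, rfl⟩, ?_⟩, ?_, ?_, ?_, ?_⟩
  · rw [hsub, isUnit_iff]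
    intro z hz h
    rw [Xa_apply 2 hz, sub_eq_zero] at h
    rw [mem_UD, h] at hz
    norm_num at hz
  · intro c hc
    obtain ⟨ξ, hξ, rfl⟩ := (hI c).1 hc
    rw [hsub]
    exact Xa_irreducible hξ
  · exact (hI 0).2 ⟨0, zero_mem_UD, Cc_zero.symm⟩
  · intro a b ha hb
    obtain ⟨ξ, hξ, rfl⟩ := (hI a).1 ha
    obtain ⟨η, hη, rfl⟩ := (hI b).1 hb
    refine (hI _).2 ⟨ξ * η, ?_, (Cc_mul _ _).symm⟩
    rw [mem_UD] at *
    rw [norm_mul]
    nlinarith [norm_nonneg ξ, norm_nonneg η]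
  · intro c d hc hcd
    obtain ⟨γ, rfl⟩ := (Cn_iff c).1 hc
    have hγ : ∀ z, γ * d.1 z = 1 := by
      intro z
      have := congrArg (fun f : HD => f.1 z) hcd
      simpa using this
    have hγ0 : γ ≠ 0 := by
      intro h
      have := hγ 0
      rw [h, zero_mul] at this
      exact zero_ne_one this
    have hd : d = Cc γ⁻¹ := HD.ext fun z _ => by
      rw [Cc_apply]
      exact eq_inv_of_mul_eq_one_right (hγ z)
    subst hd
    rcases lt_trichotomy ‖γ‖ 1 with h | h | h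
    · left
      exact (hI _).2 ⟨γ, mem_UD.2 h, rfl⟩
    · right; right
      intro b hb
      obtain ⟨η, hη, rfl⟩ := (hI b).1 hb
      rw [mem_UD] at hη
      refine ⟨(hI _).2 ⟨η * γ, ?_, (Cc_mul _ _).symm⟩, (hI _).2 ⟨η * γ⁻¹, ?_, (Cc_mul _ _).symm⟩⟩
      · rw [mem_UD, norm_mul, h, mul_one]; exact hη
      · rw [mem_UD, norm_mul, norm_inv, h, inv_one, mul_one]; exact hη
    · right; left
      refine (hI _).2 ⟨γ⁻¹, ?_, rfl⟩
      rw [mem_UD, norm_inv]
      exact inv_lt_one_of_one_lt₀ h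

theorem norm_unbounded {Ω : Set ℂ} (h0 : Ω ∈ nhds (0 : ℂ)) {w : ℂ} (hw : 1 < ‖w‖)
    (hmul : ∀ b ∈ Ω, b * w ∈ Ω) : Ω = univ := by
  obtain ⟨ε, hε, hball⟩ := Metric.mem_nhds_iff.1 h0
  have hw0 : w ≠ 0 := by
    intro h; rw [h, norm_zero] at hw; linarith
  have hpow : ∀ n : ℕ, ∀ b ∈ Ω, b * w ^ n ∈ Ω := by
    intro n
    induction n with
    | zero => intro b hb; simpa using hb
    | succ n ih =>
      intro b hb
      have := hmul _ (ih b hb)
      rwa [mul_assoc, ← pow_succ] at this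
  apply eq_univ_of_forall
  intro c
  obtain ⟨n, hn⟩ := pow_unbounded_of_one_lt (‖c‖ / ε) hw
  have h1 : c / w ^ n ∈ Ω := by
    apply hball
    rw [mem_ball_zero_iff, norm_div, norm_pow, div_lt_iff₀ (by positivity)]
    rw [div_lt_iff₀ hε] at hn
    linarith
  have h2 := hpow n _ h1
  rwa [div_mul_cancel₀ _ (pow_ne_zero n hw0)] at h2

theorem Coord_of_Co {z : HD} (h : Co z) : ∃ ψ, Coord z ψ := by
  obtain ⟨⟨c0, hc0, hc0u⟩, hirr, h0, hmul, hinv⟩ := h
  obtain ⟨γ0, rfl⟩ := (Cn_iff c0).1 hc0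
  have hγ0 : γ0 ∉ z.1 '' UD := by
    intro h
    exact (In_Cc.2 h).2 hc0u
  -- description of the zeros of `z - γ`
  have hpt : ∀ a ∈ UD, (∀ g : HD, (z - Cc (z.1 a)) ∣ g ↔ g.1 a = 0) ∧ deriv z.1 a ≠ 0 ∧
      ∀ b ∈ UD, z.1 b = z.1 a → b = a := by
    intro a ha
    have hI : In z (Cc (z.1 a)) := In_Cc.2 ⟨a, ha, rfl⟩
    obtain ⟨a0, ha0, hdvd, u, hu, heq⟩ := irreducible_point (hirr _ hI)
    rw [isUnit_iff] at hu
    have hval : ∀ b ∈ UD, z.1 b - z.1 a = (b - a0) * u.1 b := by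
      intro b hb
      have := congrArg (fun f : HD => f.1 b) heq
      simp only [sub_apply', Cc_apply, mul_apply'] at this
      rw [this, Xa_apply a0 hb]
    have haa : a0 = a := by
      have := hval a ha
      rw [sub_self] at this
      rcases mul_eq_zero.1 this.symm with h1 | h1
      · exact (sub_eq_zero.1 h1).symm
      · exact (hu a ha h1).elim
    subst haa
    refine ⟨hdvd, ?_, ?_⟩
    · have hd : HasDerivAt (fun b => (b - a0) * u.1 b) (1 * u.1 a0 + (a0 - a0) * deriv u.1 a0) a0 :=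
        ((hasDerivAt_id a0).sub_const a0).mul
          ((u.diff.differentiableAt (isOpen_UD.mem_nhds ha)).hasDerivAt)
      have hd' : HasDerivAt z.1 (1 * u.1 a0 + (a0 - a0) * deriv u.1 a0) a0 := by
        have := hd.const_add (z.1 a0)
        refine this.congr_of_eventuallyEq ?_
        filter_upwards [isOpen_UD.mem_nhds ha] with b hb
        rw [← hval b hb]; ring
      rw [hd'.deriv, sub_self, zero_mul, add_zero, one_mul]
      exact hu a0 ha
    · intro b hb hbe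
      have := hval b hb
      rw [hbe, sub_self] at this
      rcases mul_eq_zero.1 this.symm with h1 | h1
      · exact sub_eq_zero.1 h1
      · exact (hu b hb h1).elim
  -- openness
  have hinj : ∀ a ∈ UD, ∀ b ∈ UD, z.1 a = z.1 b → a = b := fun a ha b hb hab =>
    (hpt b hb).2.2 a ha hab
  have han : AnalyticOnNhd ℂ z.1 UD := z.diff.analyticOnNhd isOpen_UD
  have hopen : ∀ s ⊆ UD, IsOpen s → IsOpen (z.1 '' s) := by
    rcases han.is_constant_or_isOpen (convex_ball (0 : ℂ) 1).isPreconnected with h1 | h1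
    · obtain ⟨w, hw⟩ := h1
      exfalso
      have h2 : (1 / 2 : ℂ) ∈ UD := by rw [mem_UD]; norm_num
      have := hinj _ h2 0 zero_mem_UD (by rw [hw _ h2, hw _ zero_mem_UD])
      norm_num at this
    · exact h1
  set Ω : Set ℂ := z.1 '' UD with hΩ
  have hΩo : IsOpen Ω := hopen UD subset_rfl isOpen_UD
  have h0Ω : (0 : ℂ) ∈ Ω := by
    rw [← Cc_zero] at h0
    exact In_Cc.1 h0
  have hmulΩ : ∀ a ∈ Ω, ∀ b ∈ Ω, a * b ∈ Ω := by
    intro a ha b hb
    have := hmul _ _ (In_Cc.2 ha) (In_Cc.2 hb)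
    rw [← Cc_mul] at this
    exact In_Cc.1 this
  have hne : Ω ≠ univ := by
    intro h
    exact hγ0 (by rw [h]; trivial)
  have hle : ∀ w ∈ Ω, ‖w‖ ≤ 1 := by
    intro w hw
    by_contra hcon
    push Not at hcon
    exact hne (norm_unbounded (hΩo.mem_nhds h0Ω) hcon fun b hb => hmulΩ b hb w hw)
  have hlt : ∀ w ∈ Ω, ‖w‖ < 1 := by
    intro w hw
    rcases (hle w hw).lt_or_eq with h1 | h1
    · exact h1
    · exfalso
      obtain ⟨ε, hε, hball⟩ := Metric.isOpen_iff.1 hΩo w hw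
      have h2 : (1 + ε / 2 : ℝ) • w ∈ Ω := by
        apply hball
        rw [mem_ball, dist_eq_norm]
        have : (1 + ε / 2 : ℝ) • w - w = (ε / 2 : ℝ) • w := by
          rw [add_smul, one_smul, add_sub_cancel_left]
        rw [this, norm_smul, h1, mul_one, Real.norm_of_nonneg (by positivity)]
        linarith
      have h3 := hle _ h2
      rw [norm_smul, h1, mul_one, Real.norm_of_nonneg (by positivity)] at h3
      linarith
  have hsup : ∀ w ∈ UD, w ∈ Ω := by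
    intro w hw
    rw [mem_UD] at hw
    by_cases hw0 : w = 0
    · rw [hw0]; exact h0Ω
    by_contra hcon
    have hw1 : 1 < ‖w⁻¹‖ := by
      rw [norm_inv]
      exact (one_lt_inv₀ (norm_pos_iff.2 hw0)).2 hw
    have hcd : Cc w * Cc w⁻¹ = 1 := by
      rw [← Cc_mul, mul_inv_cancel₀ hw0, Cc_one]
    rcases hinv (Cc w) (Cc w⁻¹) ((Cn_iff _).2 ⟨w, rfl⟩) hcd with h1 | h1 | h1
    · exact hcon (In_Cc.1 h1)
    · have := hlt _ (In_Cc.1 h1)
      linarith
    · apply hne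
      refine norm_unbounded (hΩo.mem_nhds h0Ω) hw1 fun b hb => ?_
      have := (h1 _ (In_Cc.2 hb)).2
      rw [← Cc_mul] at this
      exact In_Cc.1 this
  -- the inverse
  have hex : ∀ w : ℂ, ∃ a : ℂ, w ∈ UD → (a ∈ UD ∧ z.1 a = w) := by
    intro w
    by_cases hw : w ∈ UD
    · obtain ⟨a, ha, haw⟩ := hsup w hw
      exact ⟨a, fun _ => ⟨ha, haw⟩⟩
    · exact ⟨0, fun h => (hw h).elim⟩
  choose ψ hψ using hex
  have hright : ∀ w ∈ UD, z.1 (ψ w) = w := fun w hw => (hψ w hw).2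
  have hpm : ∀ w ∈ UD, ψ w ∈ UD := fun w hw => (hψ w hw).1
  have hmaps : ∀ a ∈ UD, z.1 a ∈ UD := fun a ha => mem_UD.2 (hlt _ ⟨a, ha, rfl⟩)
  have hleft : ∀ a ∈ UD, ψ (z.1 a) = a := fun a ha =>
    hinj _ (hpm _ (hmaps a ha)) _ ha (hright _ (hmaps a ha))
  have hψc : ∀ w ∈ UD, ContinuousAt ψ w := by
    intro w hw
    rw [Metric.continuousAt_iff']
    intro ε hε
    have hU : IsOpen (ball (ψ w) ε ∩ UD) := isOpen_ball.inter isOpen_UD
    have h1 : IsOpen (z.1 '' (ball (ψ w) ε ∩ UD)) := hopen _ inter_subset_right hU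
    have h2 : w ∈ z.1 '' (ball (ψ w) ε ∩ UD) :=
      ⟨ψ w, ⟨mem_ball_self hε, hpm w hw⟩, hright w hw⟩
    filter_upwards [h1.mem_nhds h2] with x hx
    obtain ⟨a, ⟨ha1, ha2⟩, rfl⟩ := hx
    rw [hleft a ha2]
    exact ha1
  refine ⟨ψ, hmaps, hpm, hleft, hright, ?_, ?_⟩
  · intro w hw
    have hd := ((z.diff.differentiableAt (isOpen_UD.mem_nhds (hpm w hw))).hasDerivAt)
    have h1 := HasDerivAt.of_local_left_inverse (hψc w hw) hd (hpt _ (hpm w hw)).2.1 (by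
      filter_upwards [isOpen_UD.mem_nhds hw] with x hx
      exact hright x hx)
    exact h1.differentiableAt.differentiableWithinAt
  · intro ξ hξ g
    have := (hpt (ψ ξ) (hpm ξ hξ)).1 g
    rwa [hright ξ hξ] at this

end Pool.Agent.TH730.Adm
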