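import Pool.Agent.TH730.Adm.Mob

/-! # Averages of the positive logarithm over circles -/

set_option autoImplicit false

open Complex Metric Set

namespace Pool.Agent.TH730.Adm

/-- Continuous real functions on a circle are approximated by real parts of entire functions. -/
theorem approx_circle {φ : ℂ → ℝ} {ρ : ℝ} (hρ : 0 < ρ) (hφ : ContinuousOn φ (sphere 0 ρ))
    {ε : ℝ} (hε : 0 < ε) :
    ∃ P : ℂ → ℂ, Differentiable ℂ P ∧ ∀ w ∈ sphere (0 : ℂ) ρ, |φ w - (P w).re| < ε := by
  have : Fact (0 < (1 : ℝ)) := ⟨one_pos⟩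
  let pt : AddCircle (1 : ℝ) → ℂ := fun x => (ρ : ℂ) * (AddCircle.toCircle x : ℂ)
  have hpt : Continuous pt :=
    continuous_const.mul (continuous_subtype_val.comp AddCircle.continuous_toCircle)
  have hpts : ∀ x, pt x ∈ sphere (0 : ℂ) ρ := by
    intro x
    rw [mem_sphere_zero_iff_norm]
    simp only [pt]
    rw [norm_mul, Circle.norm_coe, mul_one, Complex.norm_real, Real.norm_of_nonneg hρ.le]
  have hsurj : ∀ w ∈ sphere (0 : ℂ) ρ, ∃ x, pt x = w := by
    intro w hw
    rw [mem_sphere_zero_iff_norm] at hw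
    have hρ' : (ρ : ℂ) ≠ 0 := by exact_mod_cast hρ.ne'
    have h1 : ‖w / ρ‖ = 1 := by
      rw [norm_div, hw, Complex.norm_real, Real.norm_of_nonneg hρ.le, div_self hρ.ne']
    let u : Circle := ⟨w / ρ, by rw [Submonoid.unitSphere]; simpa using h1⟩
    refine ⟨(AddCircle.homeomorphCircle one_ne_zero).symm u, ?_⟩
    have h2 : AddCircle.toCircle ((AddCircle.homeomorphCircle one_ne_zero).symm u) = u := by
      rw [← AddCircle.homeomorphCircle_apply (one_ne_zero : (1 : ℝ) ≠ 0)]
      exact Homeomorph.apply_symm_apply _ _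
    simp only [pt]
    rw [h2]
    show (ρ : ℂ) * (w / ρ) = w
    field_simp
  let Φ : C(AddCircle (1 : ℝ), ℂ) := ⟨fun x => (φ (pt x) : ℂ),
    Complex.continuous_ofReal.comp (hφ.comp_continuous hpt hpts)⟩
  have hd : Φ ∈ (Submodule.span ℂ (range (@fourier (1 : ℝ)))).topologicalClosure := by
    rw [span_fourier_closure_eq_top]; trivial
  obtain ⟨g, hg, hgd⟩ := Metric.mem_closure_iff.1 hd ε hε
  have key : ∀ g ∈ Submodule.span ℂ (range (@fourier (1 : ℝ))), ∀ c : ℂ,
      ∃ P : ℂ → ℂ, Differentiable ℂ P ∧ ∀ x, (P (pt x)).re = (c * g x).re := by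
    intro g hg
    induction hg using Submodule.span_induction with
    | mem g hg =>
      intro c
      obtain ⟨n, rfl⟩ := hg
      have hρ' : (ρ : ℂ) ≠ 0 := by exact_mod_cast hρ.ne'
      rcases n with m | m
      · refine ⟨fun w => c * (w / ρ) ^ m, by fun_prop, fun x => ?_⟩
        simp only [pt]
        rw [fourier_apply, AddCircle.toCircle_zsmul, mul_div_cancel_left₀ _ hρ']
        simp
      · refine ⟨fun w => (starRingEnd ℂ) c * (w / ρ) ^ (m + 1), by fun_prop, fun x => ?_⟩
        simp only [pt]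
        rw [fourier_apply, AddCircle.toCircle_zsmul, mul_div_cancel_left₀ _ hρ', zpow_negSucc,
          Circle.coe_inv_eq_conj, Circle.coe_pow]
        rw [← Complex.conj_re (c * _), map_mul, Complex.conj_conj]
    | zero =>
      intro c
      exact ⟨fun _ => 0, differentiable_const _, fun x => by simp⟩
    | add g h _ _ ihg ihh =>
      intro c
      obtain ⟨P, hP, hP'⟩ := ihg c
      obtain ⟨Q, hQ, hQ'⟩ := ihh c
      refine ⟨fun w => P w + Q w, hP.add hQ, fun x => ?_⟩
      rw [Complex.add_re, hP', hQ', ContinuousMap.add_apply, mul_add, Complex.add_re]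
    | smul a g _ ih =>
      intro c
      obtain ⟨P, hP, hP'⟩ := ih (c * a)
      refine ⟨P, hP, fun x => ?_⟩
      rw [hP', ContinuousMap.smul_apply, smul_eq_mul, mul_assoc]
  obtain ⟨P, hP, hP'⟩ := key g hg 1
  refine ⟨P, hP, fun w hw => ?_⟩
  obtain ⟨x, rfl⟩ := hsurj w hw
  have h1 : ‖(Φ - g) x‖ ≤ ‖Φ - g‖ := ContinuousMap.norm_coe_le_norm _ x
  rw [← dist_eq_norm] at h1
  have h2 : φ (pt x) - (P (pt x)).re = ((Φ - g) x).re := by
    rw [hP', one_mul, ContinuousMap.sub_apply, Complex.sub_re]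
    rfl
  rw [h2]
  exact (Complex.abs_re_le_norm _).trans_lt (h1.trans_lt hgd)

theorem cont_posLog {F : ℂ → ℂ} {s : Set ℂ} (hF : ContinuousOn F s) :
    ContinuousOn (fun w => Real.posLog ‖F w‖) s :=
  Real.continuous_posLog.comp_continuousOn hF.norm

/-- Comparison with a harmonic majorant on a circle. -/
theorem le_of_circle {F P : ℂ → ℂ} {ρ : ℝ} (hρ : 0 < ρ) (hρ1 : ρ < 1)
    (hF : DifferentiableOn ℂ F UD) (hP : Differentiable ℂ P)
    (h : ∀ w ∈ sphere (0 : ℂ) ρ, Real.posLog ‖F w‖ ≤ (P w).re) {w : ℂ}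
    (hw : w ∈ closedBall (0 : ℂ) ρ) : Real.posLog ‖F w‖ ≤ (P w).re := by
  have hsub : closedBall (0 : ℂ) ρ ⊆ UD := closedBall_subset_ball hρ1
  have hE : DiffContOnCl ℂ (fun w => Complex.exp (-P w)) (ball (0 : ℂ) ρ) :=
    (hP.neg.cexp).diffContOnCl
  have hFE : DiffContOnCl ℂ (fun w => F w * Complex.exp (-P w)) (ball (0 : ℂ) ρ) := by
    apply DifferentiableOn.diffContOnCl
    rw [closure_ball _ hρ.ne']
    exact (hF.mono hsub).mul (hP.neg.cexp).differentiableOn
  have hcl : w ∈ closure (ball (0 : ℂ) ρ) := by rwa [closure_ball _ hρ.ne']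
  have hnE : ∀ w, ‖Complex.exp (-P w)‖ = Real.exp (-(P w).re) := by
    intro w
    rw [Complex.norm_exp, Complex.neg_re]
  have h1 : ‖Complex.exp (-P w)‖ ≤ 1 := by
    refine Complex.norm_le_of_forall_mem_frontier_norm_le isBounded_ball hE (fun v hv => ?_) hcl
    rw [frontier_ball _ hρ.ne'] at hv
    rw [hnE, Real.exp_le_one_iff]
    have := (Real.posLog_nonneg (x := ‖F v‖)).trans (h v hv)
    linarith
  have h2 : ‖F w * Complex.exp (-P w)‖ ≤ 1 := by
    refine Complex.norm_le_of_forall_mem_frontier_norm_le isBounded_ball hFE (fun v hv => ?_) hcl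
    rw [frontier_ball _ hρ.ne'] at hv
    rw [norm_mul, hnE]
    by_cases h0 : ‖F v‖ = 0
    · rw [h0, zero_mul]; exact zero_le_one
    · have hpos : 0 < ‖F v‖ := lt_of_le_of_ne (norm_nonneg _) (Ne.symm h0)
      have h3 : Real.log ‖F v‖ ≤ (P v).re := by
        refine le_trans ?_ (h v hv)
        rw [Real.posLog_apply]
        exact le_max_right _ _
      calc ‖F v‖ * Real.exp (-(P v).re)
          = Real.exp (Real.log ‖F v‖) * Real.exp (-(P v).re) := by rw [Real.exp_log hpos]
        _ = Real.exp (Real.log ‖F v‖ - (P v).re) := by rw [← Real.exp_add, sub_eq_add_neg]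
        _ ≤ 1 := by
          rw [Real.exp_le_one_iff]
          linarith
  rw [hnE, Real.exp_le_one_iff] at h1
  rw [Real.posLog_apply]
  refine max_le (by linarith) ?_
  by_cases h0 : ‖F w‖ = 0
  · rw [h0, Real.log_zero]; linarith
  · have hpos : 0 < ‖F w‖ := lt_of_le_of_ne (norm_nonneg _) (Ne.symm h0)
    rw [norm_mul, hnE] at h2
    have h3 := Real.log_le_log (by positivity) h2
    rw [Real.log_mul h0 (Real.exp_pos _).ne', Real.log_exp, Real.log_one] at h3
    linarith

/-- The average of the positive logarithm. -/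
noncomputable def Tc (F : ℂ → ℂ) (r : ℝ) : ℝ :=
  Real.circleAverage (fun w => Real.posLog ‖F w‖) 0 r

theorem circInt {F : ℂ → ℂ} {r : ℝ} (hr : 0 ≤ r) (hr1 : r < 1) (hF : DifferentiableOn ℂ F UD) :
    CircleIntegrable (fun w => Real.posLog ‖F w‖) 0 r := by
  apply ContinuousOn.circleIntegrable hr
  refine (cont_posLog hF.continuousOn).mono ?_
  exact sphere_subset_closedBall.trans (closedBall_subset_ball hr1)

theorem Tc_comp_le {F g : ℂ → ℂ} {r ρ : ℝ} (hr : 0 ≤ r) (hr1 : r < 1) (hρ : 0 < ρ) (hρ1 : ρ < 1)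
    (hF : DifferentiableOn ℂ F UD) (hg : DifferentiableOn ℂ g UD)
    (hm : MapsTo g (closedBall 0 r) (ball 0 ρ)) :
    Tc (fun w => F (g w)) r ≤ (ρ + ‖g 0‖) / (ρ - ‖g 0‖) * Tc F ρ := by
  have hg0 : g 0 ∈ ball (0 : ℂ) ρ := hm (mem_closedBall_self hr)
  have hg0' : ‖g 0‖ < ρ := mem_ball_zero_iff.1 hg0
  have hsubr : closedBall (0 : ℂ) r ⊆ UD := closedBall_subset_ball hr1
  have hsubρ : closedBall (0 : ℂ) ρ ⊆ UD := closedBall_subset_ball hρ1
  set K : ℝ := (ρ + ‖g 0‖) / (ρ - ‖g 0‖) with hK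
  have hK0 : 0 ≤ K := div_nonneg (by positivity) (by linarith)
  set φ : ℂ → ℝ := fun w => Real.posLog ‖F w‖ with hφdef
  have hφ : ContinuousOn φ (sphere 0 ρ) :=
    (cont_posLog hF.continuousOn).mono (sphere_subset_closedBall.trans hsubρ)
  refine le_of_forall_pos_le_add fun δ hδ => ?_
  obtain ⟨ε, hε, hεδ⟩ : ∃ ε : ℝ, 0 < ε ∧ K * (2 * ε) ≤ δ := by
    refine ⟨δ / (2 * (K + 1)), by positivity, ?_⟩
    rw [show K * (2 * (δ / (2 * (K + 1)))) = K / (K + 1) * δ by field_simp]
    have : K / (K + 1) ≤ 1 := by rw [div_le_one (by positivity)]; linarith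
    nlinarith
  obtain ⟨P, hP, hPa⟩ := approx_circle hρ (hφ.add (continuousOn_const (c := ε))) hε
  have hPa' : ∀ w ∈ sphere (0 : ℂ) ρ, |Real.posLog ‖F w‖ + ε - (P w).re| < ε := hPa
  have hlow : ∀ w ∈ sphere (0 : ℂ) ρ, Real.posLog ‖F w‖ ≤ (P w).re := by
    intro w hw
    have := (abs_lt.1 (hPa' w hw)).2
    linarith
  have hup : ∀ w ∈ sphere (0 : ℂ) ρ, (P w).re ≤ φ w + 2 * ε := by
    intro w hw
    have := (abs_lt.1 (hPa' w hw)).1
    simp only [hφdef]
    linarith
  -- the left side
  have hPg : DifferentiableOn ℂ (fun w => P (g w)) UD := hP.comp_differentiableOn hg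
  have hFg : ContinuousOn (fun w => F (g w)) (closedBall 0 r) :=
    hF.continuousOn.comp (hg.continuousOn.mono hsubr)
      (hm.mono_right (ball_subset_closedBall.trans hsubρ))
  have hrr : sphere (0 : ℂ) |r| = sphere 0 r := by rw [abs_of_nonneg hr]
  have h1 : Tc (fun w => F (g w)) r ≤ Real.circleAverage (fun w => (P (g w)).re) 0 r := by
    refine Real.circleAverage_mono ?_ ?_ ?_
    · exact ((cont_posLog hFg).mono sphere_subset_closedBall).circleIntegrable hr
    · refine ContinuousOn.circleIntegrable hr ?_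
      exact Complex.continuous_re.comp_continuousOn
        (hPg.continuousOn.mono (sphere_subset_closedBall.trans hsubr))
    · intro w hw
      rw [hrr] at hw
      exact le_of_circle hρ hρ1 hF hP hlow (ball_subset_closedBall (hm (sphere_subset_closedBall hw)))
  have h2 : Real.circleAverage (fun w => (P (g w)).re) 0 r = (P (g 0)).re := by
    have h3 : CircleIntegrable (fun w => P (g w)) 0 r :=
      ContinuousOn.circleIntegrable hr
        (hPg.continuousOn.mono (sphere_subset_closedBall.trans hsubr))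
    have h4 := Complex.reCLM.circleAverage_comp_comm h3
    have h5 : Real.circleAverage (fun w => P (g w)) 0 r = P (g 0) := by
      apply DiffContOnCl.circleAverage (f := fun w => P (g w))
      rw [abs_of_nonneg hr]
      exact (hPg.mono hsubr).diffContOnCl_ball subset_rfl
    rw [h5] at h4
    exact h4
  -- the right side
  have hPh : InnerProductSpace.HarmonicOnNhd (fun w => (P w).re) (closedBall (0 : ℂ) ρ) := by
    intro w _
    exact (hP.analyticAt w).harmonicAt_re
  have h3 := InnerProductSpace.HarmonicOnNhd.circleAverage_re_herglotzRieszKernel_smul hPh hg0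
  have hPc : ContinuousOn (fun w => (P w).re) (sphere (0 : ℂ) ρ) :=
    (Complex.continuous_re.comp hP.continuous).continuousOn
  have hker : ContinuousOn (fun z => (herglotzRieszKernel 0 (g 0) z).re) (sphere (0 : ℂ) ρ) := by
    have := continuousOn_herglotzRieszKernel_sphere hg0
    rw [abs_of_pos hρ] at this
    exact Complex.continuous_re.comp_continuousOn this
  have h4 : Real.circleAverage ((re ∘ herglotzRieszKernel 0 (g 0)) • fun w => (P w).re) 0 ρ ≤
      Real.circleAverage (fun w => K * (P w).re) 0 ρ := by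
    refine Real.circleAverage_mono ?_ ?_ ?_
    · exact (hker.smul hPc).circleIntegrable hρ.le
    · exact (continuousOn_const.mul hPc).circleIntegrable hρ.le
    · intro w hw
      rw [abs_of_pos hρ] at hw
      have h5 := re_herglotzRieszKernel_le hw hg0
      rw [sub_zero, sub_zero] at h5
      have h6 : (herglotzRieszKernel 0 (g 0) w).re ≤ K := by
        rw [herglotzRieszKernel_def, sub_zero, sub_zero]
        exact h5
      show (herglotzRieszKernel 0 (g 0) w).re • (P w).re ≤ K * (P w).re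
      rw [smul_eq_mul]
      refine mul_le_mul_of_nonneg_right h6 ?_
      exact (Real.posLog_nonneg (x := ‖F w‖)).trans (hlow w hw)
  have h5 : Real.circleAverage (fun w => K * (P w).re) 0 ρ ≤
      Real.circleAverage (fun w => K * (φ w + 2 * ε)) 0 ρ := by
    refine Real.circleAverage_mono ?_ ?_ ?_
    · exact (continuousOn_const.mul hPc).circleIntegrable hρ.le
    · exact (continuousOn_const.mul (hφ.add continuousOn_const)).circleIntegrable hρ.le
    · intro w hw
      rw [abs_of_pos hρ] at hw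
      exact mul_le_mul_of_nonneg_left (hup w hw) hK0
  have h6 : Real.circleAverage (fun w => K * (φ w + 2 * ε)) 0 ρ = K * (Tc F ρ + 2 * ε) := by
    have h7 : CircleIntegrable φ 0 ρ := hφ.circleIntegrable hρ.le
    have h8 : CircleIntegrable (fun _ : ℂ => 2 * ε) 0 ρ := circleIntegrable_const _ _ _
    have h9 := Real.circleAverage_fun_add h7 h8
    have h10 : Real.circleAverage (fun w => K • (φ w + 2 * ε)) 0 ρ =
        K • Real.circleAverage (fun w => φ w + 2 * ε) 0 ρ := Real.circleAverage_fun_smul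
    rw [smul_eq_mul, h9, Real.circleAverage_const] at h10
    exact h10
  calc Tc (fun w => F (g w)) r ≤ (P (g 0)).re := h1.trans_eq h2
    _ = _ := h3.symm
    _ ≤ _ := h4
    _ ≤ _ := h5
    _ = K * Tc F ρ + K * (2 * ε) := by rw [h6]; ring
    _ ≤ _ := by linarith

theorem Tc_nonneg (F : ℂ → ℂ) (r : ℝ) : 0 ≤ Tc F r :=
  Real.circleAverage_nonneg_of_nonneg fun _ _ => Real.posLog_nonneg

theorem Tc_mono {F : ℂ → ℂ} {r ρ : ℝ} (hr : 0 ≤ r) (hrρ : r < ρ) (hρ1 : ρ < 1)
    (hF : DifferentiableOn ℂ F UD) : Tc F r ≤ Tc F ρ := by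
  have hρ : 0 < ρ := hr.trans_lt hrρ
  have := Tc_comp_le (g := id) hr (hrρ.trans hρ1) hρ hρ1 hF differentiableOn_id
    (fun w hw => closedBall_subset_ball hrρ hw)
  rw [id, norm_zero, add_zero, sub_zero, div_self hρ.ne', one_mul] at this
  exact this

end Pool.Agent.TH730.Adm
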