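import Pool.Agent.TH730.Adm.Mob

/-! # Interpolation in the disc at the points `k / (k + 1)` -/

set_option autoImplicit false

open Complex Metric Set

namespace Pool.Agent.TH730.Adm

/-- The nodes. -/
noncomputable def nd (k : ℕ) : ℂ := (k : ℂ) / (k + 1)

theorem nd_eq (k : ℕ) : nd k = (((k : ℝ) / (k + 1) : ℝ) : ℂ) := by
  unfold nd; push_cast; rfl

theorem norm_nd (k : ℕ) : ‖nd k‖ = (k : ℝ) / (k + 1) := by
  rw [nd_eq, Complex.norm_real, Real.norm_of_nonneg (by positivity)]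

theorem nd_mem (k : ℕ) : nd k ∈ UD := by
  rw [mem_UD, norm_nd, div_lt_one (by positivity)]
  linarith

theorem nd_injective : Function.Injective nd := by
  intro j k h
  unfold nd at h
  have h1 : (j : ℂ) + 1 ≠ 0 := by exact_mod_cast Nat.succ_ne_zero j
  have h2 : (k : ℂ) + 1 ≠ 0 := by exact_mod_cast Nat.succ_ne_zero k
  rw [div_eq_div_iff h1 h2] at h
  have h3 : (j : ℂ) = k := by linear_combination h
  exact_mod_cast h3

theorem interp_step (c : ℕ → ℂ) (n : ℕ) (g : ℂ → ℂ) (hg : Differentiable ℂ g)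
    (hgc : ∀ j < n, g (nd j) = c j) :
    ∃ g' : ℂ → ℂ, Differentiable ℂ g' ∧ (∀ j < n + 1, g' (nd j) = c j) ∧
      ∀ z : ℂ, ‖z‖ ≤ ((n : ℝ) - 1) / (n + 1) → ‖g' z - g z‖ ≤ (1 / 2) ^ n := by
  let P : ℂ → ℂ := fun z => ∏ j ∈ Finset.range n, (z - nd j)
  let E : ℂ → ℂ := fun z => (1 + z) / (1 + nd n)
  have hPd : Differentiable ℂ P := by
    intro z
    exact DifferentiableAt.fun_finsetProd fun j _ => by fun_prop
  have hPn : P (nd n) ≠ 0 := by
    refine Finset.prod_ne_zero_iff.2 fun j hj => ?_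
    rw [sub_ne_zero]
    intro h
    have := nd_injective h
    rw [Finset.mem_range] at hj
    omega
  have hxr : (1 + nd n : ℂ) = ((1 + (n : ℝ) / (n + 1) : ℝ) : ℂ) := by
    rw [nd_eq]; push_cast; rfl
  have hx0 : (1 + nd n : ℂ) ≠ 0 := by
    rw [hxr]
    have : (0 : ℝ) < 1 + (n : ℝ) / (n + 1) := by positivity
    exact_mod_cast this.ne'
  have hEn : E (nd n) = 1 := div_self hx0
  set a : ℂ := (c n - g (nd n)) / P (nd n) with ha
  set θ : ℝ := (1 + ((n : ℝ) - 1) / (n + 1)) / (1 + (n : ℝ) / (n + 1)) with hθ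
  have hn1 : (0 : ℝ) < n + 1 := by positivity
  have hθ0 : 0 ≤ θ := by
    apply div_nonneg
    · have : 1 + ((n : ℝ) - 1) / (n + 1) = 2 * n / (n + 1) := by field_simp; ring
      rw [this]; positivity
    · positivity
  have hθ1 : θ < 1 := by
    rw [hθ, div_lt_one (by positivity)]
    have : ((n : ℝ) - 1) / (n + 1) < (n : ℝ) / (n + 1) := by
      apply div_lt_div_of_pos_right _ hn1
      linarith
    linarith
  obtain ⟨m, hm⟩ : ∃ m : ℕ, ‖a‖ * 2 ^ n * θ ^ m ≤ (1 / 2) ^ n := by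
    have hlim : Filter.Tendsto (fun m : ℕ => ‖a‖ * 2 ^ n * θ ^ m) Filter.atTop
        (nhds (‖a‖ * 2 ^ n * 0)) :=
      (tendsto_pow_atTop_nhds_zero_of_lt_one hθ0 hθ1).const_mul _
    rw [mul_zero] at hlim
    have := hlim.eventually_le_const (show (0 : ℝ) < (1 / 2) ^ n by positivity)
    exact this.exists
  refine ⟨fun z => g z + a * P z * E z ^ m, ?_, ?_, ?_⟩
  · have hE : Differentiable ℂ E := by
      simp only [E]
      fun_prop
    exact hg.add (((differentiable_const _).mul hPd).mul (hE.pow m))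
  · intro j hj
    rcases Nat.lt_succ_iff_lt_or_eq.1 hj with h | h
    · have h1 : P (nd j) = 0 := by
        apply Finset.prod_eq_zero (Finset.mem_range.2 h)
        rw [sub_self]
      simp only [h1, mul_zero, zero_mul, add_zero]
      exact hgc j h
    · subst h
      simp only [hEn, one_pow, mul_one]
      rw [ha, div_mul_cancel₀ _ hPn]
      ring
  · intro z hz
    simp only [add_sub_cancel_left]
    have hz1 : ‖z‖ ≤ 1 := by
      refine hz.trans ?_
      rw [div_le_one hn1]; linarith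
    have h1 : ‖P z‖ ≤ 2 ^ n := by
      simp only [P]
      rw [norm_prod]
      calc ∏ j ∈ Finset.range n, ‖z - nd j‖ ≤ ∏ j ∈ Finset.range n, (2 : ℝ) := by
            refine Finset.prod_le_prod (fun _ _ => norm_nonneg _) fun j _ => ?_
            have h2 := mem_UD.1 (nd_mem j)
            calc ‖z - nd j‖ ≤ ‖z‖ + ‖nd j‖ := norm_sub_le _ _
              _ ≤ 2 := by linarith
        _ = 2 ^ n := by simp
    have h2 : ‖E z‖ ≤ θ := by
      simp only [E]
      rw [norm_div, hxr, Complex.norm_real, Real.norm_of_nonneg (by positivity), hθ]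
      gcongr
      calc ‖1 + z‖ ≤ ‖(1 : ℂ)‖ + ‖z‖ := norm_add_le _ _
        _ ≤ _ := by rw [norm_one]; linarith
    calc ‖a * P z * E z ^ m‖ = ‖a‖ * ‖P z‖ * ‖E z‖ ^ m := by rw [norm_mul, norm_mul, norm_pow]
      _ ≤ ‖a‖ * 2 ^ n * θ ^ m := by gcongr
      _ ≤ _ := hm

theorem interpolation (c : ℕ → ℂ) :
    ∃ F : ℂ → ℂ, DifferentiableOn ℂ F UD ∧ ∀ k, F (nd k) = c k := by
  classical
  -- the sequence of finite sums
  let St (n : ℕ) : Type := {g : ℂ → ℂ // Differentiable ℂ g ∧ ∀ j < n, g (nd j) = c j}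
  have hstep : ∀ (n : ℕ) (g : St n), ∃ g' : St (n + 1),
      ∀ z : ℂ, ‖z‖ ≤ ((n : ℝ) - 1) / (n + 1) → ‖g'.1 z - g.1 z‖ ≤ (1 / 2) ^ n := by
    intro n g
    obtain ⟨g', h1, h2, h3⟩ := interp_step c n g.1 g.2.1 g.2.2
    exact ⟨⟨g', h1, h2⟩, h3⟩
  choose nxt hnxt using hstep
  let G : (n : ℕ) → St n := fun n => Nat.rec (⟨fun _ => 0, differentiable_const _,
    fun j hj => (Nat.not_lt_zero j hj).elim⟩ : St 0) (fun n g => nxt n g) n
  let g : ℕ → ℂ → ℂ := fun n => (G n).1
  have hg0 : ∀ z, g 0 z = 0 := fun z => rfl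
  have hgd : ∀ n, Differentiable ℂ (g n) := fun n => (G n).2.1
  have hgc : ∀ n, ∀ j < n, g n (nd j) = c j := fun n => (G n).2.2
  have hgn : ∀ n : ℕ, ∀ z : ℂ, ‖z‖ ≤ ((n : ℝ) - 1) / (n + 1) → ‖g (n + 1) z - g n z‖ ≤ (1 / 2) ^ n :=
    fun n => hnxt n (G n)
  let d : ℕ → ℂ → ℂ := fun n z => g (n + 1) z - g n z
  have hdd : ∀ n, Differentiable ℂ (d n) := fun n => (hgd (n + 1)).sub (hgd n)
  -- eventually the estimate holds on a given ball
  have hev : ∀ r : ℝ, r < 1 → ∃ n0 : ℕ, ∀ n ≥ n0, r ≤ ((n : ℝ) - 1) / (n + 1) := by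
    intro r hr
    obtain ⟨n0, hn0⟩ := exists_nat_gt ((1 + r) / (1 - r))
    refine ⟨n0, fun n hn => ?_⟩
    have h1 : (0 : ℝ) < 1 - r := by linarith
    rw [le_div_iff₀ (by positivity)]
    have h2 : (n0 : ℝ) ≤ n := by exact_mod_cast hn
    rw [div_lt_iff₀ h1] at hn0
    nlinarith
  have hsum : ∀ z ∈ UD, Summable fun n => d n z := by
    intro z hz
    obtain ⟨n0, hn0⟩ := hev ‖z‖ (mem_UD.1 hz)
    rw [← summable_nat_add_iff n0]
    refine Summable.of_norm_bounded (g := fun n => (1 / 2 : ℝ) ^ n)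
      (summable_geometric_of_lt_one (by norm_num) (by norm_num)) fun n => ?_
    refine (hgn (n + n0) z (hn0 _ (Nat.le_add_left _ _))).trans ?_
    exact pow_le_pow_of_le_one (by norm_num) (by norm_num) (Nat.le_add_right _ _)
  refine ⟨fun z => ∑' n, d n z, ?_, ?_⟩
  · intro z hz
    obtain ⟨r, hr1, hr2⟩ := exists_between (mem_UD.1 hz)
    obtain ⟨n0, hn0⟩ := hev r hr2
    have hU : IsOpen (ball (0 : ℂ) r) := isOpen_ball
    have h1 : DifferentiableOn ℂ (fun z => ∑' n, d (n + n0) z) (ball (0 : ℂ) r) := by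
      refine differentiableOn_tsum_of_summable_norm (u := fun n => (1 / 2 : ℝ) ^ n)
        (summable_geometric_of_lt_one (by norm_num) (by norm_num))
        (fun n => (hdd _).differentiableOn) hU fun n w hw => ?_
      rw [mem_ball_zero_iff] at hw
      refine (hgn (n + n0) w (hw.le.trans (hn0 _ (Nat.le_add_left _ _)))).trans ?_
      exact pow_le_pow_of_le_one (by norm_num) (by norm_num) (Nat.le_add_right _ _)
    have h2 : DifferentiableOn ℂ (fun z => ∑ n ∈ Finset.range n0, d n z) (ball (0 : ℂ) r) :=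
      DifferentiableOn.fun_sum fun n _ => (hdd n).differentiableOn
    have h3 : DifferentiableOn ℂ (fun z => ∑' n, d n z) (ball (0 : ℂ) r) := by
      refine (h2.add h1).congr fun w hw => ?_
      have hwU : w ∈ UD := ball_subset_ball hr2.le hw
      exact ((hsum w hwU).sum_add_tsum_nat_add n0).symm
    exact (h3.differentiableAt (hU.mem_nhds (by rwa [mem_ball_zero_iff]))).differentiableWithinAt
  · intro k
    have h1 : ∀ n ∉ Finset.range (k + 1), d n (nd k) = 0 := by
      intro n hn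
      rw [Finset.mem_range, not_lt] at hn
      simp only [d]
      rw [hgc (n + 1) k (by omega), hgc n k (by omega), sub_self]
    show ∑' n, d n (nd k) = c k
    rw [tsum_eq_sum h1]
    have h2 : ∑ n ∈ Finset.range (k + 1), d n (nd k) = g (k + 1) (nd k) - g 0 (nd k) :=
      Finset.sum_range_sub (fun n => g n (nd k)) (k + 1)
    rw [h2, hg0, sub_zero, hgc (k + 1) k (Nat.lt_succ_self k)]

end Pool.Agent.TH730.Adm
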