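import Pool.Agent.TH730.Adm.Riem

/-! # The growth condition is expressed in the ring -/

set_option autoImplicit false

open Complex Metric Set

namespace Pool.Agent.TH730.Adm

/-- Nonadmissibility. -/
def NA (f : HD) : Prop := ∃ z, Co z ∧ NB z f

theorem one_sub_coord {z : HD} (hz : ∀ a ∈ UD, z.1 a ∈ UD) {ζ : ℂ} (hζ : ζ ∈ UD) :
    (1 - ‖z.1 0‖) / 8 * (1 - ‖ζ‖) ≤ 1 - ‖z.1 ζ‖ := by
  set a0 := z.1 0 with ha0
  have h0 : a0 ∈ UD := hz 0 zero_mem_UD
  have hneg := neg_mem_UD h0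
  let h : ℂ → ℂ := fun w => mob (-a0) (z.1 w)
  have hd : DifferentiableOn ℂ h UD :=
    DifferentiableOn.comp (mob_diff hneg) z.diff (fun a ha => hz a ha)
  have hm : MapsTo h UD UD := fun a ha => mob_mem hneg (hz a ha)
  have hh0 : h 0 = 0 := by
    show mob (-a0) (z.1 0) = 0
    rw [← ha0]
    unfold mob
    simp
  have h1 : ‖h ζ‖ ≤ ‖ζ‖ := by
    have hm' : MapsTo h (ball 0 1) (closedBall (h 0) 1) := by
      rw [hh0]
      exact fun a ha => ball_subset_closedBall (hm ha)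
    have := Complex.dist_le_dist_of_mapsTo_ball hd hm' hζ
    rwa [hh0, dist_zero_right, dist_zero_right] at this
  have h2 : mob a0 (h ζ) = z.1 ζ := mob_mob_neg h0 (hz ζ hζ)
  have h3 := one_sub_mob h0 (hm hζ)
  rw [h2] at h3
  refine le_trans ?_ h3
  have h4 : ‖a0‖ < 1 := mem_UD.1 h0
  have : 0 ≤ (1 - ‖a0‖) / 8 := by linarith
  exact mul_le_mul_of_nonneg_left (by linarith) this

theorem bigO_of_NA {f : HD} (h : NA f) :
    Asymptotics.IsBigO (nhdsWithin (1 : ℝ) (Iio 1)) (fun r : ℝ => Tc f.1 r)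
      (fun r : ℝ => Real.log (1 - r)⁻¹) := by
  obtain ⟨z, hCo, hNB⟩ := h
  obtain ⟨ψ, hz⟩ := Coord_of_Co hCo
  obtain ⟨c, hc⟩ := (NB_iff hz f).1 hNB
  have hFd : DifferentiableOn ℂ (fun w => f.1 (ψ w)) UD :=
    DifferentiableOn.comp f.diff hz.psi_diff (fun w hw => hz.psi_maps w hw)
  have hb : ‖z.1 0‖ < 1 := mem_UD.1 (hz.maps 0 zero_mem_UD)
  set b : ℝ := ‖z.1 0‖ with hbdef
  have hb0 : 0 ≤ b := norm_nonneg _
  set κ : ℝ := (1 - b) / 8 with hκ
  have hκ0 : 0 < κ := by rw [hκ]; linarith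
  have hκ1 : κ ≤ 1 / 8 := by rw [hκ]; linarith
  set K0 : ℝ := 2 / (7 * κ) with hK0
  have hK0' : 0 < K0 := by positivity
  apply Asymptotics.IsBigO.of_bound (K0 * c * 2)
  have hev : ∀ᶠ r : ℝ in nhdsWithin (1 : ℝ) (Iio 1), r ∈ Ioo (1 - κ / 2) 1 := by
    apply Ioo_mem_nhdsLT
    linarith
  filter_upwards [hev] with r hr
  obtain ⟨hr1, hr2⟩ := hr
  have hr0 : 0 < r := by linarith
  have h1r : 0 < 1 - r := by linarith
  have hκr : 0 < κ * (1 - r) := by positivity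
  -- the radius
  obtain ⟨k, hkl, hku⟩ : ∃ k : ℕ, 1 / (κ * (1 - r)) < (k : ℝ) + 1 ∧
      (k : ℝ) + 1 ≤ 1 / (κ * (1 - r)) + 1 := by
    refine ⟨⌊1 / (κ * (1 - r))⌋₊, Nat.lt_floor_add_one _, ?_⟩
    have := Nat.floor_le (show 0 ≤ 1 / (κ * (1 - r)) by positivity)
    linarith
  have hbig : 1 ≤ 1 / (κ * (1 - r)) := by
    rw [le_div_iff₀ hκr]
    nlinarith
  have hk1 : 1 ≤ k := by
    have h2 : (1 : ℝ) < k + 1 := lt_of_le_of_lt hbig hkl
    have h3 : (0 : ℝ) < k := by linarith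
    exact_mod_cast h3
  have hkpos : (0 : ℝ) < k + 1 := by positivity
  set ρ : ℝ := (k : ℝ) / (k + 1) with hρ
  have hρeq : ρ = 1 - 1 / (k + 1) := by
    rw [hρ]
    field_simp
    ring
  have hinv : 1 / ((k : ℝ) + 1) < κ * (1 - r) := by
    rw [div_lt_iff₀ hkpos]
    rw [div_lt_iff₀ hκr] at hkl
    linarith
  have hρ0 : 0 < ρ := by
    have : (1 : ℝ) ≤ k := by exact_mod_cast hk1
    positivity
  have hρ1 : ρ < 1 := by
    rw [hρeq]
    have : 0 < 1 / ((k : ℝ) + 1) := by positivity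
    linarith
  have hmaps : MapsTo z.1 (closedBall 0 r) (ball 0 ρ) := by
    intro ζ hζ
    rw [mem_closedBall_zero_iff] at hζ
    rw [mem_ball_zero_iff]
    have hζ1 : ζ ∈ UD := mem_UD.2 (by linarith)
    have h2 := one_sub_coord hz.maps hζ1
    rw [← hbdef, ← hκ] at h2
    have h3 : κ * (1 - r) ≤ κ * (1 - ‖ζ‖) := by
      apply mul_le_mul_of_nonneg_left _ hκ0.le
      linarith
    rw [hρeq]
    linarith
  have hle := Tc_comp_le hr0.le hr2 hρ0 hρ1 hFd z.diff hmaps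
  have heq : Tc (fun w => f.1 (ψ (z.1 w))) r = Tc f.1 r := by
    apply Real.circleAverage_congr_sphere
    intro w hw
    have hwU : w ∈ UD := by
      rw [abs_of_pos hr0, mem_sphere_zero_iff_norm] at hw
      rw [mem_UD, hw]
      exact hr2
    show Real.posLog ‖f.1 (ψ (z.1 w))‖ = Real.posLog ‖f.1 w‖
    rw [hz.left_inv w hwU]
  rw [heq, ← hbdef] at hle
  have hKle : (ρ + b) / (ρ - b) ≤ K0 := by
    have h2 : 7 * κ ≤ ρ - b := by
      rw [hρeq]
      have h3 : κ * (1 - r) ≤ κ := by nlinarith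
      have h4 : 8 * κ = 1 - b := by rw [hκ]; ring
      linarith
    rw [hK0]
    have h3 : 0 < 7 * κ := by positivity
    exact div_le_div₀ (by norm_num) (by linarith) h3 h2
  have hT := hc k hk1
  have hlog : Real.log (k + 1) ≤ 2 * Real.log (1 - r)⁻¹ := by
    have h2 : (k : ℝ) + 1 ≤ ((1 - r)⁻¹) ^ 2 := by
      refine hku.trans ?_
      have h3 : 1 / (κ * (1 - r)) + 1 ≤ 2 / (κ * (1 - r)) := by
        have : 2 / (κ * (1 - r)) = 1 / (κ * (1 - r)) + 1 / (κ * (1 - r)) := by ring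
        rw [this]; linarith
      refine h3.trans ?_
      rw [div_le_iff₀ hκr, inv_pow]
      have h4 : ((1 - r) ^ 2)⁻¹ * (κ * (1 - r)) = κ / (1 - r) := by field_simp
      rw [h4, le_div_iff₀ h1r]
      linarith
    calc Real.log (k + 1) ≤ Real.log (((1 - r)⁻¹) ^ 2) := Real.log_le_log hkpos h2
      _ = 2 * Real.log (1 - r)⁻¹ := by rw [Real.log_pow]; norm_num
  have hlogk : 0 ≤ Real.log (k + 1) := Real.log_nonneg (by
    have : (0 : ℝ) ≤ k := by positivity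
    linarith)
  have hlogr : 0 ≤ Real.log (1 - r)⁻¹ := by linarith
  rw [Real.norm_of_nonneg (Tc_nonneg _ _), Real.norm_of_nonneg hlogr]
  calc Tc f.1 r ≤ (ρ + b) / (ρ - b) * Tc (fun w => f.1 (ψ w)) ρ := hle
    _ ≤ K0 * Tc (fun w => f.1 (ψ w)) ρ := mul_le_mul_of_nonneg_right hKle (Tc_nonneg _ _)
    _ ≤ K0 * (c * Real.log (k + 1)) := mul_le_mul_of_nonneg_left hT hK0'.le
    _ ≤ K0 * (c * (2 * Real.log (1 - r)⁻¹)) := by gcongr
    _ = _ := by ring

theorem NA_of_bigO {f : HD}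
    (h : Asymptotics.IsBigO (nhdsWithin (1 : ℝ) (Iio 1)) (fun r : ℝ => Tc f.1 r)
      (fun r : ℝ => Real.log (1 - r)⁻¹)) : NA f := by
  refine ⟨Xa 0, Co_id, (NB_iff Coord_id f).2 ?_⟩
  obtain ⟨C, hC0, hC⟩ := h.exists_pos
  rw [Asymptotics.isBigOWith_iff] at hC
  obtain ⟨r0, hr0, hr0'⟩ := (mem_nhdsLT_iff_exists_Ioo_subset (a := (1 : ℝ))).1 hC
  rw [mem_Iio] at hr0
  obtain ⟨k0, hk0⟩ := exists_nat_gt (1 / (1 - r0))
  have h1r : 0 < 1 - r0 := by linarith
  have hk0pos : (0 : ℝ) < k0 := lt_trans (by positivity) hk0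
  have hk01 : 1 ≤ k0 := by exact_mod_cast hk0pos
  have hlt1 : ∀ k : ℕ, (k : ℝ) / (k + 1) < 1 := fun k => by
    rw [div_lt_one (by positivity)]; linarith
  have hge0 : ∀ k : ℕ, (0 : ℝ) ≤ (k : ℝ) / (k + 1) := fun k => by positivity
  have hbig : ∀ k : ℕ, k0 ≤ k → Tc f.1 ((k : ℝ) / (k + 1)) ≤ C * Real.log (k + 1) := by
    intro k hk
    have hk' : (k0 : ℝ) ≤ k := by exact_mod_cast hk
    have h1 : r0 < (k : ℝ) / (k + 1) := by
      have h2 : (k : ℝ) / (k + 1) = 1 - 1 / (k + 1) := by field_simp; ring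
      rw [h2]
      have h3 : 1 / ((k : ℝ) + 1) < 1 - r0 := by
        rw [div_lt_iff₀ (by positivity)]
        rw [div_lt_iff₀ h1r] at hk0
        nlinarith
      linarith
    have h2 := hr0' ⟨h1, hlt1 k⟩
    simp only [mem_ofPred_eq] at h2
    have h3 : (1 - (k : ℝ) / (k + 1))⁻¹ = k + 1 := by
      have : (0 : ℝ) < k + 1 := by positivity
      have h4 : 1 - (k : ℝ) / (k + 1) = 1 / (k + 1) := by field_simp; ring
      rw [h4, one_div, inv_inv]
    rw [h3, Real.norm_of_nonneg (Tc_nonneg _ _), Real.norm_of_nonneg (Real.log_nonneg (by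
      have : (0 : ℝ) ≤ k := by positivity
      linarith))] at h2
    exact h2
  have hlog2 : 0 < Real.log 2 := Real.log_pos (by norm_num)
  set A : ℝ := Real.log (k0 + 1) / Real.log 2 with hA
  have hlogk0 : Real.log 2 ≤ Real.log (k0 + 1) := by
    apply Real.log_le_log (by norm_num)
    have : (1 : ℝ) ≤ k0 := by exact_mod_cast hk01
    linarith
  have hA1 : 1 ≤ A := by
    rw [hA, one_le_div hlog2]
    exact hlogk0
  obtain ⟨c, hc⟩ := exists_nat_ge (C * A)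
  refine ⟨c, fun k hk => ?_⟩
  show Tc f.1 ((k : ℝ) / (k + 1)) ≤ c * Real.log (k + 1)
  have hk' : (1 : ℝ) ≤ k := by exact_mod_cast hk
  have hlogk : Real.log 2 ≤ Real.log (k + 1) := by
    apply Real.log_le_log (by norm_num)
    linarith
  rcases le_or_gt k0 k with hkk | hkk
  · refine (hbig k hkk).trans ?_
    apply mul_le_mul_of_nonneg_right _ (by linarith)
    nlinarith
  · have hkk' : (k : ℝ) < k0 := by exact_mod_cast hkk
    have h1 : (k : ℝ) / (k + 1) < (k0 : ℝ) / (k0 + 1) := by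
      rw [div_lt_div_iff₀ (by positivity) (by positivity)]
      linarith
    refine (Tc_mono (hge0 k) h1 (hlt1 k0) f.diff).trans ?_
    refine (hbig k0 le_rfl).trans ?_
    have h2 : C * Real.log (k0 + 1) = C * A * Real.log 2 := by
      rw [hA]; field_simp
    rw [h2]
    calc C * A * Real.log 2 ≤ c * Real.log 2 := mul_le_mul_of_nonneg_right hc hlog2.le
      _ ≤ c * Real.log (k + 1) := mul_le_mul_of_nonneg_left hlogk (by positivity)

theorem NA_iff (f : HD) :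
    NA f ↔ Asymptotics.IsBigO (nhdsWithin (1 : ℝ) (Iio 1))
      (fun r : ℝ => (2 * Real.pi)⁻¹ *
        ∫ θ in (0:ℝ)..(2 * Real.pi),
          Real.posLog ‖(f : ℂ → ℂ) ((r : ℂ) * Complex.exp ((θ : ℂ) * Complex.I))‖)
      (fun r : ℝ => Real.log (1 - r)⁻¹) := by
  have h : (fun r : ℝ => (2 * Real.pi)⁻¹ *
        ∫ θ in (0:ℝ)..(2 * Real.pi),
          Real.posLog ‖(f : ℂ → ℂ) ((r : ℂ) * Complex.exp ((θ : ℂ) * Complex.I))‖) =
      fun r : ℝ => Tc f.1 r := by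
    funext r
    unfold Tc
    rw [Real.circleAverage_def, smul_eq_mul]
    simp only [circleMap, zero_add]
  rw [h]
  exact ⟨bigO_of_NA, NA_of_bigO⟩

end Pool.Agent.TH730.Adm
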