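import Pool.Agent.TH730.Adm.Ring

/-! # Automorphisms of the disc -/

set_option autoImplicit false

open Complex Metric Set
open scoped ComplexConjugate

namespace Pool.Agent.TH730.Adm

/-- The automorphism of the disc with `0 ↦ a`. -/
noncomputable def mob (a z : ℂ) : ℂ := (z + a) / (1 + conj a * z)

theorem mem_UD {z : ℂ} : z ∈ UD ↔ ‖z‖ < 1 := mem_ball_zero_iff

theorem mob_den {a z : ℂ} (ha : ‖a‖ < 1) (hz : ‖z‖ < 1) : 1 + conj a * z ≠ 0 := by
  intro h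
  have h1 : ‖conj a * z‖ = 1 := by
    have : conj a * z = -1 := by linear_combination h
    rw [this, norm_neg, norm_one]
  rw [norm_mul, Complex.norm_conj] at h1
  nlinarith [norm_nonneg a, norm_nonneg z]

theorem mob_normSq (a z : ℂ) : Complex.normSq (1 + conj a * z) - Complex.normSq (z + a) =
    (1 - Complex.normSq a) * (1 - Complex.normSq z) := by
  simp only [Complex.normSq_apply, Complex.add_re, Complex.add_im, Complex.mul_re, Complex.mul_im,
    Complex.conj_re, Complex.conj_im, Complex.one_re, Complex.one_im]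
  ring

theorem mob_norm_lt {a z : ℂ} (ha : ‖a‖ < 1) (hz : ‖z‖ < 1) : ‖mob a z‖ < 1 := by
  rw [mob, norm_div, div_lt_one (norm_pos_iff.2 (mob_den ha hz))]
  have h1 := mob_normSq a z
  have h2 : 0 < (1 - Complex.normSq a) * (1 - Complex.normSq z) := by
    rw [Complex.normSq_eq_norm_sq, Complex.normSq_eq_norm_sq]
    have h3 : ‖a‖ ^ 2 < 1 := by nlinarith [norm_nonneg a]
    have h4 : ‖z‖ ^ 2 < 1 := by nlinarith [norm_nonneg z]
    exact mul_pos (by linarith) (by linarith)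
  rw [← h1, Complex.normSq_eq_norm_sq, Complex.normSq_eq_norm_sq] at h2
  exact lt_of_pow_lt_pow_left₀ 2 (norm_nonneg _) (by linarith)

theorem mob_mem {a z : ℂ} (ha : a ∈ UD) (hz : z ∈ UD) : mob a z ∈ UD :=
  mem_UD.2 (mob_norm_lt (mem_UD.1 ha) (mem_UD.1 hz))

theorem mob_zero (a : ℂ) : mob a 0 = a := by simp [mob]

theorem neg_mem_UD {a : ℂ} (ha : a ∈ UD) : -a ∈ UD := by
  rw [mem_UD, norm_neg]; exact mem_UD.1 ha

theorem mob_neg_mob {a z : ℂ} (ha : a ∈ UD) (hz : z ∈ UD) : mob (-a) (mob a z) = z := by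
  have h1 := mob_den (mem_UD.1 ha) (mem_UD.1 hz)
  have h2 := mob_den (mem_UD.1 (neg_mem_UD ha)) (mem_UD.1 (mob_mem ha hz))
  have e : mob a z * (1 + conj a * z) = z + a := div_mul_cancel₀ _ h1
  rw [show mob (-a) (mob a z) = (mob a z + -a) / (1 + conj (-a) * mob a z) from rfl,
    div_eq_iff h2]
  apply mul_right_cancel₀ h1
  rw [map_neg]
  linear_combination (1 + z * conj a) * e

theorem mob_mob_neg {a z : ℂ} (ha : a ∈ UD) (hz : z ∈ UD) : mob a (mob (-a) z) = z := by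
  have := mob_neg_mob (neg_mem_UD ha) hz
  rwa [neg_neg] at this

theorem mob_diff {a : ℂ} (ha : a ∈ UD) : DifferentiableOn ℂ (mob a) UD := by
  unfold mob
  refine DifferentiableOn.div (by fun_prop) (by fun_prop) ?_
  intro z hz
  exact mob_den (mem_UD.1 ha) (mem_UD.1 hz)

theorem mob_mapsTo {a : ℂ} (ha : a ∈ UD) : MapsTo (mob a) UD UD := fun _ hz => mob_mem ha hz

theorem mob_hasDerivAt_zero (a : ℂ) : HasDerivAt (mob a) (1 - conj a * a) 0 := by
  have h1 : HasDerivAt (fun z : ℂ => z + a) 1 0 := (hasDerivAt_id 0).add_const a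
  have h2 : HasDerivAt (fun z : ℂ => 1 + conj a * z) (conj a * 1) 0 :=
    ((hasDerivAt_id 0).const_mul (conj a)).const_add 1
  have h3 := h1.div h2 (by simp)
  have h4 : ((1 : ℂ) * (1 + conj a * 0) - (0 + a) * (conj a * 1)) / (1 + conj a * 0) ^ 2 =
      1 - conj a * a := by
    simp only [mul_zero, add_zero, mul_one, zero_add, one_pow, div_one]
    ring
  rw [h4] at h3
  exact h3

/-- The pseudo-hyperbolic distance. -/
noncomputable def ph (a c : ℂ) : ℝ := ‖mob (-a) c‖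

theorem ph_nonneg (a c : ℂ) : 0 ≤ ph a c := norm_nonneg _

theorem ph_lt_one {a c : ℂ} (ha : a ∈ UD) (hc : c ∈ UD) : ph a c < 1 :=
  mob_norm_lt (mem_UD.1 (neg_mem_UD ha)) (mem_UD.1 hc)

theorem ph_comm {a c : ℂ} : ph a c = ph c a := by
  unfold ph mob
  rw [norm_div, norm_div]
  congr 1
  · rw [← norm_neg]; congr 1; ring
  · rw [← Complex.norm_conj]
    congr 1
    simp
    ring

theorem ph_mob {a z : ℂ} (ha : a ∈ UD) (hz : z ∈ UD) : ph a (mob a z) = ‖z‖ := by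
  rw [ph, mob_neg_mob ha hz]

/-- Lower bound for the distance to the boundary. -/
theorem one_sub_mob {a z : ℂ} (ha : a ∈ UD) (hz : z ∈ UD) :
    (1 - ‖a‖) / 8 * (1 - ‖z‖) ≤ 1 - ‖mob a z‖ := by
  have ha' := mem_UD.1 ha
  have hz' := mem_UD.1 hz
  have hden := norm_pos_iff.2 (mob_den ha' hz')
  have h1 := mob_normSq a z
  simp only [Complex.normSq_eq_norm_sq] at h1
  have h2 : ‖1 + conj a * z‖ ≤ 2 := by
    calc ‖1 + conj a * z‖ ≤ ‖(1 : ℂ)‖ + ‖conj a * z‖ := norm_add_le _ _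
      _ = 1 + ‖a‖ * ‖z‖ := by rw [norm_one, norm_mul, Complex.norm_conj]
      _ ≤ 2 := by nlinarith [norm_nonneg a, norm_nonneg z]
  have h3 : 1 - ‖mob a z‖ ^ 2 = (1 - ‖a‖ ^ 2) * (1 - ‖z‖ ^ 2) / ‖1 + conj a * z‖ ^ 2 := by
    rw [mob, norm_div, div_pow, ← h1, sub_div, div_self (by positivity)]
  have h4 : ‖mob a z‖ < 1 := mob_norm_lt ha' hz'
  have h5 : (1 - ‖a‖) * (1 - ‖z‖) ≤ (1 - ‖a‖ ^ 2) * (1 - ‖z‖ ^ 2) := by
    have e1 : 1 - ‖a‖ ≤ 1 - ‖a‖ ^ 2 := by nlinarith [norm_nonneg a]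
    have e2 : 1 - ‖z‖ ≤ 1 - ‖z‖ ^ 2 := by nlinarith [norm_nonneg z]
    exact mul_le_mul e1 e2 (by linarith) (by nlinarith [norm_nonneg a])
  have h6 : (1 - ‖a‖) * (1 - ‖z‖) / 4 ≤ 1 - ‖mob a z‖ ^ 2 := by
    rw [h3, div_le_div_iff₀ (by norm_num) (by positivity)]
    have e3 : ‖1 + conj a * z‖ ^ 2 ≤ 4 := by nlinarith [norm_nonneg (1 + conj a * z)]
    have e4 : 0 ≤ (1 - ‖a‖) * (1 - ‖z‖) := mul_nonneg (by linarith) (by linarith)
    nlinarith
  have h7 : 1 - ‖mob a z‖ ^ 2 ≤ 2 * (1 - ‖mob a z‖) := by nlinarith [norm_nonneg (mob a z)]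
  have h8 : (1 - ‖a‖) / 8 * (1 - ‖z‖) = (1 - ‖a‖) * (1 - ‖z‖) / 4 / 2 := by ring
  rw [h8]
  linarith

end Pool.Agent.TH730.Adm
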