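import Pool.Agent.TH730.Adm.Coord
import Pool.Agent.TH730.Adm.Interp

/-! # Coding sequences of constants -/

set_option autoImplicit false

open Complex Metric Set

namespace Pool.Agent.TH730.Adm

/-- `h` takes the value `y` at the point where `z` takes the value `x`. -/
def Ev (z h x y : HD) : Prop := Cn y ∧ In z x ∧ (z - x) ∣ (h - y)

theorem Ev_iff {z : HD} {ψ : ℂ → ℂ} (hz : Coord z ψ) (h x y : HD) :
    Ev z h x y ↔ ∃ ξ ∈ UD, x = Cc ξ ∧ y = Cc (h.1 (ψ ξ)) := by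
  unfold Ev
  rw [hz.In_iff]
  constructor
  · rintro ⟨hy, ⟨ξ, hξ, rfl⟩, hd⟩
    obtain ⟨η, rfl⟩ := (Cn_iff y).1 hy
    rw [hz.dvd ξ hξ, sub_apply', Cc_apply, sub_eq_zero] at hd
    exact ⟨ξ, hξ, rfl, by rw [hd]⟩
  · rintro ⟨ξ, hξ, rfl, rfl⟩
    refine ⟨(Cn_iff _).2 ⟨_, rfl⟩, ⟨ξ, hξ, rfl⟩, ?_⟩
    rw [hz.dvd ξ hξ, sub_apply', Cc_apply, sub_self]

/-- The `k`-th term of the sequence coded by `h` is `y`. -/
def Sq (z h k y : HD) : Prop := ∃ x, (k + 1) * x = k ∧ Ev z h x y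

theorem Cc_add_one_mul {k x : ℂ} : (Cc k + 1) * Cc x = Cc k ↔ (k + 1) * x = k := by
  rw [← Cc_one, ← Cc_add, ← Cc_mul]
  exact Cc_injective.eq_iff

theorem Sq_iff {z : HD} {ψ : ℂ → ℂ} (hz : Coord z ψ) (h : HD) (k : ℕ) (y : HD) :
    Sq z h (k : HD) y ↔ y = Cc (h.1 (ψ (nd k))) := by
  unfold Sq
  rw [← Cc_natCast]
  have hk : (k : ℂ) + 1 ≠ 0 := by exact_mod_cast Nat.succ_ne_zero k
  constructor
  · rintro ⟨x, hx, he⟩
    obtain ⟨ξ, hξ, rfl, rfl⟩ := (Ev_iff hz _ _ _).1 he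
    rw [Cc_add_one_mul] at hx
    have : ξ = nd k := by
      unfold nd
      rw [eq_div_iff hk, mul_comm]
      exact hx
    rw [this]
  · rintro rfl
    refine ⟨Cc (nd k), ?_, (Ev_iff hz _ _ _).2 ⟨nd k, nd_mem k, rfl, rfl⟩⟩
    rw [Cc_add_one_mul]
    unfold nd
    field_simp

/-- Composition with a coordinate. -/
theorem Coord.exists_comp {z : HD} {ψ : ℂ → ℂ} (hz : Coord z ψ) {G : ℂ → ℂ}
    (hG : DifferentiableOn ℂ G UD) : ∃ h : HD, ∀ ξ ∈ UD, h.1 (ψ ξ) = G ξ := by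
  have h1 : DifferentiableOn ℂ (fun a => G (z.1 a)) UD :=
    DifferentiableOn.comp hG z.diff (fun a ha => hz.maps a ha)
  refine ⟨Adm.mk (fun a => G (z.1 a)) h1, fun ξ hξ => ?_⟩
  rw [mk_apply _ (hz.psi_maps ξ hξ), hz.right_inv ξ hξ]

theorem Coord.exists_seq {z : HD} {ψ : ℂ → ℂ} (hz : Coord z ψ) (c : ℕ → ℂ) :
    ∃ h : HD, ∀ k, h.1 (ψ (nd k)) = c k := by
  obtain ⟨F, hF, hFc⟩ := interpolation c
  obtain ⟨h, hh⟩ := hz.exists_comp hF
  exact ⟨h, fun k => by rw [hh _ (nd_mem k), hFc]⟩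

/-- Natural numbers. -/
def Nt (z n : HD) : Prop := Cn n ∧ ∀ h, Sq z h 0 0 → (∀ m, Cn m → Sq z h m 0 → Sq z h (m + 1) 0) →
  Sq z h n 0

theorem one_sub_ne {w : ℂ} (hw : w ∈ UD) : 1 - w ≠ 0 := by
  intro h
  rw [mem_UD, ← sub_eq_zero.1 h, norm_one] at hw
  exact lt_irrefl _ hw

theorem Nt_iff {z : HD} {ψ : ℂ → ℂ} (hz : Coord z ψ) (n : HD) :
    Nt z n ↔ ∃ k : ℕ, n = (k : HD) := by
  constructor
  · rintro ⟨hn, H⟩
    obtain ⟨ν, rfl⟩ := (Cn_iff n).1 hn
    have hG : DifferentiableOn ℂ (fun w : ℂ => Complex.sin (Real.pi * (w / (1 - w)))) UD := by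
      have h1 : DifferentiableOn ℂ (fun w : ℂ => w / (1 - w)) UD :=
        differentiableOn_id.div ((differentiableOn_const _).sub differentiableOn_id)
          fun w hw => one_sub_ne hw
      exact (h1.const_mul _).csin
    obtain ⟨h, hh⟩ := hz.exists_comp hG
    -- the set coded by `h`
    have key : ∀ μ : ℂ, Sq z h (Cc μ) 0 ↔ ∃ k : ℕ, μ = k := by
      intro μ
      constructor
      · rintro ⟨x, hx, he⟩
        obtain ⟨ξ, hξ, rfl, h0⟩ := (Ev_iff hz _ _ _).1 he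
        rw [Cc_add_one_mul] at hx
        rw [← Cc_zero, Cc_injective.eq_iff, hh ξ hξ] at h0
        have hμ : μ + 1 ≠ 0 := by
          intro h1
          rw [h1, zero_mul] at hx
          rw [← hx, zero_add] at h1
          exact one_ne_zero h1
        have h2 : ξ / (1 - ξ) = μ := by
          rw [div_eq_iff (one_sub_ne hξ)]
          linear_combination hx
        rw [h2, eq_comm, Complex.sin_eq_zero_iff] at h0
        obtain ⟨m, hm⟩ := h0
        have h3 : μ = m := by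
          have hpi : (Real.pi : ℂ) ≠ 0 := by exact_mod_cast Real.pi_ne_zero
          have : (Real.pi : ℂ) * μ = Real.pi * m := by rw [hm]; ring
          exact mul_left_cancel₀ hpi this
        have h4 : 0 ≤ m := by
          by_contra hcon
          push Not at hcon
          rw [mem_UD] at hξ
          have h5 : ‖μ + 1‖ * ‖ξ‖ = ‖μ‖ := by rw [← norm_mul, hx]
          have h6 : ‖μ‖ < ‖μ + 1‖ := by
            rw [← h5]
            have : 0 < ‖μ + 1‖ := norm_pos_iff.2 hμ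
            nlinarith
          rw [h3] at h6
          have h7 : ‖(m : ℂ)‖ = |(m : ℝ)| := by
            rw [← Complex.ofReal_intCast, Complex.norm_real, Real.norm_eq_abs]
          have h8 : ‖(m : ℂ) + 1‖ = |(m : ℝ) + 1| := by
            have : (m : ℂ) + 1 = (((m : ℝ) + 1 : ℝ) : ℂ) := by push_cast; rfl
            rw [this, Complex.norm_real, Real.norm_eq_abs]
          rw [h7, h8] at h6
          have h9 : (m : ℝ) ≤ -1 := by exact_mod_cast Int.le_sub_one_of_lt hcon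
          rw [abs_of_nonpos (by linarith), abs_of_nonpos (by linarith)] at h6
          linarith
        obtain ⟨k, rfl⟩ := Int.eq_ofNat_of_zero_le h4
        exact ⟨k, by rw [h3]; simp⟩
      · rintro ⟨k, rfl⟩
        rw [Cc_natCast, Sq_iff hz, hh _ (nd_mem k), ← Cc_zero, Cc_injective.eq_iff, eq_comm,
          Complex.sin_eq_zero_iff]
        refine ⟨k, ?_⟩
        have hk : (k : ℂ) + 1 ≠ 0 := by exact_mod_cast Nat.succ_ne_zero k
        have : nd k / (1 - nd k) = k := by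
          rw [div_eq_iff (one_sub_ne (nd_mem k))]
          unfold nd
          field_simp
          ring
        rw [this]
        push_cast
        ring
    have h00 : Sq z h 0 0 := by
      have := (key 0).2 ⟨0, by simp⟩
      rwa [Cc_zero] at this
    have h1 := H h h00 ?_
    · obtain ⟨k, hk⟩ := (key ν).1 h1
      exact ⟨k, by rw [hk, Cc_natCast]⟩
    · intro m hm hm0
      obtain ⟨μ, rfl⟩ := (Cn_iff m).1 hm
      obtain ⟨k, rfl⟩ := (key μ).1 hm0
      have : Cc (k : ℂ) + 1 = Cc ((k + 1 : ℕ) : ℂ) := by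
        rw [← Cc_one, ← Cc_add]; push_cast; rfl
      rw [this]
      exact (key _).2 ⟨k + 1, rfl⟩
  · rintro ⟨k, rfl⟩
    refine ⟨(Cn_iff _).2 ⟨k, (Cc_natCast k).symm⟩, fun h h0 hs => ?_⟩
    induction k with
    | zero => simpa using h0
    | succ k ih =>
      have := hs (k : HD) ((Cn_iff _).2 ⟨k, (Cc_natCast k).symm⟩) ih
      push_cast
      exact this

theorem natCast_HD_injective {j k : ℕ} (h : (j : HD) = (k : HD)) : j = k := by
  rw [← Cc_natCast, ← Cc_natCast, Cc_injective.eq_iff] at h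
  exact_mod_cast h

theorem natCast_HD_eq_zero {k : ℕ} (h : (k : HD) = 0) : k = 0 :=
  natCast_HD_injective (h.trans Nat.cast_zero.symm)

/-- Powers. -/
def Pw (z x n y : HD) : Prop := ∃ g, Sq z g 0 1 ∧
  (∀ m u, Nt z m → Sq z g m u → Sq z g (m + 1) (x * u)) ∧ Sq z g n y

theorem Pw_iff {z : HD} {ψ : ℂ → ℂ} (hz : Coord z ψ) (x : ℂ) (n : ℕ) (y : HD) :
    Pw z (Cc x) (n : HD) y ↔ y = Cc (x ^ n) := by
  constructor
  · rintro ⟨g, h0, hs, hn⟩
    have key : ∀ k : ℕ, g.1 (ψ (nd k)) = x ^ k := by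
      intro k
      induction k with
      | zero =>
        rw [← Nat.cast_zero, Sq_iff hz, ← Cc_one, Cc_injective.eq_iff] at h0
        rw [pow_zero, h0]
      | succ k ih =>
        have h1 := hs (k : HD) (Cc (g.1 (ψ (nd k)))) ((Nt_iff hz _).2 ⟨k, rfl⟩)
          ((Sq_iff hz _ _ _).2 rfl)
        rw [← Nat.cast_succ, Sq_iff hz, ← Cc_mul, Cc_injective.eq_iff] at h1
        rw [← h1, ih, pow_succ']
    rw [Sq_iff hz, key] at hn
    exact hn
  · rintro rfl
    obtain ⟨g, hg⟩ := hz.exists_seq fun k => x ^ k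
    refine ⟨g, ?_, ?_, ?_⟩
    · rw [← Nat.cast_zero, Sq_iff hz, hg, pow_zero, Cc_one]
    · intro m u hm hu
      obtain ⟨k, rfl⟩ := (Nt_iff hz _).1 hm
      rw [Sq_iff hz] at hu
      rw [← Nat.cast_succ, Sq_iff hz, hu, hg, hg, ← Cc_mul, pow_succ']
    · rw [Sq_iff hz, hg]

theorem Pw_const {z : HD} {ψ : ℂ → ℂ} (hz : Coord z ψ) {x n y : HD} (h : Pw z x n y) :
    ∃ c, x = Cc c := by
  obtain ⟨g, h0, hs, -⟩ := h
  have h1 := hs (0 : HD) 1 ((Nt_iff hz _).2 ⟨0, by simp⟩) h0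
  rw [zero_add, mul_one, ← Nat.cast_one, Sq_iff hz] at h1
  exact ⟨_, h1⟩

/-- `|x| < |y|` for constants. -/
def Lt (z x y : HD) : Prop := ∃ w, In z w ∧ x = w * y ∧ y ≠ 0

theorem Lt_iff {z : HD} {ψ : ℂ → ℂ} (hz : Coord z ψ) (x y : ℂ) :
    Lt z (Cc x) (Cc y) ↔ ‖x‖ < ‖y‖ := by
  unfold Lt
  constructor
  · rintro ⟨w, hw, hx, hy⟩
    obtain ⟨ω, hω, rfl⟩ := (hz.In_iff _).1 hw
    rw [← Cc_mul, Cc_injective.eq_iff] at hx
    rw [← Cc_zero, Ne, Cc_injective.eq_iff] at hy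
    rw [hx, norm_mul]
    rw [mem_UD] at hω
    have := norm_pos_iff.2 hy
    nlinarith
  · intro h
    have hy : y ≠ 0 := by
      rintro rfl
      rw [norm_zero] at h
      exact absurd h (not_lt.2 (norm_nonneg _))
    refine ⟨Cc (x / y), (hz.In_iff _).2 ⟨x / y, ?_, rfl⟩, ?_, ?_⟩
    · rw [mem_UD, norm_div, div_lt_one (norm_pos_iff.2 hy)]
      exact h
    · rw [← Cc_mul, div_mul_cancel₀ _ hy]
    · rw [← Cc_zero, Ne, Cc_injective.eq_iff]
      exact hy

/-- Primitive roots of unity. -/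
def Prim (z ω N : HD) : Prop := Pw z ω N 1 ∧
  ∀ k, Nt z k → k ≠ 0 → (∃ m, Nt z m ∧ m ≠ 0 ∧ k + m = N) → ¬ Pw z ω k 1

theorem Prim_iff {z : HD} {ψ : ℂ → ℂ} (hz : Coord z ψ) (ω : HD) {N : ℕ} (hN : 0 < N) :
    Prim z ω (N : HD) ↔ ∃ w, ω = Cc w ∧ IsPrimitiveRoot w N := by
  constructor
  · rintro ⟨h1, h2⟩
    obtain ⟨w, rfl⟩ := Pw_const hz h1
    refine ⟨w, rfl, IsPrimitiveRoot.mk_of_lt w hN ?_ ?_⟩
    · rw [Pw_iff hz, ← Cc_one, Cc_injective.eq_iff] at h1
      exact h1.symm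
    · intro l hl hlN hwl
      refine h2 (l : HD) ((Nt_iff hz _).2 ⟨l, rfl⟩) ?_ ⟨((N - l : ℕ) : HD),
        (Nt_iff hz _).2 ⟨_, rfl⟩, ?_, ?_⟩ ?_
      · intro h
        have := natCast_HD_eq_zero h
        omega
      · intro h
        have := natCast_HD_eq_zero h
        omega
      · rw [← Nat.cast_add]
        congr 1
        omega
      · rw [Pw_iff hz, hwl, Cc_one]
  · rintro ⟨w, rfl, hw⟩
    refine ⟨?_, ?_⟩
    · rw [Pw_iff hz, hw.pow_eq_one, Cc_one]
    · rintro k hk hk0 ⟨m, hm, hm0, hkm⟩ hp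
      obtain ⟨k, rfl⟩ := (Nt_iff hz _).1 hk
      obtain ⟨m, rfl⟩ := (Nt_iff hz _).1 hm
      rw [← Nat.cast_add] at hkm
      have h3 := natCast_HD_injective hkm
      have h4 : k ≠ 0 := by
        rintro rfl
        exact hk0 (by simp)
      have h5 : m ≠ 0 := by
        rintro rfl
        exact hm0 (by simp)
      rw [Pw_iff hz, ← Cc_one, Cc_injective.eq_iff] at hp
      exact hw.pow_ne_one_of_pos_of_lt h4 (by omega) hp.symm

/-- The product of the values of modulus at least one. -/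
def Pd (z f x ω N s : HD) : Prop := ∃ g, Sq z g 0 1 ∧
  (∀ k u p y, Nt z k → Sq z g k u → Pw z ω k p → Ev z f (x * p) y →
    ((Lt z y 1 → Sq z g (k + 1) u) ∧ (¬ Lt z y 1 → Sq z g (k + 1) (u * y)))) ∧ Sq z g N s

open Classical in
/-- The factor. -/
noncomputable def fac (y : ℂ) : ℂ := if ‖y‖ < 1 then 1 else y

theorem norm_fac (y : ℂ) : ‖fac y‖ = Real.exp (Real.posLog ‖y‖) := by
  classical
  unfold fac
  split_ifs with h
  · rw [norm_one]
    rw [(Real.posLog_eq_zero_iff _).2, Real.exp_zero]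
    rw [abs_of_nonneg (norm_nonneg _)]
    exact h.le
  · push Not at h
    rw [Real.posLog_eq_log, Real.exp_log]
    · linarith
    · rw [abs_of_nonneg (norm_nonneg _)]
      exact h

theorem Pd_iff {z : HD} {ψ : ℂ → ℂ} (hz : Coord z ψ) (f : HD) {x w : ℂ} (hx : x ∈ UD)
    (hw : ‖w‖ = 1) (N : ℕ) (s : HD) :
    Pd z f (Cc x) (Cc w) (N : HD) s ↔
      s = Cc (∏ k ∈ Finset.range N, fac (f.1 (ψ (x * w ^ k)))) := by
  have hxw : ∀ k : ℕ, x * w ^ k ∈ UD := by
    intro k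
    rw [mem_UD, norm_mul, norm_pow, hw, one_pow, mul_one]
    exact mem_UD.1 hx
  constructor
  · rintro ⟨g, h0, hs, hN⟩
    have key : ∀ N : ℕ, g.1 (ψ (nd N)) = ∏ k ∈ Finset.range N, fac (f.1 (ψ (x * w ^ k))) := by
      intro N
      induction N with
      | zero =>
        rw [← Nat.cast_zero, Sq_iff hz, ← Cc_one, Cc_injective.eq_iff] at h0
        rw [Finset.range_zero, Finset.prod_empty, h0]
      | succ k ih =>
        have h1 := hs (k : HD) (Cc (g.1 (ψ (nd k)))) (Cc (w ^ k)) (Cc (f.1 (ψ (x * w ^ k))))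
          ((Nt_iff hz _).2 ⟨k, rfl⟩) ((Sq_iff hz _ _ _).2 rfl) ((Pw_iff hz _ _ _).2 rfl)
          ((Ev_iff hz _ _ _).2 ⟨x * w ^ k, hxw k, by rw [Cc_mul], rfl⟩)
        rw [← Cc_one, Lt_iff hz, norm_one, Cc_one, ← Nat.cast_succ, Sq_iff hz, Sq_iff hz,
          ← Cc_mul, Cc_injective.eq_iff, Cc_injective.eq_iff] at h1
        rw [Finset.prod_range_succ, ← ih]
        by_cases hlt : ‖f.1 (ψ (x * w ^ k))‖ < 1
        · have h2 : fac (f.1 (ψ (x * w ^ k))) = 1 := by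
            unfold fac; rw [if_pos hlt]
          rw [h2, mul_one]
          exact (h1.1 hlt).symm
        · have h2 : fac (f.1 (ψ (x * w ^ k))) = f.1 (ψ (x * w ^ k)) := by
            unfold fac; rw [if_neg hlt]
          rw [h2]
          exact (h1.2 hlt).symm
    rw [Sq_iff hz, key] at hN
    exact hN
  · rintro rfl
    obtain ⟨g, hg⟩ := hz.exists_seq fun n => ∏ k ∈ Finset.range n, fac (f.1 (ψ (x * w ^ k)))
    refine ⟨g, ?_, ?_, ?_⟩
    · rw [← Nat.cast_zero, Sq_iff hz, hg, Finset.range_zero, Finset.prod_empty, Cc_one]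
    · intro k u p y hk hu hp hy
      obtain ⟨k, rfl⟩ := (Nt_iff hz _).1 hk
      rw [Sq_iff hz, hg] at hu
      rw [Pw_iff hz] at hp
      subst hu hp
      rw [← Cc_mul, Ev_iff hz] at hy
      obtain ⟨ξ, hξ, h1, rfl⟩ := hy
      rw [Cc_injective.eq_iff] at h1
      subst h1
      rw [← Cc_one, Lt_iff hz, norm_one, Cc_one, ← Nat.cast_succ, Sq_iff hz, Sq_iff hz, hg,
        ← Cc_mul, Cc_injective.eq_iff, Cc_injective.eq_iff, Finset.prod_range_succ]
      constructor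
      · intro hlt
        have h2 : fac (f.1 (ψ (x * w ^ k))) = 1 := by
          unfold fac; rw [if_pos hlt]
        rw [h2, mul_one]
      · intro hlt
        have h2 : fac (f.1 (ψ (x * w ^ k))) = f.1 (ψ (x * w ^ k)) := by
          unfold fac; rw [if_neg hlt]
        rw [h2]
    · rw [Sq_iff hz, hg]

end Pool.Agent.TH730.Adm
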