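import Pool.Agent.TH730.Adm.Growth
import Pool.Agent.TH730.Adm.Seq

/-! # Sums over roots of unity -/

set_option autoImplicit false

open Complex Metric Set

namespace Pool.Agent.TH730.Adm

theorem sum_prim {N : ℕ} {w v : ℂ} (hw : IsPrimitiveRoot w N) (hv : IsPrimitiveRoot v N)
    (hN : 0 < N) (g : ℂ → ℝ) :
    ∑ k ∈ Finset.range N, g (w ^ k) = ∑ k ∈ Finset.range N, g (v ^ k) := by
  classical
  have key : ∀ w : ℂ, IsPrimitiveRoot w N → ∑ k ∈ Finset.range N, g (w ^ k) =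
      ∑ ζ ∈ Polynomial.nthRootsFinset N (1 : ℂ), g ζ := by
    intro w hw
    have h1 : (Finset.range N).image (fun k => w ^ k) = Polynomial.nthRootsFinset N (1 : ℂ) := by
      apply Finset.eq_of_subset_of_card_le
      · intro ζ hζ
        obtain ⟨k, -, rfl⟩ := Finset.mem_image.1 hζ
        rw [Polynomial.mem_nthRootsFinset hN, ← pow_mul, mul_comm, pow_mul, hw.pow_eq_one, one_pow]
      · rw [Finset.card_image_of_injOn hw.injOn_pow, Finset.card_range, hw.card_nthRootsFinset]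
    rw [← h1, Finset.sum_image hw.injOn_pow]
  rw [key w hw, key v hv]

theorem riemann {φ : ℂ → ℝ} {r : ℝ} (hr : 0 ≤ r) (hφ : ContinuousOn φ (sphere 0 r)) {ε : ℝ}
    (hε : 0 < ε) : ∃ M : ℕ, ∀ N > M, ∀ w : ℂ, IsPrimitiveRoot w N →
      |(∑ k ∈ Finset.range N, φ (r * w ^ k)) - N * Real.circleAverage φ 0 r| ≤ N * ε := by
  let g : ℝ → ℝ := fun θ => φ (circleMap 0 r θ)
  have hg : Continuous g :=
    hφ.comp_continuous (continuous_circleMap 0 r) (fun θ => circleMap_mem_sphere 0 hr θ)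
  have huc : UniformContinuousOn g (Icc 0 (2 * Real.pi)) :=
    isCompact_Icc.uniformContinuousOn_of_continuous hg.continuousOn
  obtain ⟨δ, hδ, hd⟩ := Metric.uniformContinuousOn_iff.1 huc ε hε
  obtain ⟨M, hM⟩ := exists_nat_gt (2 * Real.pi / δ)
  refine ⟨M, fun N hN w hw => ?_⟩
  have hN0 : 0 < N := by omega
  have hNr : (0 : ℝ) < N := by exact_mod_cast hN0
  have hpi := Real.pi_pos
  have hNd : 2 * Real.pi / N < δ := by
    rw [div_lt_iff₀ hδ] at hM
    rw [div_lt_iff₀ hNr]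
    have : (M : ℝ) ≤ N := by exact_mod_cast hN.le
    nlinarith
  let a : ℕ → ℝ := fun k => 2 * Real.pi / N * k
  have ha : ∀ k, a (k + 1) - a k = 2 * Real.pi / N := by
    intro k
    simp only [a]
    push_cast
    ring
  have ha0 : a 0 = 0 := by simp [a]
  have haN : a N = 2 * Real.pi := by
    simp only [a]
    field_simp
  have hint : ∑ k ∈ Finset.range N, ∫ θ in (a k)..(a (k + 1)), g θ = ∫ θ in (0 : ℝ)..(2 * Real.pi), g θ := by
    have := intervalIntegral.sum_integral_adjacent_intervals (f := g) (a := a) (n := N)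
      (μ := MeasureTheory.volume) (fun k _ => hg.intervalIntegrable _ _)
    rw [this, ha0, haN]
  have hpos : 0 < 2 * Real.pi / N := by positivity
  have hpiece : ∀ k ∈ Finset.range N,
      |2 * Real.pi / N * g (a k) - ∫ θ in (a k)..(a (k + 1)), g θ| ≤ ε * (2 * Real.pi / N) := by
    intro k hk
    have h1 : ∫ θ in (a k)..(a (k + 1)), (g (a k) - g θ) =
        2 * Real.pi / N * g (a k) - ∫ θ in (a k)..(a (k + 1)), g θ := by
      rw [intervalIntegral.integral_sub (intervalIntegrable_const) (hg.intervalIntegrable _ _),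
        intervalIntegral.integral_const, ha, smul_eq_mul]
    rw [← h1, ← Real.norm_eq_abs]
    have hle : a k ≤ a (k + 1) := by linarith [ha k]
    refine (intervalIntegral.norm_integral_le_of_norm_le_const (C := ε) fun θ hθ => ?_).trans_eq ?_
    · rw [uIoc_of_le hle] at hθ
      have hk0 : 0 ≤ a k := by
        simp only [a]
        positivity
      have hk1 : a (k + 1) ≤ 2 * Real.pi := by
        rw [← haN]
        simp only [a]
        have : ((k + 1 : ℕ) : ℝ) ≤ N := by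
          rw [Finset.mem_range] at hk
          exact_mod_cast hk
        gcongr
      have h2 := hd (a k) ⟨hk0, hle.trans hk1⟩ θ ⟨by linarith [hθ.1], hθ.2.trans hk1⟩ ?_
      · rw [← dist_eq_norm]
        exact h2.le
      · rw [Real.dist_eq, abs_sub_comm, abs_of_pos (by linarith [hθ.1])]
        linarith [hθ.2, ha k]
    · rw [ha, abs_of_pos hpos]
  have hsum : |∑ k ∈ Finset.range N, (2 * Real.pi / N * g (a k) - ∫ θ in (a k)..(a (k + 1)), g θ)| ≤
      N * (ε * (2 * Real.pi / N)) := by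
    refine (Finset.abs_sum_le_sum_abs _ _).trans ?_
    refine (Finset.sum_le_sum hpiece).trans_eq ?_
    rw [Finset.sum_const, Finset.card_range, nsmul_eq_mul]
  rw [Finset.sum_sub_distrib, hint, ← Finset.mul_sum] at hsum
  have hv := Complex.isPrimitiveRoot_exp N hN0.ne'
  rw [sum_prim hw hv hN0 (fun ζ => φ (r * ζ))]
  have hga : ∀ k, φ (r * Complex.exp (2 * Real.pi * Complex.I / N) ^ k) = g (a k) := by
    intro k
    simp only [g, a, circleMap, zero_add]
    rw [← Complex.exp_nat_mul]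
    congr 3
    push_cast
    ring
  simp only [hga]
  rw [Real.circleAverage_def, smul_eq_mul]
  have h3 : (∑ k ∈ Finset.range N, g (a k)) - N * ((2 * Real.pi)⁻¹ * ∫ θ in (0 : ℝ)..(2 * Real.pi), g θ) =
      N / (2 * Real.pi) * (2 * Real.pi / N * (∑ k ∈ Finset.range N, g (a k)) -
        ∫ θ in (0 : ℝ)..(2 * Real.pi), g θ) := by
    field_simp
  show |(∑ k ∈ Finset.range N, g (a k)) - N * ((2 * Real.pi)⁻¹ *
    ∫ θ in (0 : ℝ)..(2 * Real.pi), g θ)| ≤ N * ε
  rw [h3, abs_mul, abs_of_pos (by positivity : 0 < (N : ℝ) / (2 * Real.pi))]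
  calc (N : ℝ) / (2 * Real.pi) * _ ≤ (N : ℝ) / (2 * Real.pi) * (N * (ε * (2 * Real.pi / N))) := by
        gcongr
    _ = N * ε := by field_simp

/-- The growth condition in terms of the coordinate `z`. -/
def NB (z f : HD) : Prop := ∃ C, Nt z C ∧ ∀ n x e, Nt z n → n ≠ 0 → (n + 1) * x = n →
  Pw z (n + 1) C e → ∃ M, Nt z M ∧ ∀ m ω s t, Nt z m → Prim z ω (M + m + 1) →
    Pd z f x ω (M + m + 1) s → Pw z e (M + m + 1) t → ¬ Lt z t s

theorem mul_eq_nat {k : ℕ} {x : HD} (h : ((k : HD) + 1) * x = (k : HD)) : x = Cc (nd k) := by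
  refine HD.ext fun z _ => ?_
  have h1 := congrArg (fun f : HD => f.1 z) h
  simp only [mul_apply', add_apply', one_apply', natCast_apply'] at h1
  have hk : (k : ℂ) + 1 ≠ 0 := by exact_mod_cast Nat.succ_ne_zero k
  rw [Cc_apply]
  unfold nd
  rw [eq_div_iff hk, mul_comm]
  exact h1

theorem nat_mul_nd (k : ℕ) : ((k : HD) + 1) * Cc (nd k) = (k : HD) := by
  have hk : (k : ℂ) + 1 ≠ 0 := by exact_mod_cast Nat.succ_ne_zero k
  rw [← Cc_natCast, Cc_add_one_mul]
  unfold nd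
  field_simp

theorem norm_prod_fac (F : ℂ → ℂ) (x w : ℂ) (N : ℕ) :
    ‖∏ k ∈ Finset.range N, fac (F (x * w ^ k))‖ =
      Real.exp (∑ k ∈ Finset.range N, Real.posLog ‖F (x * w ^ k)‖) := by
  rw [norm_prod, Real.exp_sum]
  exact Finset.prod_congr rfl fun k _ => norm_fac _

theorem norm_pow_pow (k c N : ℕ) : ‖((((k : ℂ) + 1) ^ c) ^ N)‖ =
    Real.exp (N * (c * Real.log (k + 1))) := by
  have h : (k : ℂ) + 1 = (((k : ℝ) + 1 : ℝ) : ℂ) := by push_cast; rfl
  have hpos : (0 : ℝ) < k + 1 := by positivity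
  rw [norm_pow, norm_pow, h, Complex.norm_real, Real.norm_of_nonneg hpos.le, Real.exp_nat_mul,
    Real.exp_nat_mul, Real.exp_log hpos]

theorem natCast_add_one (k : ℕ) : (k : HD) + 1 = Cc ((k : ℂ) + 1) := by
  rw [Cc_add, Cc_natCast, Cc_one]

theorem NB_iff {z : HD} {ψ : ℂ → ℂ} (hz : Coord z ψ) (f : HD) :
    NB z f ↔ ∃ c : ℕ, ∀ k : ℕ, 1 ≤ k →
      Tc (fun w => f.1 (ψ w)) ((k : ℝ) / (k + 1)) ≤ c * Real.log (k + 1) := by
  have hFd : DifferentiableOn ℂ (fun w => f.1 (ψ w)) UD :=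
    DifferentiableOn.comp f.diff hz.psi_diff (fun w hw => hz.psi_maps w hw)
  have hk0 : ∀ k : ℕ, (0 : ℝ) ≤ (k : ℝ) / (k + 1) := fun k => by positivity
  have hk1 : ∀ k : ℕ, (k : ℝ) / (k + 1) < 1 := fun k => by
    rw [div_lt_one (by positivity)]; linarith
  have hcont : ∀ k : ℕ, ContinuousOn (fun w => Real.posLog ‖f.1 (ψ w)‖)
      (sphere 0 ((k : ℝ) / (k + 1))) := fun k =>
    (cont_posLog hFd.continuousOn).mono
      (sphere_subset_closedBall.trans (closedBall_subset_ball (hk1 k)))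
  constructor
  · rintro ⟨C, hC, H⟩
    obtain ⟨c, rfl⟩ := (Nt_iff hz _).1 hC
    refine ⟨c, fun k hk => le_of_forall_pos_le_add fun ε hε => ?_⟩
    have hkne : (k : HD) ≠ 0 := by
      intro h
      have := natCast_HD_eq_zero h
      omega
    obtain ⟨M, hM, HM⟩ := H (k : HD) (Cc (nd k)) (Cc (((k : ℂ) + 1) ^ c))
      ((Nt_iff hz _).2 ⟨k, rfl⟩) hkne (nat_mul_nd k)
      (by rw [natCast_add_one, Pw_iff hz])
    obtain ⟨M, rfl⟩ := (Nt_iff hz _).1 hM
    obtain ⟨M', hM'⟩ := riemann (hk0 k) (hcont k) hε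
    -- a large number of points
    have hNlt : 0 < M + M' + 1 := by omega
    have hw := Complex.isPrimitiveRoot_exp (M + M' + 1) hNlt.ne'
    set w := Complex.exp (2 * Real.pi * Complex.I / ((M + M' + 1 : ℕ) : ℂ)) with hwdef
    have hcast : (M : HD) + (M' : HD) + 1 = ((M + M' + 1 : ℕ) : HD) := by push_cast; rfl
    have hw1 : ‖w‖ = 1 := hw.norm'_eq_one hNlt.ne'
    have h1 := HM (M' : HD) (Cc w) _ _ ((Nt_iff hz _).2 ⟨M', rfl⟩)
      (by rw [hcast, Prim_iff hz _ hNlt]; exact ⟨w, rfl, hw⟩)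
      (by rw [hcast, Pd_iff hz f (nd_mem k) hw1])
      (by rw [hcast, Pw_iff hz])
    rw [Lt_iff hz, not_lt, norm_prod_fac (fun w => f.1 (ψ w)), norm_pow_pow, Real.exp_le_exp] at h1
    have h2 := hM' (M + M' + 1) (by omega) w hw
    rw [← nd_eq] at h2
    have h3 := (abs_le.1 h2).1
    have hNr : (0 : ℝ) < ((M + M' + 1 : ℕ) : ℝ) := by exact_mod_cast hNlt
    have h4 : ((M + M' + 1 : ℕ) : ℝ) * Tc (fun w => f.1 (ψ w)) ((k : ℝ) / (k + 1)) ≤
        ((M + M' + 1 : ℕ) : ℝ) * (c * Real.log (k + 1) + ε) := by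
      unfold Tc
      linarith
    exact le_of_mul_le_mul_left h4 hNr
  · rintro ⟨c, H⟩
    refine ⟨((c + 1 : ℕ) : HD), (Nt_iff hz _).2 ⟨_, rfl⟩, ?_⟩
    intro n x e hn hn0 hx he
    obtain ⟨k, rfl⟩ := (Nt_iff hz _).1 hn
    have hk : 1 ≤ k := by
      rcases Nat.eq_zero_or_pos k with h | h
      · subst h
        exact (hn0 (by simp)).elim
      · exact h
    have hx' := mul_eq_nat hx
    subst hx'
    rw [natCast_add_one, Pw_iff hz] at he
    subst he
    have hlog : 0 < Real.log (k + 1) := by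
      apply Real.log_pos
      have : (1 : ℝ) ≤ k := by exact_mod_cast hk
      linarith
    obtain ⟨M, hM⟩ := riemann (hk0 k) (hcont k) hlog
    refine ⟨(M : HD), (Nt_iff hz _).2 ⟨M, rfl⟩, ?_⟩
    intro m ω s t hm hω hs ht
    obtain ⟨m, rfl⟩ := (Nt_iff hz _).1 hm
    have hcast : (M : HD) + (m : HD) + 1 = ((M + m + 1 : ℕ) : HD) := by push_cast; rfl
    have hNlt : 0 < M + m + 1 := by omega
    rw [hcast] at hω hs ht
    obtain ⟨w, rfl, hw⟩ := (Prim_iff hz _ hNlt).1 hω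
    have hw1 : ‖w‖ = 1 := hw.norm'_eq_one hNlt.ne'
    rw [Pd_iff hz f (nd_mem k) hw1] at hs
    rw [Pw_iff hz] at ht
    subst hs ht
    rw [Lt_iff hz, not_lt, norm_prod_fac (fun w => f.1 (ψ w)), norm_pow_pow, Real.exp_le_exp]
    have h2 := hM (M + m + 1) (by omega) w hw
    rw [← nd_eq] at h2
    have h3 := (abs_le.1 h2).2
    have h4 := H k hk
    have hNr : (0 : ℝ) < ((M + m + 1 : ℕ) : ℝ) := by exact_mod_cast hNlt
    have h5 : ((M + m + 1 : ℕ) : ℝ) * Tc (fun w => f.1 (ψ w)) ((k : ℝ) / (k + 1)) ≤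
        ((M + m + 1 : ℕ) : ℝ) * (c * Real.log (k + 1)) :=
      mul_le_mul_of_nonneg_left h4 hNr.le
    unfold Tc at h5
    have h6 : ((c + 1 : ℕ) : ℝ) = c + 1 := by push_cast; rfl
    rw [h6]
    nlinarith

end Pool.Agent.TH730.Adm
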