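import Mathlib

/-! # The ring of holomorphic functions in the unit disc: basics -/

set_option autoImplicit false

open Complex Metric Set

namespace Pool.Agent.TH730.Adm

/-- The unit disc. -/
abbrev UD : Set ℂ := Metric.ball (0 : ℂ) 1

/-- The ring of holomorphic functions in the unit disc (extended by the value at `0`). -/
abbrev HD : Type := ↥(Subring.closure {g : ℂ → ℂ | DifferentiableOn ℂ g (Metric.ball (0:ℂ) 1) ∧
                ∀ z ∉ Metric.ball (0:ℂ) 1, g z = g 0})

theorem zero_mem_UD : (0 : ℂ) ∈ UD := mem_ball_self one_pos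

theorem isOpen_UD : IsOpen UD := isOpen_ball

/-- The subring itself. -/
def HSub : Subring (ℂ → ℂ) where
  carrier := {g : ℂ → ℂ | DifferentiableOn ℂ g (Metric.ball (0:ℂ) 1) ∧
                ∀ z ∉ Metric.ball (0:ℂ) 1, g z = g 0}
  mul_mem' := fun {a b} ha hb => ⟨ha.1.mul hb.1, fun z hz => by
    rw [Pi.mul_apply, Pi.mul_apply, ha.2 z hz, hb.2 z hz]⟩
  one_mem' := ⟨differentiableOn_const _, fun _ _ => rfl⟩
  add_mem' := fun {a b} ha hb => ⟨ha.1.add hb.1, fun z hz => by
    rw [Pi.add_apply, Pi.add_apply, ha.2 z hz, hb.2 z hz]⟩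
  zero_mem' := ⟨differentiableOn_const _, fun _ _ => rfl⟩
  neg_mem' := fun {a} ha => ⟨ha.1.neg, fun z hz => by
    rw [Pi.neg_apply, Pi.neg_apply, ha.2 z hz]⟩

theorem closure_eq : Subring.closure {g : ℂ → ℂ | DifferentiableOn ℂ g (Metric.ball (0:ℂ) 1) ∧
                ∀ z ∉ Metric.ball (0:ℂ) 1, g z = g 0} = HSub :=
  Subring.closure_eq HSub

theorem HD.prop (f : HD) : DifferentiableOn ℂ f.1 UD ∧ ∀ z ∉ UD, f.1 z = f.1 0 := by
  have h : f.1 ∈ HSub := by
    rw [← closure_eq]
    exact f.2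
  exact h

theorem HD.diff (f : HD) : DifferentiableOn ℂ f.1 UD := f.prop.1

theorem HD.ext {f g : HD} (h : ∀ z ∈ UD, f.1 z = g.1 z) : f = g := by
  apply Subtype.ext
  funext z
  by_cases hz : z ∈ UD
  · exact h z hz
  · rw [f.prop.2 z hz, g.prop.2 z hz]
    exact h 0 zero_mem_UD

open Classical in
/-- The element of the ring given by a function holomorphic in the disc. -/
noncomputable def mk (g : ℂ → ℂ) (hg : DifferentiableOn ℂ g UD) : HD :=
  ⟨fun z => if z ∈ UD then g z else g 0, Subring.subset_closure ⟨by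
    refine hg.congr fun z hz => ?_
    rw [if_pos hz], fun z hz => by
    show (if z ∈ UD then g z else g 0) = (if (0 : ℂ) ∈ UD then g 0 else g 0)
    rw [if_neg hz, if_pos zero_mem_UD]⟩⟩

theorem mk_apply {g : ℂ → ℂ} (hg : DifferentiableOn ℂ g UD) {z : ℂ} (hz : z ∈ UD) :
    (mk g hg).1 z = g z := by
  classical
  exact if_pos hz

@[simp] theorem add_apply' (f g : HD) (z : ℂ) : (f + g).1 z = f.1 z + g.1 z := rfl
@[simp] theorem mul_apply' (f g : HD) (z : ℂ) : (f * g).1 z = f.1 z * g.1 z := rfl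
@[simp] theorem sub_apply' (f g : HD) (z : ℂ) : (f - g).1 z = f.1 z - g.1 z := rfl
@[simp] theorem neg_apply' (f : HD) (z : ℂ) : (-f).1 z = -f.1 z := rfl
@[simp] theorem one_apply' (z : ℂ) : (1 : HD).1 z = 1 := rfl
@[simp] theorem zero_apply' (z : ℂ) : (0 : HD).1 z = 0 := rfl

/-- Constant functions. -/
noncomputable def Cc (c : ℂ) : HD := mk (fun _ => c) (differentiableOn_const _)

@[simp] theorem Cc_apply (c z : ℂ) : (Cc c).1 z = c := by
  classical
  show (if z ∈ UD then c else c) = c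
  split_ifs <;> rfl

theorem Cc_injective : Function.Injective Cc := by
  intro c d h
  have := congrArg (fun f : HD => f.1 0) h
  simpa using this

theorem Cc_add (c d : ℂ) : Cc (c + d) = Cc c + Cc d := HD.ext fun z _ => by simp
theorem Cc_sub (c d : ℂ) : Cc (c - d) = Cc c - Cc d := HD.ext fun z _ => by simp
theorem Cc_mul (c d : ℂ) : Cc (c * d) = Cc c * Cc d := HD.ext fun z _ => by simp
theorem Cc_zero : Cc 0 = 0 := HD.ext fun z _ => by simp
theorem Cc_one : Cc 1 = 1 := HD.ext fun z _ => by simp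

theorem Cc_natCast (n : ℕ) : Cc (n : ℂ) = (n : HD) := by
  induction n with
  | zero => simp [Cc_zero]
  | succ n ih => push_cast; rw [Cc_add, Cc_one, ih]

theorem isUnit_iff (f : HD) : IsUnit f ↔ ∀ z ∈ UD, f.1 z ≠ 0 := by
  constructor
  · rintro ⟨u, rfl⟩ z _ h
    have h1 : (u.1 * u.2 : HD).1 z = 1 := by rw [u.3]; rfl
    rw [mul_apply', h, zero_mul] at h1
    exact zero_ne_one h1
  · intro h
    refine IsUnit.of_mul_eq_one (mk (fun z => (f.1 z)⁻¹) (f.diff.inv h)) ?_
    refine HD.ext fun z hz => ?_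
    rw [mul_apply', mk_apply _ hz, mul_inv_cancel₀ (h z hz)]
    rfl

/-- The function `z - a`. -/
noncomputable def Xa (a : ℂ) : HD := mk (fun z => z - a) (by fun_prop)

theorem Xa_apply (a : ℂ) {z : ℂ} (hz : z ∈ UD) : (Xa a).1 z = z - a := mk_apply _ hz

theorem Xa_dvd {a : ℂ} (ha : a ∈ UD) (g : HD) : Xa a ∣ g ↔ g.1 a = 0 := by
  constructor
  · rintro ⟨h, rfl⟩
    rw [mul_apply', Xa_apply a ha, sub_self, zero_mul]
  · intro h
    refine ⟨mk (dslope g.1 a) ?_, ?_⟩
    · exact (differentiableOn_dslope (isOpen_UD.mem_nhds ha)).2 g.diff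
    · refine HD.ext fun z hz => ?_
      rw [mul_apply', Xa_apply a hz, mk_apply _ hz]
      have := sub_smul_dslope g.1 a z
      rw [h, sub_zero, smul_eq_mul] at this
      exact this.symm

theorem Xa_irreducible {a : ℂ} (ha : a ∈ UD) : Irreducible (Xa a) := by
  constructor
  · rw [isUnit_iff]
    intro h
    exact h a ha (by rw [Xa_apply a ha, sub_self])
  · intro f g hfg
    have h1 : ∀ z ∈ UD, f.1 z * g.1 z = z - a := fun z hz => by
      rw [← mul_apply', ← hfg, Xa_apply a hz]
    have h2 : f.1 a * g.1 a = 0 := by rw [h1 a ha, sub_self]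
    -- not both vanish at `a`
    have h3 : ¬ (f.1 a = 0 ∧ g.1 a = 0) := by
      rintro ⟨hf, hg⟩
      have hd : HasDerivAt (fun z => f.1 z * g.1 z) (deriv f.1 a * g.1 a + f.1 a * deriv g.1 a) a :=
        ((f.diff.differentiableAt (isOpen_UD.mem_nhds ha)).hasDerivAt).mul
          ((g.diff.differentiableAt (isOpen_UD.mem_nhds ha)).hasDerivAt)
      rw [hf, hg, mul_zero, zero_mul, add_zero] at hd
      have hd' : HasDerivAt (fun z => f.1 z * g.1 z) 1 a := by
        have : HasDerivAt (fun z : ℂ => z - a) 1 a := (hasDerivAt_id a).sub_const a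
        refine this.congr_of_eventuallyEq ?_
        filter_upwards [isOpen_UD.mem_nhds ha] with z hz
        exact h1 z hz
      exact zero_ne_one (hd.unique hd')
    rw [isUnit_iff, isUnit_iff]
    rcases mul_eq_zero.1 h2 with hf | hg
    · right
      intro z hz hgz
      by_cases hza : z = a
      · subst hza
        exact h3 ⟨hf, hgz⟩
      · have := h1 z hz
        rw [hgz, mul_zero] at this
        exact hza (sub_eq_zero.1 this.symm)
    · left
      intro z hz hfz
      by_cases hza : z = a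
      · subst hza
        exact h3 ⟨hfz, hg⟩
      · have := h1 z hz
        rw [hfz, zero_mul] at this
        exact hza (sub_eq_zero.1 this.symm)

/-- An irreducible element has exactly one zero, and it is simple. -/
theorem irreducible_point {p : HD} (hp : Irreducible p) :
    ∃ a ∈ UD, (∀ g : HD, p ∣ g ↔ g.1 a = 0) ∧ ∃ u : HD, IsUnit u ∧ p = Xa a * u := by
  have h1 := hp.not_isUnit
  rw [isUnit_iff] at h1
  push Not at h1
  obtain ⟨a, ha, h0⟩ := h1
  obtain ⟨u, hu⟩ := (Xa_dvd ha p).2 h0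
  have h2 : IsUnit u := (hp.isUnit_or_isUnit hu).resolve_left (Xa_irreducible ha).not_isUnit
  refine ⟨a, ha, fun g => ?_, u, h2, hu⟩
  rw [hu, ← Xa_dvd ha g]
  exact h2.mul_right_dvd

end Pool.Agent.TH730.Adm
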